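import Mathlib

/-!
Algebra of trigonometric polynomials in two variables `Z, y`, with coefficients polynomial in time,
graded by a bookkeeping order, and the coefficientwise operators on it.
-/

open Polynomial

namespace Pool.Agent.EulerInflation

/-- Index of a monomial: order, frequency in `Z`, frequency in `y`. -/
abbrev Idx := ℕ × ℤ × ℤ

/-- The algebra. -/
abbrev BB := AddMonoidAlgebra ℂ[X] Idx

theorem BB.ext' {f g : BB} (h : ∀ a, f.coeff a = g.coeff a) : f = g := by
  apply AddMonoidAlgebra.ext
  exact Finsupp.ext h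

/-- Coefficientwise operator. -/
noncomputable def op (φ : Idx → (ℂ[X] →ₗ[ℂ] ℂ[X])) : BB →ₗ[ℂ] BB where
  toFun f := .ofCoeff (Finsupp.onFinset f.coeff.support (fun a => φ a (f.coeff a)) (by
    intro a ha
    rw [Finsupp.mem_support_iff]
    intro h
    exact ha (by rw [h, map_zero])))
  map_add' f g := by
    apply BB.ext'
    intro a
    simp [Finsupp.onFinset_apply]
  map_smul' c f := by
    apply BB.ext'
    intro a
    simp [Finsupp.onFinset_apply]

@[simp] theorem op_coeff (φ : Idx → (ℂ[X] →ₗ[ℂ] ℂ[X])) (f : BB) (a : Idx) :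
    (op φ f).coeff a = φ a (f.coeff a) := by
  simp [op]

theorem op_single (φ : Idx → (ℂ[X] →ₗ[ℂ] ℂ[X])) (a : Idx) (p : ℂ[X]) :
    op φ (AddMonoidAlgebra.single a p) = AddMonoidAlgebra.single a (φ a p) := by
  apply BB.ext'
  intro b
  rw [op_coeff]
  by_cases h : a = b
  · subst h; simp
  · simp [Finsupp.single_apply, h]

theorem op_comm {φ ψ : Idx → (ℂ[X] →ₗ[ℂ] ℂ[X])} (h : ∀ a p, φ a (ψ a p) = ψ a (φ a p)) (f : BB) :
    op φ (op ψ f) = op ψ (op φ f) := by
  apply BB.ext'
  intro a
  simp [h]

/-- multiplication operator by a scalar function of the index -/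
noncomputable def mop (c : Idx → ℂ) : BB →ₗ[ℂ] BB := op (fun a => c a • LinearMap.id)

@[simp] theorem mop_coeff (c : Idx → ℂ) (f : BB) (a : Idx) :
    (mop c f).coeff a = c a • f.coeff a := by
  simp [mop]

theorem mop_single (c : Idx → ℂ) (a : Idx) (p : ℂ[X]) :
    mop c (AddMonoidAlgebra.single a p) = AddMonoidAlgebra.single a (c a • p) := by
  simp [mop, op_single]

/-- antiderivative of polynomials, vanishing at zero -/
noncomputable def integ : ℂ[X] →ₗ[ℂ] ℂ[X] :=
  Polynomial.lsum (fun n => ((n + 1 : ℂ)⁻¹) • Polynomial.monomial (n + 1))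

theorem integ_monomial (n : ℕ) (c : ℂ) :
    integ (Polynomial.monomial n c) = Polynomial.monomial (n + 1) ((n + 1 : ℂ)⁻¹ * c) := by
  simp [integ, Polynomial.lsum, Polynomial.sum_monomial_index, Polynomial.smul_monomial]

theorem derivative_integ (p : ℂ[X]) : Polynomial.derivative (integ p) = p := by
  induction p using Polynomial.induction_on' with
  | add p q hp hq => rw [map_add, map_add, hp, hq]
  | monomial n c =>
    rw [integ_monomial, Polynomial.derivative_monomial]
    congr 1
    have : (n + 1 : ℂ) ≠ 0 := by exact_mod_cast Nat.succ_ne_zero n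
    push_cast
    field_simp

theorem integ_eval_zero (p : ℂ[X]) : (integ p).eval 0 = 0 := by
  induction p using Polynomial.induction_on' with
  | add p q hp hq => rw [map_add, Polynomial.eval_add, hp, hq, add_zero]
  | monomial n c =>
    rw [integ_monomial, Polynomial.eval_monomial]
    simp

/-- derivative in `Z` -/
noncomputable def Dz : BB →ₗ[ℂ] BB := mop (fun a => Complex.I * a.2.1)
/-- derivative in `y` -/
noncomputable def Dy : BB →ₗ[ℂ] BB := mop (fun a => Complex.I * a.2.2)
/-- antiderivative in `Z` -/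
noncomputable def Iz : BB →ₗ[ℂ] BB := mop (fun a => (Complex.I * a.2.1)⁻¹)
/-- mean in `Z` -/
noncomputable def Mn : BB →ₗ[ℂ] BB := mop (fun a => if a.2.1 = 0 then 1 else 0)
/-- truncation in the order -/
noncomputable def tr (K : ℕ) : BB →ₗ[ℂ] BB := mop (fun a => if a.1 ≤ K then 1 else 0)
/-- derivative in time -/
noncomputable def Dt : BB →ₗ[ℂ] BB := op (fun _ => Polynomial.derivative)
/-- integral in time -/
noncomputable def It : BB →ₗ[ℂ] BB := op (fun _ => integ)

theorem mop_comm (c d : Idx → ℂ) (f : BB) : mop c (mop d f) = mop d (mop c f) := by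
  apply BB.ext'; intro a; simp [smul_smul, mul_comm]

theorem mop_Dt (c : Idx → ℂ) (f : BB) : Dt (mop c f) = mop c (Dt f) := by
  apply BB.ext'; intro a; simp [Dt]

theorem mop_It (c : Idx → ℂ) (f : BB) : It (mop c f) = mop c (It f) := by
  apply BB.ext'; intro a; simp [It]

theorem Dt_It (f : BB) : Dt (It f) = f := by
  apply BB.ext'; intro a; simp [It, Dt, derivative_integ]

/-- Leibniz rule from monomials. -/
theorem leibniz_of_single (D : BB →ₗ[ℂ] BB)
    (h : ∀ a b p q, D (AddMonoidAlgebra.single a p * AddMonoidAlgebra.single b q) =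
      D (AddMonoidAlgebra.single a p) * AddMonoidAlgebra.single b q +
      AddMonoidAlgebra.single a p * D (AddMonoidAlgebra.single b q)) (f g : BB) :
    D (f * g) = D f * g + f * D g := by
  induction f using AddMonoidAlgebra.induction_linear with
  | zero => simp
  | add x y hx hy => rw [add_mul, map_add, hx, hy, map_add]; ring
  | single a p =>
    induction g using AddMonoidAlgebra.induction_linear with
    | zero => simp
    | add x y hx hy => rw [mul_add, map_add, hx, hy, map_add]; ring
    | single b q => exact h a b p q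

theorem mop_leibniz {c : Idx → ℂ} (hc : ∀ a b, c (a + b) = c a + c b) (f g : BB) :
    mop c (f * g) = mop c f * g + f * mop c g := by
  apply leibniz_of_single
  intro a b p q
  simp only [AddMonoidAlgebra.single_mul_single, mop_single, hc]
  rw [← AddMonoidAlgebra.single_add]
  congr 1
  simp [add_smul]

theorem Dz_mul (f g : BB) : Dz (f * g) = Dz f * g + f * Dz g := by
  apply mop_leibniz
  intro a b
  push_cast [Prod.fst_add, Prod.snd_add]
  ring

theorem Dy_mul (f g : BB) : Dy (f * g) = Dy f * g + f * Dy g := by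
  apply mop_leibniz
  intro a b
  push_cast [Prod.fst_add, Prod.snd_add]
  ring

theorem Dt_mul (f g : BB) : Dt (f * g) = Dt f * g + f * Dt g := by
  apply leibniz_of_single
  intro a b p q
  simp only [AddMonoidAlgebra.single_mul_single, Dt, op_single, Polynomial.derivative_mul]
  rw [← AddMonoidAlgebra.single_add]

/-- elements independent of `Z` -/
def ZI (z : BB) : Prop := Mn z = z
/-- elements with zero mean in `Z` -/
def MZ (z : BB) : Prop := Mn z = 0

theorem ZI_iff (z : BB) : ZI z ↔ ∀ a : Idx, a.2.1 ≠ 0 → z.coeff a = 0 := by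
  unfold ZI
  constructor
  · intro h a ha
    have := congrArg (fun f : BB => f.coeff a) h
    simp only [Mn, mop_coeff, if_neg ha, zero_smul] at this
    exact this.symm
  · intro h
    apply BB.ext'
    intro a
    simp only [Mn, mop_coeff]
    by_cases ha : a.2.1 = 0
    · simp [ha]
    · simp [ha, h a ha]

theorem MZ_iff (z : BB) : MZ z ↔ ∀ a : Idx, a.2.1 = 0 → z.coeff a = 0 := by
  unfold MZ
  constructor
  · intro h a ha
    have := congrArg (fun f : BB => f.coeff a) h
    simp only [Mn, mop_coeff, if_pos ha, one_smul] at this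
    simpa using this
  · intro h
    apply BB.ext'
    intro a
    simp only [Mn, mop_coeff]
    by_cases ha : a.2.1 = 0
    · simp [ha, h a ha]
    · simp [ha]

/-- Multiplication by elements independent of `Z` commutes with multipliers depending only on the
`Z` frequency. -/
theorem mop_ZI_mul {c : Idx → ℂ} (hc : ∀ a b : Idx, a.2.1 = 0 → c (a + b) = c b) {z : BB}
    (hz : ZI z) (f : BB) : mop c (z * f) = z * mop c f := by
  rw [ZI_iff] at hz
  have key : ∀ a p, a.2.1 = 0 → mop c (AddMonoidAlgebra.single a p * f) =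
      AddMonoidAlgebra.single a p * mop c f := by
    intro a p ha
    induction f using AddMonoidAlgebra.induction_linear with
    | zero => simp
    | add x y hx hy => rw [mul_add, map_add, hx, hy, map_add, mul_add]
    | single b q =>
      simp only [AddMonoidAlgebra.single_mul_single, mop_single, hc a b ha]
      congr 1
      simp
  have hsum : z = ∑ a ∈ z.coeff.support, AddMonoidAlgebra.single a (z.coeff a) := by
    conv_lhs => rw [← AddMonoidAlgebra.sum_coeff_single z]
    rfl
  rw [hsum, Finset.sum_mul, map_sum, Finset.sum_mul]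
  apply Finset.sum_congr rfl
  intro a ha
  apply key
  by_contra h
  exact (Finsupp.mem_support_iff.mp ha) (hz a h)

theorem Mn_ZI_mul {z : BB} (hz : ZI z) (f : BB) : Mn (z * f) = z * Mn f := by
  apply mop_ZI_mul _ hz
  intro a b ha
  simp [ha]

theorem Iz_ZI_mul {z : BB} (hz : ZI z) (f : BB) : Iz (z * f) = z * Iz f := by
  apply mop_ZI_mul _ hz
  intro a b ha
  simp [ha]

theorem Dz_ZI {z : BB} (hz : ZI z) : Dz z = 0 := by
  rw [ZI_iff] at hz
  apply BB.ext'
  intro a
  simp only [Dz, mop_coeff]
  by_cases ha : a.2.1 = 0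
  · simp [ha]
  · simp [hz a ha]

theorem Iz_Dz {f : BB} (hf : MZ f) : Iz (Dz f) = f := by
  rw [MZ_iff] at hf
  apply BB.ext'
  intro a
  simp only [Dz, Iz, mop_coeff, smul_smul]
  by_cases ha : a.2.1 = 0
  · simp [ha, hf a ha]
  · have : (Complex.I * (a.2.1 : ℂ)) ≠ 0 := by
      simp [ha]
    rw [inv_mul_cancel₀ this, one_smul]

theorem Dz_Iz {f : BB} (hf : MZ f) : Dz (Iz f) = f := by
  rw [Dz, Iz, mop_comm]
  exact Iz_Dz hf

theorem Dz_Iz' (f : BB) : Dz (Iz f) = f - Mn f := by
  apply BB.ext'
  intro a
  simp only [Dz, Iz, Mn, mop_coeff, smul_smul, AddMonoidAlgebra.coeff_sub, Finsupp.sub_apply]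
  by_cases ha : a.2.1 = 0
  · simp [ha]
  · have : (Complex.I * (a.2.1 : ℂ)) ≠ 0 := by
      simp [ha]
    rw [mul_inv_cancel₀ this]
    simp [ha]

theorem Mn_Dz (f : BB) : Mn (Dz f) = 0 := by
  apply BB.ext'
  intro a
  simp only [Dz, Mn, mop_coeff, smul_smul]
  by_cases ha : a.2.1 = 0 <;> simp [ha]

theorem Mn_Iz (f : BB) : Mn (Iz f) = 0 := by
  apply BB.ext'
  intro a
  simp only [Iz, Mn, mop_coeff, smul_smul]
  by_cases ha : a.2.1 = 0 <;> simp [ha]

theorem Mn_Mn (f : BB) : Mn (Mn f) = Mn f := by
  apply BB.ext'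
  intro a
  simp only [Mn, mop_coeff, smul_smul]
  by_cases ha : a.2.1 = 0 <;> simp [ha]

end Pool.Agent.EulerInflation
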