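import Pool.Agent.Work.MP_8b4a1b_an.Bd

/-!
The basic elements: `cos y`, `t cos y`, `S = 1 + t^2 cos^2 y`, its approximate inverse, `cos Z`.
-/

open Polynomial

namespace Pool.Agent.EulerInflation

/-- `cos y` -/
noncomputable def cosy : BB :=
  AddMonoidAlgebra.single (0, 0, 1) (C (1 / 2)) + AddMonoidAlgebra.single (0, 0, -1) (C (1 / 2))
/-- `t cos y` -/
noncomputable def Th0 : BB :=
  AddMonoidAlgebra.single (0, 0, 1) (C (1 / 2) * X) +
    AddMonoidAlgebra.single (0, 0, -1) (C (1 / 2) * X)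
/-- `cos Z` -/
noncomputable def w0 : BB :=
  AddMonoidAlgebra.single (0, 1, 0) (C (1 / 2)) + AddMonoidAlgebra.single (0, -1, 0) (C (1 / 2))
/-- `S` -/
noncomputable def SS : BB := 1 + Th0 * Th0
/-- approximate inverse of `S` -/
noncomputable def sg (T : ℝ) (N : ℕ) : BB :=
  ((cT T : ℂ)⁻¹) • ∑ l ∈ Finset.range N, (1 - ((cT T : ℂ)⁻¹) • SS) ^ l

theorem SS_mul_sg {T : ℝ} (hT : 1 ≤ T) (N : ℕ) :
    SS * sg T N = 1 - (1 - ((cT T : ℂ)⁻¹) • SS) ^ N := by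
  have hc : (cT T : ℂ) ≠ 0 := by
    have : 0 < cT T := by unfold cT; positivity
    exact_mod_cast this.ne'
  have h := mul_neg_geom_sum (1 - ((cT T : ℂ)⁻¹) • SS) N
  rw [sub_sub_cancel] at h
  unfold sg
  rw [mul_smul_comm, ← h, smul_mul_assoc]

/-- elements of order zero -/
def OZ (z : BB) : Prop := ∀ n : ℕ, 1 ≤ n → ∀ (τ : ℝ) (t : ℂ), 0 ≤ τ → nn n τ t z = 0

theorem OZ.add {f g : BB} (hf : OZ f) (hg : OZ g) : OZ (f + g) := by
  intro n hn τ t hτ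
  apply le_antisymm _ (nn_nonneg _ _ _ _)
  refine (nn_add_le n τ t f g).trans ?_
  rw [hf n hn τ t hτ, hg n hn τ t hτ, add_zero]

theorem OZ.smul {f : BB} (hf : OZ f) (x : ℂ) : OZ (x • f) := by
  intro n hn τ t hτ
  rw [nn_smul, hf n hn τ t hτ, mul_zero]

theorem OZ.sub {f g : BB} (hf : OZ f) (hg : OZ g) : OZ (f - g) := by
  have := hf.add (hg.smul (-1))
  simpa [sub_eq_add_neg] using this

theorem OZ.mul {f g : BB} (hf : OZ f) (hg : OZ g) : OZ (f * g) := by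
  intro n hn τ t hτ
  apply le_antisymm _ (nn_nonneg _ _ _ _)
  refine (nn_mul_le n hτ t f g).trans ?_
  apply le_of_eq
  apply Finset.sum_eq_zero
  rintro ⟨i, j⟩ hij
  rw [Finset.HasAntidiagonal.mem_antidiagonal] at hij
  simp only at hij ⊢
  rcases Nat.eq_zero_or_pos i with hi | hi
  · rw [hg j (by omega) τ t hτ, mul_zero]
  · rw [hf i hi τ t hτ, zero_mul]

theorem OZ_single (j k : ℤ) (p : ℂ[X]) : OZ (AddMonoidAlgebra.single (0, j, k) p) := by
  intro n hn τ t _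
  have : (0 : ℕ) ≠ n := by omega
  simp [nn, this]

theorem OZ_zero : OZ (0 : BB) := by
  intro n hn τ t _
  simp [nn]

theorem OZ_one : OZ (1 : BB) := by
  rw [AddMonoidAlgebra.one_def]
  exact OZ_single 0 0 1

theorem OZ.pow {f : BB} (hf : OZ f) (l : ℕ) : OZ (f ^ l) := by
  induction l with
  | zero => rw [pow_zero]; exact OZ_one
  | succ l ih => rw [pow_succ]; exact ih.mul hf

theorem OZ_sum {ι : Type*} (s : Finset ι) (f : ι → BB) (h : ∀ i ∈ s, OZ (f i)) :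
    OZ (∑ i ∈ s, f i) := by
  classical
  induction s using Finset.induction_on with
  | empty => rw [Finset.sum_empty]; exact OZ_zero
  | insert i s hi ih =>
    rw [Finset.sum_insert hi]
    exact (h i (Finset.mem_insert_self _ _)).add (ih fun j hj => h j (Finset.mem_insert_of_mem hj))

theorem OZ_Th0 : OZ Th0 := (OZ_single _ _ _).add (OZ_single _ _ _)
theorem OZ_cosy : OZ cosy := (OZ_single _ _ _).add (OZ_single _ _ _)
theorem OZ_w0 : OZ w0 := (OZ_single _ _ _).add (OZ_single _ _ _)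
theorem OZ_SS : OZ SS := OZ_one.add (OZ_Th0.mul OZ_Th0)
theorem OZ_sg (T : ℝ) (N : ℕ) : OZ (sg T N) :=
  (OZ_sum _ _ fun _ _ => (OZ_one.sub (OZ_SS.smul _)).pow _).smul _

theorem nn_zero_le_tn (τ : ℝ) (t : ℂ) (f : BB) (n : ℕ) : nn n τ t f ≤ tn τ t f := by
  apply gn_mono
  intro a
  split_ifs
  · exact le_rfl
  · exact (wt_pos _ _).le

theorem Bd.of_OZ {T : ℝ} (hT : 1 ≤ T) {z : BB} (hz : OZ z) {α : ℕ} {A : ℝ} (hA : 0 ≤ A)
    (h : ∀ (τ : ℝ) (t : ℂ), 0 ≤ τ → τ < τT T → t ∈ reg T → tn τ t z ≤ A * (1 + ‖t‖) ^ α)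
    (p : ℕ) : Bd T α 0 p A z := by
  intro n τ t h1 h2 h3
  rcases Nat.eq_zero_or_pos n with hn | hn
  · subst hn
    refine (nn_zero_le_tn τ t z 0).trans ((h τ t h1 h2 h3).trans (le_of_eq ?_))
    unfold W
    simp
  · rw [hz n hn τ t h1]
    exact mul_nonneg hA (W_pos hT _ _ _ _ h2 _).le

theorem exp_tau_le {T : ℝ} (hT : 1 ≤ T) {τ : ℝ} (h : τ < τT T) : Real.exp τ ≤ 2 := by
  have h1 := τT_le hT
  have h2 : Real.exp τ ≤ Real.exp (1 / 64) := Real.exp_le_exp.mpr (by linarith)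
  refine h2.trans ?_
  have h3 := Real.add_one_le_exp (-(1 / 64 : ℝ))
  have h4 : Real.exp (1 / 64) = (Real.exp (-(1 / 64)))⁻¹ := by rw [← Real.exp_neg]; norm_num
  rw [h4, inv_le_comm₀ (Real.exp_pos _) (by norm_num)]
  linarith

theorem tn_single (τ : ℝ) (t : ℂ) (a : Idx) (p : ℂ[X]) :
    tn τ t (AddMonoidAlgebra.single a p) = ‖p.eval t‖ * wt τ a := gn_single _ _ _ _

theorem tn_Th0 (τ : ℝ) (t : ℂ) : tn τ t Th0 ≤ ‖t‖ * Real.exp τ := by
  unfold Th0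
  refine (tn_add_le _ _ _ _).trans (le_of_eq ?_)
  rw [tn_single, tn_single]
  simp [wt]
  ring

theorem tn_w0 (τ : ℝ) (t : ℂ) : tn τ t w0 ≤ Real.exp τ := by
  unfold w0
  refine (tn_add_le _ _ _ _).trans (le_of_eq ?_)
  rw [tn_single, tn_single]
  simp [wt]
  ring

theorem Bd_Th0 {T : ℝ} (hT : 1 ≤ T) (p : ℕ) : Bd T 1 0 p 2 Th0 := by
  have := Bd.of_OZ hT OZ_Th0 (α := 1) (A := 2) (by norm_num) (fun τ t h1 h2 h3 => by
    refine (tn_Th0 τ t).trans ?_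
    have h4 := exp_tau_le hT h2
    have h5 := norm_nonneg t
    have h6 := Real.exp_pos τ
    nlinarith) p
  exact this

theorem Bd_w0 {T : ℝ} (hT : 1 ≤ T) (p : ℕ) : Bd T 0 0 p 2 w0 := by
  have := Bd.of_OZ hT OZ_w0 (α := 0) (A := 2) (by norm_num) (fun τ t h1 h2 h3 => by
    refine (tn_w0 τ t).trans ?_
    simpa using exp_tau_le hT h2) p
  exact this

theorem Dy_single (a : Idx) (p : ℂ[X]) :
    Dy (AddMonoidAlgebra.single a p) = AddMonoidAlgebra.single a ((Complex.I * a.2.2) • p) :=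
  mop_single _ _ _

theorem Dy3_cosy_eq : Dy (Dy (Dy cosy)) =
    AddMonoidAlgebra.single (0, 0, 1) (-(Complex.I / 2) • 1) +
    AddMonoidAlgebra.single (0, 0, -1) ((Complex.I / 2) • 1) := by
  unfold cosy
  rw [map_add, map_add, map_add]
  simp only [Dy_single, smul_smul]
  have hI : Complex.I * Complex.I = -1 := Complex.I_mul_I
  congr 2
  · push_cast
    rw [show (C (1 / 2 : ℂ)) = (1 / 2 : ℂ) • (1 : ℂ[X]) by
      rw [Polynomial.smul_eq_C_mul, mul_one], smul_smul]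
    congr 1
    linear_combination (1 / 2 : ℂ) * Complex.I * hI
  · push_cast
    rw [show (C (1 / 2 : ℂ)) = (1 / 2 : ℂ) • (1 : ℂ[X]) by
      rw [Polynomial.smul_eq_C_mul, mul_one], smul_smul]
    congr 1
    linear_combination -(1 / 2 : ℂ) * Complex.I * hI

theorem tn_Dy3_cosy (τ : ℝ) (t : ℂ) : tn τ t (Dy (Dy (Dy cosy))) ≤ Real.exp τ := by
  rw [Dy3_cosy_eq]
  refine (tn_add_le _ _ _ _).trans (le_of_eq ?_)
  rw [tn_single, tn_single]
  simp [wt]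
  ring

theorem Bd_Dy3_cosy {T : ℝ} (hT : 1 ≤ T) (p : ℕ) : Bd T 0 0 p 2 (Dy (Dy (Dy cosy))) := by
  have hOZ : OZ (Dy (Dy (Dy cosy))) := by
    rw [Dy3_cosy_eq]
    exact (OZ_single _ _ _).add (OZ_single _ _ _)
  have := Bd.of_OZ hT hOZ (α := 0) (A := 2) (by norm_num) (fun τ t h1 h2 h3 => by
    refine (tn_Dy3_cosy τ t).trans ?_
    simpa using exp_tau_le hT h2) p
  exact this

theorem SS_eq : SS = AddMonoidAlgebra.single (0, 0, 0) (1 + C (1 / 2) * X ^ 2) +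
    (AddMonoidAlgebra.single (0, 0, 2) (C (1 / 4) * X ^ 2) +
    AddMonoidAlgebra.single (0, 0, -2) (C (1 / 4) * X ^ 2)) := by
  unfold SS Th0
  rw [AddMonoidAlgebra.one_def]
  simp only [add_mul, mul_add, AddMonoidAlgebra.single_mul_single]
  have e1 : ((0, 0, 1) : Idx) + (0, 0, 1) = (0, 0, 2) := by decide
  have e2 : ((0, 0, 1) : Idx) + (0, 0, -1) = (0, 0, 0) := by decide
  have e3 : ((0, 0, -1) : Idx) + (0, 0, 1) = (0, 0, 0) := by decide
  have e4 : ((0, 0, -1) : Idx) + (0, 0, -1) = (0, 0, -2) := by decide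
  rw [e1, e2, e3, e4]
  have e5 : (C (1 / 2 : ℂ) * X * (C (1 / 2) * X) : ℂ[X]) = C (1 / 4) * X ^ 2 := by
    rw [show (1 / 4 : ℂ) = (1 / 2) * (1 / 2) by norm_num, C_mul]
    ring
  rw [e5]
  have e6 : (AddMonoidAlgebra.single ((0, 0, 0) : Idx) (1 + C (1 / 2) * X ^ 2) : BB) =
      AddMonoidAlgebra.single 0 1 + (AddMonoidAlgebra.single (0, 0, 0) (C (1 / 4) * X ^ 2) +
      AddMonoidAlgebra.single (0, 0, 0) (C (1 / 4) * X ^ 2)) := by
    rw [← AddMonoidAlgebra.single_add]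
    have : (0 : Idx) = (0, 0, 0) := rfl
    rw [this, ← AddMonoidAlgebra.single_add]
    congr 2
    rw [show (1 / 2 : ℂ) = (1 / 4) + (1 / 4) by norm_num, C_add]
    ring
  rw [e6]
  abel

theorem tn_one_sub_SS {T : ℝ} (hT : 1 ≤ T) {τ : ℝ} (h0 : 0 ≤ τ) (hτ : τ < τT T) {t : ℂ}
    (ht : t ∈ reg T) : tn τ t (1 - ((cT T : ℂ)⁻¹) • SS) ≤ 1 - 1 / (2 * cT T) := by
  have hc : 0 < cT T := by unfold cT; positivity
  set c := cT T with hcdef
  have h1 : (1 : BB) - ((c : ℂ)⁻¹) • SS =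
      AddMonoidAlgebra.single (0, 0, 0) (1 - ((c : ℂ)⁻¹) • (1 + C (1 / 2) * X ^ 2)) -
      ((c : ℂ)⁻¹) • (AddMonoidAlgebra.single (0, 0, 2) (C (1 / 4) * X ^ 2) +
      AddMonoidAlgebra.single (0, 0, -2) (C (1 / 4) * X ^ 2)) := by
    rw [SS_eq, smul_add, AddMonoidAlgebra.one_def]
    have : (0 : Idx) = (0, 0, 0) := rfl
    rw [this, AddMonoidAlgebra.smul_single]
    have e : (AddMonoidAlgebra.single ((0, 0, 0) : Idx)
        (1 - ((c : ℂ)⁻¹) • (1 + C (1 / 2) * X ^ 2)) : BB) =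
        AddMonoidAlgebra.single (0, 0, 0) 1 -
        AddMonoidAlgebra.single (0, 0, 0) (((c : ℂ)⁻¹) • (1 + C (1 / 2) * X ^ 2)) := by
      rw [sub_eq_add_neg, AddMonoidAlgebra.single_add, sub_eq_add_neg]
      congr 1
      apply BB.ext'
      intro a
      simp only [AddMonoidAlgebra.coeff_single, AddMonoidAlgebra.coeff_neg, Finsupp.neg_apply]
      by_cases ha : (0, 0, 0) = a
      · subst ha; simp
      · simp [ha]
    rw [e]
    abel
  rw [h1]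
  refine (tn_sub_le _ _ _ _).trans ?_
  rw [tn_smul, tn_single]
  have h2 : tn τ t (AddMonoidAlgebra.single (0, 0, 2) (C (1 / 4) * X ^ 2) +
      AddMonoidAlgebra.single (0, 0, -2) (C (1 / 4) * X ^ 2) : BB) ≤
      ‖t‖ ^ 2 / 2 * Real.exp (2 * τ) := by
    refine (tn_add_le _ _ _ _).trans (le_of_eq ?_)
    rw [tn_single, tn_single]
    simp [wt]
    rw [mul_comm τ 2]
    ring
  have h3 : ‖((1 : ℂ[X]) - ((c : ℂ)⁻¹) • (1 + C (1 / 2) * X ^ 2)).eval t‖ * wt τ (0, 0, 0) =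
      ‖1 - (c : ℂ)⁻¹ * (1 + t ^ 2 / 2)‖ := by
    simp [wt]
    congr 2
    ring
  rw [h3]
  -- bound of the central coefficient
  set x := t.re with hx
  set y := t.im with hy
  have hxy : ‖t‖ ^ 2 = x ^ 2 + y ^ 2 := by
    rw [← Complex.normSq_eq_norm_sq, Complex.normSq_apply]; ring
  obtain ⟨hty, htn⟩ := ht
  have hb : bT T = 1 / (8 * (T + 1)) := rfl
  have hn0 : 0 ≤ ‖t‖ := norm_nonneg t
  have hx1 : |x| ≤ T + 1 := (Complex.abs_re_le_norm t).trans htn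
  have hT1 : 0 < T + 1 := by linarith
  have hxy1 : |x * y| ≤ 1 / 8 := by
    rw [abs_mul]
    calc |x| * |y| ≤ (T + 1) * (1 / (8 * (T + 1))) :=
          mul_le_mul hx1 (by rw [← hb]; exact hty) (abs_nonneg _) hT1.le
      _ = 1 / 8 := by field_simp
  have hy1 : |y| ≤ 1 / 16 := by
    refine hty.trans ?_
    rw [hb]
    apply one_div_le_one_div_of_le (by norm_num)
    linarith
  have hy2 : y ^ 2 ≤ 1 / 256 := by
    rw [← sq_abs]
    calc |y| ^ 2 ≤ (1 / 16) ^ 2 := pow_le_pow_left₀ (abs_nonneg _) hy1 2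
      _ = 1 / 256 := by norm_num
  have hx2 : x ^ 2 ≤ (T + 1) ^ 2 := by
    rw [← sq_abs]
    exact pow_le_pow_left₀ (abs_nonneg _) hx1 2
  have h4 : ‖1 - (c : ℂ)⁻¹ * (1 + t ^ 2 / 2)‖ ≤
      (1 - (1 + (x ^ 2 - y ^ 2) / 2) / c) + |x * y| / c := by
    have hre : (1 - (c : ℂ)⁻¹ * (1 + t ^ 2 / 2)) =
        ((1 - (1 + (x ^ 2 - y ^ 2) / 2) / c : ℝ) : ℂ) - ((x * y / c : ℝ) : ℂ) * Complex.I := by
      have ht' : t = (x : ℂ) + (y : ℂ) * Complex.I := (Complex.re_add_im t).symm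
      rw [ht']
      push_cast
      field_simp
      ring_nf
      rw [Complex.I_sq]
      ring
    rw [hre]
    refine (norm_sub_le _ _).trans ?_
    rw [norm_mul, Complex.norm_I, mul_one, Complex.norm_real, Complex.norm_real]
    apply add_le_add
    · rw [Real.norm_of_nonneg]
      rw [sub_nonneg, div_le_one hc, hcdef]
      unfold cT
      nlinarith [sq_nonneg y]
    · rw [Real.norm_eq_abs, abs_div, abs_of_pos hc]
  have h5 : ‖((c : ℂ)⁻¹)‖ = 1 / c := by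
    rw [norm_inv, Complex.norm_real, Real.norm_of_nonneg hc.le, one_div]
  rw [h5]
  have hτ1 : τ ≤ 1 / (16 * (T + 1) ^ 2) := hτ.le
  -- exponential bound
  have he : Real.exp (2 * τ) ≤ 1 + 4 * τ := by
    have hτ2 : τ ≤ 1 / 64 := by linarith [τT_le hT]
    have h6 := Real.add_one_le_exp (-(2 * τ))
    have h7 : Real.exp (2 * τ) = (Real.exp (-(2 * τ)))⁻¹ := by rw [← Real.exp_neg]; simp
    rw [h7, inv_le_comm₀ (Real.exp_pos _) (by positivity)]
    refine le_trans ?_ h6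
    rw [inv_eq_one_div, div_le_iff₀ (by positivity)]
    nlinarith
  have he1 : Real.exp (2 * τ) ≤ 2 := by linarith [τT_le hT]
  have hτT : (T + 1) ^ 2 * τ ≤ 1 / 16 := by
    calc (T + 1) ^ 2 * τ ≤ (T + 1) ^ 2 * (1 / (16 * (T + 1) ^ 2)) :=
          mul_le_mul_of_nonneg_left hτ1 (by positivity)
      _ = 1 / 16 := by field_simp
  have h8 : ‖t‖ ^ 2 / 2 * Real.exp (2 * τ) ≤ x ^ 2 / 2 + 1 / 8 + 1 / 256 := by
    rw [hxy]
    have e1 : x ^ 2 / 2 * Real.exp (2 * τ) ≤ x ^ 2 / 2 + 1 / 8 := by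
      have : x ^ 2 / 2 * Real.exp (2 * τ) ≤ x ^ 2 / 2 * (1 + 4 * τ) :=
        mul_le_mul_of_nonneg_left he (by positivity)
      have h9 : x ^ 2 * τ ≤ (T + 1) ^ 2 * τ := mul_le_mul_of_nonneg_right hx2 h0
      nlinarith
    have e2 : y ^ 2 / 2 * Real.exp (2 * τ) ≤ 1 / 256 := by
      have : y ^ 2 / 2 * Real.exp (2 * τ) ≤ y ^ 2 / 2 * 2 :=
        mul_le_mul_of_nonneg_left he1 (by positivity)
      linarith
    nlinarith
  calc ‖1 - (c : ℂ)⁻¹ * (1 + t ^ 2 / 2)‖ + 1 / c * tn τ t _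
      ≤ ((1 - (1 + (x ^ 2 - y ^ 2) / 2) / c) + |x * y| / c) +
        1 / c * (x ^ 2 / 2 + 1 / 8 + 1 / 256) :=
        add_le_add h4 (mul_le_mul_of_nonneg_left (h2.trans h8) (by positivity))
    _ = 1 - (1 - y ^ 2 / 2 - |x * y| - 1 / 8 - 1 / 256) / c := by
        field_simp
        ring
    _ ≤ 1 - (1 / 2) / c := by
        apply sub_le_sub_left
        apply div_le_div_of_nonneg_right _ hc.le
        nlinarith
    _ = 1 - 1 / (2 * c) := by field_simp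

theorem tn_pow_le {τ : ℝ} (hτ : 0 ≤ τ) (t : ℂ) (f : BB) (l : ℕ) :
    tn τ t (f ^ l) ≤ (tn τ t f) ^ l := by
  induction l with
  | zero =>
    rw [pow_zero, pow_zero, AddMonoidAlgebra.one_def, tn_single]
    simp [wt]
  | succ l ih =>
    rw [pow_succ, pow_succ]
    refine (tn_mul_le hτ t _ _).trans ?_
    exact mul_le_mul_of_nonneg_right ih (tn_nonneg _ _ _)

/-- the ratio -/
noncomputable def lamT (T : ℝ) : ℝ := 1 - 1 / (2 * cT T)

theorem cT_pos {T : ℝ} (hT : 1 ≤ T) : 1 < cT T := by unfold cT; nlinarith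

theorem lamT_nonneg {T : ℝ} (hT : 1 ≤ T) : 0 ≤ lamT T := by
  unfold lamT
  have := cT_pos hT
  rw [sub_nonneg, div_le_one (by linarith)]
  linarith

theorem lamT_lt {T : ℝ} (hT : 1 ≤ T) : lamT T < 1 := by
  unfold lamT
  have := cT_pos hT
  have : 0 < 1 / (2 * cT T) := by positivity
  linarith

theorem tn_one_sub_SS_sg {T : ℝ} (hT : 1 ≤ T) {τ : ℝ} (h0 : 0 ≤ τ) (hτ : τ < τT T) {t : ℂ}
    (ht : t ∈ reg T) (N : ℕ) : tn τ t (1 - SS * sg T N) ≤ lamT T ^ N := by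
  rw [SS_mul_sg hT, sub_sub_cancel]
  refine (tn_pow_le h0 t _ N).trans ?_
  exact pow_le_pow_left₀ (tn_nonneg _ _ _) (tn_one_sub_SS hT h0 hτ ht) N

theorem tn_sg {T : ℝ} (hT : 1 ≤ T) {τ : ℝ} (h0 : 0 ≤ τ) (hτ : τ < τT T) {t : ℂ}
    (ht : t ∈ reg T) (N : ℕ) : tn τ t (sg T N) ≤ 2 := by
  have hc := cT_pos hT
  have hl0 := lamT_nonneg hT
  have hl1 := lamT_lt hT
  unfold sg
  rw [tn_smul, norm_inv, Complex.norm_real, Real.norm_of_nonneg (by linarith)]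
  have h1 : tn τ t (∑ l ∈ Finset.range N, (1 - ((cT T : ℂ)⁻¹) • SS) ^ l) ≤
      ∑ l ∈ Finset.range N, lamT T ^ l := by
    refine (gn_sum_le (fun a => (wt_pos τ a).le) t _ _).trans (Finset.sum_le_sum fun l _ => ?_)
    refine (tn_pow_le h0 t _ l).trans ?_
    exact pow_le_pow_left₀ (tn_nonneg _ _ _) (tn_one_sub_SS hT h0 hτ ht) l
  have h2 : ∑ l ∈ Finset.range N, lamT T ^ l ≤ 2 * cT T := by
    have := geom_sum_eq hl1.ne N
    rw [this, div_le_iff_of_neg (by linarith)]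
    have h3 : 0 ≤ lamT T ^ N := by positivity
    have h4 : 2 * cT T * (lamT T - 1) = -1 := by
      unfold lamT
      field_simp
      ring
    rw [h4]
    linarith
  calc (cT T)⁻¹ * _ ≤ (cT T)⁻¹ * (2 * cT T) :=
        mul_le_mul_of_nonneg_left (h1.trans h2) (by positivity)
    _ = 2 := by field_simp

theorem Bd_sg {T : ℝ} (hT : 1 ≤ T) (N p : ℕ) : Bd T 0 0 p 2 (sg T N) := by
  have := Bd.of_OZ hT (OZ_sg T N) (α := 0) (A := 2) (by norm_num) (fun τ t h1 h2 h3 => by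
    simpa using tn_sg hT h1 h2 h3 N) p
  exact this

end Pool.Agent.EulerInflation
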