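import Pool.Agent.Work.MP_8b4a1b_an.Bd.B01

/-!
Classes of elements of the algebra with geometric bounds, and the calculus of these classes.
-/

open Polynomial

namespace Pool.Agent.EulerInflation

/-- half-width of the complex time region -/
noncomputable def bT (T : ℝ) : ℝ := 1 / (8 * (T + 1))
/-- width of the strip -/
noncomputable def τT (T : ℝ) : ℝ := 1 / (16 * (T + 1) ^ 2)
/-- geometric ratio -/
noncomputable def ρT (T : ℝ) : ℝ := (τT T) ^ 2 / (16 * (T + 2))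
/-- bound for `S` -/
noncomputable def cT (T : ℝ) : ℝ := (T + 1) ^ 2 + 1

/-- complex time region -/
def reg (T : ℝ) : Set ℂ := {t | |t.im| ≤ bT T ∧ ‖t‖ ≤ T + 1}

theorem bT_pos {T : ℝ} (hT : 1 ≤ T) : 0 < bT T := by unfold bT; positivity
theorem τT_pos {T : ℝ} (hT : 1 ≤ T) : 0 < τT T := by unfold τT; positivity
theorem τT_le {T : ℝ} (hT : 1 ≤ T) : τT T ≤ 1 / 64 := by
  unfold τT
  apply one_div_le_one_div_of_le (by norm_num)
  nlinarith
theorem ρT_pos {T : ℝ} (hT : 1 ≤ T) : 0 < ρT T := by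
  have := τT_pos hT
  unfold ρT; positivity
theorem ρT_le {T : ℝ} (hT : 1 ≤ T) : ρT T ≤ 1 := by
  unfold ρT
  rw [div_le_one (by positivity)]
  have h1 := τT_le hT
  have h2 := τT_pos hT
  nlinarith

theorem reg_smul {T : ℝ} {t : ℂ} (ht : t ∈ reg T) {σ : ℝ} (h0 : 0 ≤ σ) (h1 : σ ≤ 1) :
    (σ : ℂ) * t ∈ reg T := by
  obtain ⟨ha, hb⟩ := ht
  constructor
  · have : ((σ : ℂ) * t).im = σ * t.im := by simp
    rw [this, abs_mul, abs_of_nonneg h0]
    calc σ * |t.im| ≤ 1 * |t.im| := mul_le_mul_of_nonneg_right h1 (abs_nonneg _)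
      _ ≤ bT T := by rw [one_mul]; exact ha
  · rw [norm_mul, Complex.norm_real, Real.norm_of_nonneg h0]
    calc σ * ‖t‖ ≤ 1 * ‖t‖ := mul_le_mul_of_nonneg_right h1 (norm_nonneg _)
      _ ≤ T + 1 := by rw [one_mul]; exact hb

theorem zero_mem_reg {T : ℝ} (hT : 1 ≤ T) : (0 : ℂ) ∈ reg T := by
  constructor
  · simp [(bT_pos hT).le]
  · simp; linarith

/-- the weight -/
noncomputable def W (T : ℝ) (α β : ℤ) (p : ℕ) (n : ℕ) (τ : ℝ) (t : ℂ) : ℝ :=
  (1 + ‖t‖) ^ ((n : ℤ) + α) * (τT T - τ) ^ (β - 2 * (n : ℤ)) * (ρT T) ^ n / ((n : ℝ) + 1) ^ p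

theorem W_pos {T : ℝ} (hT : 1 ≤ T) (α β : ℤ) (p n : ℕ) {τ : ℝ} (hτ : τ < τT T) (t : ℂ) :
    0 < W T α β p n τ t := by
  unfold W
  have h1 : 0 < τT T - τ := by linarith
  have h2 := ρT_pos hT
  have h3 := norm_nonneg t
  positivity

/-- the class of elements -/
def Bd (T : ℝ) (α β : ℤ) (p : ℕ) (C : ℝ) (f : BB) : Prop :=
  ∀ (n : ℕ) (τ : ℝ) (t : ℂ), 0 ≤ τ → τ < τT T → t ∈ reg T → nn n τ t f ≤ C * W T α β p n τ t

theorem Bd.nonneg {T : ℝ} (hT : 1 ≤ T) {α β : ℤ} {p : ℕ} {C : ℝ} {f : BB} (h : Bd T α β p C f) :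
    0 ≤ C := by
  have h1 := (nn_nonneg 0 0 0 f).trans (h 0 0 0 le_rfl (τT_pos hT) (zero_mem_reg hT))
  have h2 := W_pos hT α β p 0 (τT_pos hT) 0
  by_contra h3
  push Not at h3
  nlinarith

theorem Bd.add {T : ℝ} {α β : ℤ} {p : ℕ} {C D : ℝ} {f g : BB} (hf : Bd T α β p C f)
    (hg : Bd T α β p D g) : Bd T α β p (C + D) (f + g) := by
  intro n τ t h1 h2 h3
  have := nn_add_le n τ t f g
  have h4 := hf n τ t h1 h2 h3
  have h5 := hg n τ t h1 h2 h3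
  rw [add_mul]
  linarith

theorem Bd.neg {T : ℝ} {α β : ℤ} {p : ℕ} {C : ℝ} {f : BB} (hf : Bd T α β p C f) :
    Bd T α β p C (-f) := by
  intro n τ t h1 h2 h3
  rw [nn_neg]
  exact hf n τ t h1 h2 h3

theorem Bd.sub {T : ℝ} {α β : ℤ} {p : ℕ} {C D : ℝ} {f g : BB} (hf : Bd T α β p C f)
    (hg : Bd T α β p D g) : Bd T α β p (C + D) (f - g) := by
  rw [sub_eq_add_neg]
  exact hf.add hg.neg

theorem Bd.zero {T : ℝ} (hT : 1 ≤ T) (α β : ℤ) (p : ℕ) {C : ℝ} (hC : 0 ≤ C) :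
    Bd T α β p C 0 := by
  intro n τ t _ h2 _
  have : nn n τ t 0 = 0 := by simp [nn]
  rw [this]
  exact mul_nonneg hC (W_pos hT _ _ _ _ h2 _).le

theorem Bd.smul {T : ℝ} {α β : ℤ} {p : ℕ} {C : ℝ} {f : BB} (hf : Bd T α β p C f)
    (x : ℂ) : Bd T α β p (‖x‖ * C) (x • f) := by
  intro n τ t h1 h2 h3
  rw [nn_smul, mul_assoc]
  exact mul_le_mul_of_nonneg_left (hf n τ t h1 h2 h3) (norm_nonneg _)

theorem W_mono {T : ℝ} (hT : 1 ≤ T) {α α' β β' : ℤ} {p p' : ℕ} (hα : α ≤ α') (hβ : β' ≤ β)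
    (hp : p' ≤ p) (n : ℕ) {τ : ℝ} (h0 : 0 ≤ τ) (hτ : τ < τT T) (t : ℂ) :
    W T α β p n τ t ≤ W T α' β' p' n τ t := by
  unfold W
  have h1 : 0 < τT T - τ := by linarith
  have h1' : τT T - τ ≤ 1 := by linarith [τT_le hT]
  have h2 := ρT_pos hT
  have h3 := norm_nonneg t
  have e1 : (1 + ‖t‖) ^ ((n : ℤ) + α) ≤ (1 + ‖t‖) ^ ((n : ℤ) + α') :=
    zpow_le_zpow_right₀ (by linarith) (by omega)
  have e2 : (τT T - τ) ^ (β - 2 * (n : ℤ)) ≤ (τT T - τ) ^ (β' - 2 * (n : ℤ)) :=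
    zpow_le_zpow_right_of_le_one₀ h1 h1' (by omega)
  have e3 : ((n : ℝ) + 1) ^ p' ≤ ((n : ℝ) + 1) ^ p :=
    pow_le_pow_right₀ (by linarith [Nat.cast_nonneg (α := ℝ) n]) hp
  have e4 : (1 + ‖t‖) ^ ((n : ℤ) + α) * (τT T - τ) ^ (β - 2 * (n : ℤ)) * (ρT T) ^ n ≤
      (1 + ‖t‖) ^ ((n : ℤ) + α') * (τT T - τ) ^ (β' - 2 * (n : ℤ)) * (ρT T) ^ n := by
    apply mul_le_mul_of_nonneg_right _ (by positivity)
    exact mul_le_mul e1 e2 (by positivity) (by positivity)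
  exact div_le_div₀ (by positivity) e4 (by positivity) e3

theorem Bd.mono {T : ℝ} (hT : 1 ≤ T) {α β : ℤ} {p : ℕ} {C : ℝ} {f : BB} (h : Bd T α β p C f)
    {α' β' : ℤ} {p' : ℕ} {C' : ℝ} (hα : α ≤ α') (hβ : β' ≤ β) (hp : p' ≤ p) (hC : C ≤ C') :
    Bd T α' β' p' C' f := by
  intro n τ t h1 h2 h3
  refine (h n τ t h1 h2 h3).trans ?_
  exact mul_le_mul hC (W_mono hT hα hβ hp n h1 h2 t) (W_pos hT _ _ _ _ h2 _).le
    ((h.nonneg hT).trans hC)

/-- lowering the exponent of time -/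
theorem Bd.alpha {T : ℝ} (hT : 1 ≤ T) {α : ℕ} {β : ℤ} {p : ℕ} {C : ℝ} {f : BB}
    (h : Bd T α β p C f) : Bd T 0 β p ((T + 2) ^ α * C) f := by
  intro n τ t h1 h2 h3
  refine (h n τ t h1 h2 h3).trans ?_
  have hC := h.nonneg hT
  have e1 : (1 + ‖t‖) ^ ((n : ℤ) + (α : ℤ)) ≤ (T + 2) ^ α * (1 + ‖t‖) ^ ((n : ℤ) + 0) := by
    have h4 := norm_nonneg t
    rw [add_zero, zpow_add₀ (by linarith), mul_comm, zpow_natCast]
    apply mul_le_mul_of_nonneg_right _ (by positivity)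
    apply pow_le_pow_left₀ (by linarith)
    linarith [h3.2]
  have h5 : 0 < τT T - τ := by linarith
  have h2' := ρT_pos hT
  have h3' := norm_nonneg t
  unfold W
  calc C * ((1 + ‖t‖) ^ ((n : ℤ) + (α : ℤ)) * (τT T - τ) ^ (β - 2 * (n : ℤ)) * (ρT T) ^ n /
        ((n : ℝ) + 1) ^ p)
      = (1 + ‖t‖) ^ ((n : ℤ) + (α : ℤ)) * (C * ((τT T - τ) ^ (β - 2 * (n : ℤ)) * (ρT T) ^ n /
        ((n : ℝ) + 1) ^ p)) := by ring
    _ ≤ ((T + 2) ^ α * (1 + ‖t‖) ^ ((n : ℤ) + 0)) * (C * ((τT T - τ) ^ (β - 2 * (n : ℤ)) *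
        (ρT T) ^ n / ((n : ℝ) + 1) ^ p)) := by
        apply mul_le_mul_of_nonneg_right e1 (by positivity)
    _ = _ := by ring

theorem Bd.iz {T : ℝ} {α β : ℤ} {p : ℕ} {C : ℝ} {f : BB} (hf : Bd T α β p C f) :
    Bd T α β p C (Iz f) := fun n τ t h1 h2 h3 => (nn_Iz_le n τ t f).trans (hf n τ t h1 h2 h3)

theorem Bd.mn {T : ℝ} {α β : ℤ} {p : ℕ} {C : ℝ} {f : BB} (hf : Bd T α β p C f) :
    Bd T α β p C (Mn f) := fun n τ t h1 h2 h3 => (nn_Mn_le n τ t f).trans (hf n τ t h1 h2 h3)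

theorem Bd.subMn {T : ℝ} {α β : ℤ} {p : ℕ} {C : ℝ} {f : BB} (hf : Bd T α β p C f) :
    Bd T α β p C (f - Mn f) :=
  fun n τ t h1 h2 h3 => (nn_sub_Mn_le n τ t f).trans (hf n τ t h1 h2 h3)

theorem Bd.trunc {T : ℝ} {α β : ℤ} {p : ℕ} {C : ℝ} {f : BB} (hf : Bd T α β p C f) (K : ℕ) :
    Bd T α β p C (tr K f) := by
  intro n τ t h1 h2 h3
  rw [nn_tr]
  split_ifs
  · exact hf n τ t h1 h2 h3
  · exact (nn_nonneg n τ t f).trans (hf n τ t h1 h2 h3)

/-- gaining a power of the order from a small factor on truncated elements -/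
theorem Bd.trh {T : ℝ} (hT : 1 ≤ T) {α β : ℤ} {p : ℕ} {C : ℝ} {f : BB} (hf : Bd T α β p C f)
    {K : ℕ} {h κ : ℝ} (h0 : 0 ≤ h) (hK : h * (K + 1) ≤ κ) :
    Bd T α β (p + 1) (κ * C) (tr K ((h : ℂ) • f)) := by
  intro n τ t h1 h2 h3
  have hC := hf.nonneg hT
  have hκ : 0 ≤ κ := le_trans (by positivity) hK
  rw [nn_tr]
  split_ifs with hn
  · rw [nn_smul, Complex.norm_real, Real.norm_of_nonneg h0]
    have h4 := hf n τ t h1 h2 h3
    have h5 : 0 < τT T - τ := by linarith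
    have h2' := ρT_pos hT
    have h3' := norm_nonneg t
    have h6 : h ≤ κ / ((n : ℝ) + 1) := by
      rw [le_div_iff₀ (by positivity)]
      refine le_trans ?_ hK
      apply mul_le_mul_of_nonneg_left _ h0
      have : (n : ℝ) ≤ K := by exact_mod_cast hn
      linarith
    calc h * nn n τ t f ≤ (κ / ((n : ℝ) + 1)) * (C * W T α β p n τ t) :=
          mul_le_mul h6 h4 (nn_nonneg _ _ _ _) (by positivity)
      _ = κ * C * W T α β (p + 1) n τ t := by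
          unfold W
          rw [pow_succ]
          field_simp
  · exact mul_nonneg (mul_nonneg hκ hC) (W_pos hT _ _ _ _ h2 _).le

theorem Bd.it {T : ℝ} (hT : 1 ≤ T) {α : ℕ} {β : ℤ} {p : ℕ} {C : ℝ} {f : BB}
    (hf : Bd T α β p C f) : Bd T (α + 1) β (p + 1) C (It f) := by
  intro n τ t h1 h2 h3
  have hC := hf.nonneg hT
  have h5 : 0 < τT T - τ := by linarith
  have h2' := ρT_pos hT
  have h3' := norm_nonneg t
  have key := gn_It_le (nnw_nonneg n τ) (t := t) (f := f)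
    (A := C * ((τT T - τ) ^ (β - 2 * (n : ℤ)) * (ρT T) ^ n / ((n : ℝ) + 1) ^ p)) (k := n + α) (by
      intro σ hσ0 hσ1
      have h6 := hf n τ ((σ : ℂ) * t) h1 h2 (reg_smul h3 hσ0 hσ1)
      refine h6.trans (le_of_eq ?_)
      unfold W
      rw [norm_mul, Complex.norm_real, Real.norm_of_nonneg hσ0]
      have : (1 + σ * ‖t‖) ^ ((n : ℤ) + (α : ℤ)) = (1 + σ * ‖t‖) ^ (n + α) := by
        rw [← zpow_natCast]; push_cast; rfl
      rw [this]
      ring)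
  refine key.trans ?_
  push_cast
  have h7 : (1 + ‖t‖) ^ (n + α + 1) = (1 + ‖t‖) ^ ((n : ℤ) + ((α : ℤ) + 1)) := by
    rw [← zpow_natCast]; push_cast; ring_nf
  rw [h7]
  unfold W
  have h8 : C * ((τT T - τ) ^ (β - 2 * (n : ℤ)) * (ρT T) ^ n / ((n : ℝ) + 1) ^ p) *
      (1 + ‖t‖) ^ ((n : ℤ) + ((α : ℤ) + 1)) / ((n : ℝ) + α + 1) ≤
      C * ((τT T - τ) ^ (β - 2 * (n : ℤ)) * (ρT T) ^ n / ((n : ℝ) + 1) ^ p) *
      (1 + ‖t‖) ^ ((n : ℤ) + ((α : ℤ) + 1)) / ((n : ℝ) + 1) := by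
    apply div_le_div_of_nonneg_left (by positivity) (by positivity)
    have : (0 : ℝ) ≤ α := Nat.cast_nonneg α
    linarith
  refine h8.trans (le_of_eq ?_)
  rw [pow_succ]
  field_simp

theorem Bd.eb {T : ℝ} (hT : 1 ≤ T) {α β : ℤ} {p : ℕ} {C : ℝ} {f : BB} (hf : Bd T α β p C f) :
    Bd T (α - 1) (β + 2) p (2 ^ p / ρT T * C) (eb * f) := by
  intro n τ t h1 h2 h3
  have hC := hf.nonneg hT
  have h5 : 0 < τT T - τ := by linarith
  have h2' := ρT_pos hT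
  have h3' := norm_nonneg t
  rcases n with _ | n
  · rw [nn_eb_mul_zero τ h1]
    exact mul_nonneg (by positivity) (W_pos hT _ _ _ _ h2 _).le
  · refine (nn_eb_mul_succ n τ h1 t f).trans ?_
    refine (hf n τ t h1 h2 h3).trans ?_
    unfold W
    push_cast
    have e1 : ((n : ℤ) + 1 + (α - 1)) = (n : ℤ) + α := by ring
    have e2 : (β + 2 - 2 * ((n : ℤ) + 1)) = β - 2 * (n : ℤ) := by ring
    rw [e1, e2]
    have e3 : 1 / ((n : ℝ) + 1) ^ p ≤ 2 ^ p / ((n : ℝ) + 1 + 1) ^ p := by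
      rw [div_le_div_iff₀ (by positivity) (by positivity), one_mul, ← mul_pow]
      apply pow_le_pow_left₀ (by positivity)
      have : (0 : ℝ) ≤ n := Nat.cast_nonneg n
      linarith
    calc C * ((1 + ‖t‖) ^ ((n : ℤ) + α) * (τT T - τ) ^ (β - 2 * (n : ℤ)) * (ρT T) ^ n /
          ((n : ℝ) + 1) ^ p) = (C * ((1 + ‖t‖) ^ ((n : ℤ) + α) * (τT T - τ) ^ (β - 2 * (n : ℤ)) *
          (ρT T) ^ n)) * (1 / ((n : ℝ) + 1) ^ p) := by ring
      _ ≤ (C * ((1 + ‖t‖) ^ ((n : ℤ) + α) * (τT T - τ) ^ (β - 2 * (n : ℤ)) *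
          (ρT T) ^ n)) * (2 ^ p / ((n : ℝ) + 1 + 1) ^ p) := by
          apply mul_le_mul_of_nonneg_left e3 (by positivity)
      _ = _ := by
          rw [pow_succ (ρT T) n]
          field_simp

theorem exp_bound (n : ℕ) : (((n : ℝ) + 2) / ((n : ℝ) + 1)) ^ (2 * (n : ℤ) + 2) ≤ 8 := by
  have h1 : ((n : ℝ) + 2) / ((n : ℝ) + 1) ≤ Real.exp (1 / ((n : ℝ) + 1)) := by
    have := Real.add_one_le_exp (1 / ((n : ℝ) + 1))
    have h2 : ((n : ℝ) + 2) / ((n : ℝ) + 1) = 1 / ((n : ℝ) + 1) + 1 := by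
      have : ((n : ℝ) + 1) ≠ 0 := by positivity
      field_simp
      ring
    rw [h2]; exact this
  have h3 : (((n : ℝ) + 2) / ((n : ℝ) + 1)) ^ (2 * (n : ℤ) + 2) =
      (((n : ℝ) + 2) / ((n : ℝ) + 1)) ^ (2 * n + 2) := by
    rw [← zpow_natCast]; push_cast; rfl
  rw [h3]
  calc (((n : ℝ) + 2) / ((n : ℝ) + 1)) ^ (2 * n + 2) ≤
        (Real.exp (1 / ((n : ℝ) + 1))) ^ (2 * n + 2) := pow_le_pow_left₀ (by positivity) h1 _
    _ = Real.exp 2 := by
        rw [← Real.exp_nat_mul]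
        congr 1
        push_cast
        field_simp
    _ ≤ 8 := by
        have h4 : Real.exp 2 = Real.exp 1 * Real.exp 1 := by rw [← Real.exp_add]; norm_num
        have h5 := Real.exp_one_lt_d9
        have h6 := Real.exp_pos 1
        rw [h4]
        nlinarith

theorem Bd.cauchy {T : ℝ} (hT : 1 ≤ T) {α β : ℤ} {p : ℕ} {C : ℝ} {f : BB}
    (hf : Bd T α β (p + 1) C f) (hβ : -2 ≤ β) {D : BB → BB}
    (hD : ∀ (n : ℕ) (τ δ : ℝ) (_ : 0 < δ) (t : ℂ), nn n τ t (D f) ≤ δ⁻¹ * nn n (τ + δ) t f) :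
    Bd T α (β - 1) p (16 * C) (D f) := by
  intro n τ t h1 h2 h3
  have hC := hf.nonneg hT
  have h5 : 0 < τT T - τ := by linarith
  have h2' := ρT_pos hT
  have h3' := norm_nonneg t
  set r := τT T - τ with hr
  have hn2 : (0 : ℝ) < (n : ℝ) + 2 := by positivity
  have hn1 : (0 : ℝ) < (n : ℝ) + 1 := by positivity
  have hδ : 0 < r / ((n : ℝ) + 2) := by positivity
  have h6 : r / ((n : ℝ) + 2) < r := by
    rw [div_lt_iff₀ hn2]
    nlinarith [Nat.cast_nonneg (α := ℝ) n]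
  refine (hD n τ _ hδ t).trans ?_
  have h7 := hf n (τ + r / ((n : ℝ) + 2)) t (by positivity) (by linarith) h3
  have h8 : τT T - (τ + r / ((n : ℝ) + 2)) = r * (((n : ℝ) + 2) / ((n : ℝ) + 1))⁻¹ := by
    have : τT T = r + τ := by rw [hr]; ring
    rw [this]
    field_simp
    ring
  set q := ((n : ℝ) + 2) / ((n : ℝ) + 1) with hq
  have hq0 : 0 < q := by positivity
  have hq1 : 1 ≤ q := by
    rw [hq, one_le_div hn1]; linarith
  have h9 : (q⁻¹) ^ (β - 2 * (n : ℤ)) ≤ 8 := by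
    rw [inv_zpow', neg_sub]
    refine le_trans ?_ (exp_bound n)
    exact zpow_le_zpow_right₀ hq1 (by omega)
  unfold W at h7
  rw [h8, mul_zpow] at h7
  calc (r / ((n : ℝ) + 2))⁻¹ * nn n (τ + r / ((n : ℝ) + 2)) t f
      ≤ (r / ((n : ℝ) + 2))⁻¹ * (C * ((1 + ‖t‖) ^ ((n : ℤ) + α) * (r ^ (β - 2 * (n : ℤ)) *
        q⁻¹ ^ (β - 2 * (n : ℤ))) * ρT T ^ n / ((n : ℝ) + 1) ^ (p + 1))) :=
        mul_le_mul_of_nonneg_left h7 (by positivity)
    _ = ((q⁻¹) ^ (β - 2 * (n : ℤ)) * q) * (C * ((1 + ‖t‖) ^ ((n : ℤ) + α) *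
        (r ^ (β - 2 * (n : ℤ)) * r⁻¹) * ρT T ^ n / ((n : ℝ) + 1) ^ p)) := by
        rw [hq, pow_succ]
        field_simp
    _ ≤ (8 * 2) * (C * ((1 + ‖t‖) ^ ((n : ℤ) + α) *
        (r ^ (β - 2 * (n : ℤ)) * r⁻¹) * ρT T ^ n / ((n : ℝ) + 1) ^ p)) := by
        apply mul_le_mul_of_nonneg_right _ (by positivity)
        apply mul_le_mul h9 _ hq0.le (by norm_num)
        rw [hq, div_le_iff₀ hn1]
        linarith [Nat.cast_nonneg (α := ℝ) n]
    _ = 16 * C * W T α (β - 1) p n τ t := by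
        unfold W
        rw [← hr]
        have : r ^ (β - 2 * (n : ℤ)) * r⁻¹ = r ^ (β - 1 - 2 * (n : ℤ)) := by
          rw [← zpow_neg_one, ← zpow_add₀ h5.ne']
          congr 1
          ring
        rw [this]
        ring

theorem Bd.dy {T : ℝ} (hT : 1 ≤ T) {α β : ℤ} {p : ℕ} {C : ℝ} {f : BB}
    (hf : Bd T α β (p + 1) C f) (hβ : -2 ≤ β) : Bd T α (β - 1) p (16 * C) (Dy f) :=
  hf.cauchy hT hβ (D := fun f => Dy f) (fun n _ _ hδ t => nn_Dy_le n hδ t f)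

theorem Bd.dz {T : ℝ} (hT : 1 ≤ T) {α β : ℤ} {p : ℕ} {C : ℝ} {f : BB}
    (hf : Bd T α β (p + 1) C f) (hβ : -2 ≤ β) : Bd T α (β - 1) p (16 * C) (Dz f) :=
  hf.cauchy hT hβ (D := fun f => Dz f) (fun n _ _ hδ t => nn_Dz_le n hδ t f)

theorem sum_inv_sq_le (n : ℕ) : ∑ i ∈ Finset.range (n + 1), 1 / ((i : ℝ) + 1) ^ 2 ≤
    2 - 1 / ((n : ℝ) + 1) := by
  induction n with
  | zero => norm_num
  | succ n ih =>
    rw [Finset.sum_range_succ]
    push_cast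
    have h1 : (0 : ℝ) < (n : ℝ) + 1 := by positivity
    have h2 : 1 / ((n : ℝ) + 1 + 1) ^ 2 ≤ 1 / ((n : ℝ) + 1) - 1 / ((n : ℝ) + 1 + 1) := by
      rw [div_sub_div _ _ (by positivity) (by positivity), div_le_div_iff₀ (by positivity)
        (by positivity)]
      nlinarith
    linarith

theorem conv_le {p q : ℕ} (hq1 : 1 ≤ q) (hq3 : q ≤ 3) (hpq : q ≤ p) (h1 : q = 1 → 3 ≤ p) (n : ℕ) :
    ∑ ij ∈ Finset.HasAntidiagonal.antidiagonal n,
      1 / (((ij.1 : ℝ) + 1) ^ p * ((ij.2 : ℝ) + 1) ^ q) ≤ 16 / ((n : ℝ) + 1) ^ q := by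
  have hS : ∑ ij ∈ Finset.HasAntidiagonal.antidiagonal n, 1 / ((ij.1 : ℝ) + 1) ^ 2 ≤ 2 := by
    rw [Finset.Nat.sum_antidiagonal_eq_sum_range_succ_mk]
    refine (sum_inv_sq_le n).trans ?_
    have : 0 < 1 / ((n : ℝ) + 1) := by positivity
    linarith
  have hS' : ∑ ij ∈ Finset.HasAntidiagonal.antidiagonal n, 1 / ((ij.2 : ℝ) + 1) ^ 2 ≤ 2 := by
    have := Finset.Nat.sum_antidiagonal_swap (n := n) (f := fun ij : ℕ × ℕ =>
      1 / ((ij.1 : ℝ) + 1) ^ 2)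
    simp only [Prod.fst_swap] at this
    rw [this]
    exact hS
  -- it suffices to bound termwise
  have key : ∀ ij ∈ Finset.HasAntidiagonal.antidiagonal n,
      1 / (((ij.1 : ℝ) + 1) ^ p * ((ij.2 : ℝ) + 1) ^ q) ≤
      (4 / ((n : ℝ) + 1) ^ q) * (1 / ((ij.1 : ℝ) + 1) ^ 2 + 1 / ((ij.2 : ℝ) + 1) ^ 2) := by
    rintro ⟨i, j⟩ hij
    rw [Finset.HasAntidiagonal.mem_antidiagonal] at hij
    simp only at hij ⊢
    have hn : (n : ℝ) = i + j := by exact_mod_cast hij.symm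
    set x := (i : ℝ) + 1 with hx
    set y := (j : ℝ) + 1 with hy
    have hx1 : 1 ≤ x := by rw [hx]; linarith [Nat.cast_nonneg (α := ℝ) i]
    have hy1 : 1 ≤ y := by rw [hy]; linarith [Nat.cast_nonneg (α := ℝ) j]
    have hnxy : (n : ℝ) + 1 ≤ x + y := by rw [hn, hx, hy]; linarith
    have hn0 : (0 : ℝ) < (n : ℝ) + 1 := by positivity
    have hx0 : 0 < x := by linarith
    have hy0 : 0 < y := by linarith
    rcases Nat.lt_or_ge q 2 with hq | hq
    · have hq' : q = 1 := by omega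
      have hp := h1 hq'
      subst hq'
      have e1 : 1 / (x ^ p * y ^ 1) ≤ 1 / (x ^ 3 * y) := by
        apply one_div_le_one_div_of_le (by positivity)
        rw [pow_one]
        apply mul_le_mul_of_nonneg_right _ hy0.le
        exact pow_le_pow_right₀ hx1 hp
      refine e1.trans ?_
      rw [div_mul_eq_mul_div, div_le_div_iff₀ (by positivity) (by positivity), pow_one, one_mul]
      have e2 : (n : ℝ) + 1 ≤ 2 * x * y := by nlinarith
      have e3 : 4 * (1 / x ^ 2 + 1 / y ^ 2) * (x ^ 3 * y) = 4 * x * y + 4 * x ^ 3 / y := by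
        field_simp
      rw [e3]
      have : 0 ≤ 4 * x ^ 3 / y := by positivity
      nlinarith
    · have e1 : 1 / (x ^ p * y ^ q) ≤ 1 / (x ^ q * y ^ q) := by
        apply one_div_le_one_div_of_le (by positivity)
        apply mul_le_mul_of_nonneg_right _ (by positivity)
        exact pow_le_pow_right₀ hx1 hpq
      refine e1.trans ?_
      have e2 : ((n : ℝ) + 1) ^ q ≤ 4 * (x ^ q + y ^ q) := by
        calc ((n : ℝ) + 1) ^ q ≤ (x + y) ^ q := pow_le_pow_left₀ hn0.le hnxy q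
          _ ≤ 4 * (x ^ q + y ^ q) := by
              have hq' : q = 2 ∨ q = 3 := by omega
              rcases hq' with rfl | rfl
              · nlinarith [sq_nonneg (x - y)]
              · nlinarith [mul_nonneg (add_pos hx0 hy0).le (sq_nonneg (x - y))]
      have e3 : 1 / (x ^ q * y ^ q) ≤ (4 / ((n : ℝ) + 1) ^ q) * (1 / x ^ q + 1 / y ^ q) := by
        rw [div_mul_eq_mul_div, div_le_div_iff₀ (by positivity) (by positivity), one_mul]
        have : 4 * (1 / x ^ q + 1 / y ^ q) * (x ^ q * y ^ q) = 4 * (x ^ q + y ^ q) := by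
          field_simp
          ring
        rw [this]
        exact e2
      refine e3.trans ?_
      apply mul_le_mul_of_nonneg_left _ (by positivity)
      apply add_le_add
      · apply one_div_le_one_div_of_le (by positivity)
        exact pow_le_pow_right₀ hx1 hq
      · apply one_div_le_one_div_of_le (by positivity)
        exact pow_le_pow_right₀ hy1 hq
  refine (Finset.sum_le_sum key).trans ?_
  rw [← Finset.mul_sum, Finset.sum_add_distrib]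
  calc 4 / ((n : ℝ) + 1) ^ q * (_ + _) ≤ 4 / ((n : ℝ) + 1) ^ q * (2 + 2) := by
        apply mul_le_mul_of_nonneg_left _ (by positivity)
        exact add_le_add hS hS'
    _ = 16 / ((n : ℝ) + 1) ^ q := by ring

theorem Bd.mul {T : ℝ} (hT : 1 ≤ T) {α₁ β₁ α₂ β₂ : ℤ} {p q : ℕ} {C D : ℝ} {f g : BB}
    (hf : Bd T α₁ β₁ p C f) (hg : Bd T α₂ β₂ q D g)
    (hq1 : 1 ≤ q) (hq3 : q ≤ 3) (hpq : q ≤ p) (h1 : q = 1 → 3 ≤ p) :
    Bd T (α₁ + α₂) (β₁ + β₂) q (16 * C * D) (f * g) := by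
  intro n τ t h1' h2 h3
  have hC := hf.nonneg hT
  have hD := hg.nonneg hT
  have h5 : 0 < τT T - τ := by linarith
  have h2' := ρT_pos hT
  have h3' := norm_nonneg t
  refine (nn_mul_le n h1' t f g).trans ?_
  have key : ∀ ij ∈ Finset.HasAntidiagonal.antidiagonal n, nn ij.1 τ t f * nn ij.2 τ t g ≤
      (C * D * ((1 + ‖t‖) ^ ((n : ℤ) + (α₁ + α₂)) * (τT T - τ) ^ (β₁ + β₂ - 2 * (n : ℤ)) *
        (ρT T) ^ n)) * (1 / (((ij.1 : ℝ) + 1) ^ p * ((ij.2 : ℝ) + 1) ^ q)) := by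
    rintro ⟨i, j⟩ hij
    rw [Finset.HasAntidiagonal.mem_antidiagonal] at hij
    simp only at hij ⊢
    have e1 := hf i τ t h1' h2 h3
    have e2 := hg j τ t h1' h2 h3
    refine (mul_le_mul e1 e2 (nn_nonneg _ _ _ _)
      (mul_nonneg hC (W_pos hT _ _ _ _ h2 _).le)).trans (le_of_eq ?_)
    unfold W
    have hn : (n : ℤ) = i + j := by exact_mod_cast hij.symm
    have hn' : n = i + j := hij.symm
    have e3 : (1 + ‖t‖) ^ ((n : ℤ) + (α₁ + α₂)) =
        (1 + ‖t‖) ^ ((i : ℤ) + α₁) * (1 + ‖t‖) ^ ((j : ℤ) + α₂) := by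
      rw [← zpow_add₀ (by positivity)]
      congr 1
      rw [hn]; ring
    have e4 : (τT T - τ) ^ (β₁ + β₂ - 2 * (n : ℤ)) =
        (τT T - τ) ^ (β₁ - 2 * (i : ℤ)) * (τT T - τ) ^ (β₂ - 2 * (j : ℤ)) := by
      rw [← zpow_add₀ h5.ne']
      congr 1
      rw [hn]; ring
    rw [e3, e4, hn', pow_add]
    field_simp
  refine (Finset.sum_le_sum key).trans ?_
  rw [← Finset.mul_sum]
  refine (mul_le_mul_of_nonneg_left (conv_le hq1 hq3 hpq h1 n) (by positivity)).trans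
    (le_of_eq ?_)
  unfold W
  ring

theorem Bd.mul' {T : ℝ} (hT : 1 ≤ T) {α₁ β₁ α₂ β₂ : ℤ} {p q : ℕ} {C D : ℝ} {f g : BB}
    (hf : Bd T α₁ β₁ p C f) (hg : Bd T α₂ β₂ q D g)
    (hp1 : 1 ≤ p) (hp3 : p ≤ 3) (hpq : p ≤ q) (h1 : p = 1 → 3 ≤ q) :
    Bd T (α₁ + α₂) (β₁ + β₂) p (16 * C * D) (f * g) := by
  have := hg.mul hT hf hp1 hp3 hpq h1
  rw [mul_comm g f, add_comm α₂, add_comm β₂] at this
  have e : 16 * D * C = 16 * C * D := by ring
  rwa [e] at this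

/-- total norm from the class -/
theorem Bd.tn_le {T : ℝ} (hT : 1 ≤ T) {α : ℕ} {β : ℤ} {p : ℕ} {C : ℝ} {f : BB}
    (hf : Bd T α β p C f) (hβ : 0 ≤ β) {τ : ℝ} (h0 : 0 ≤ τ) (h1 : τ ≤ τT T / 2) {t : ℂ}
    (ht : t ∈ reg T) {K : ℕ} (hK : ∀ n ≤ K, nn n τ t f = 0 ∨ K = 0) :
    tn τ t f ≤ 2 * (T + 2) ^ α * C * (1 / 4) ^ K := by
  have hC := hf.nonneg hT
  have hτ := τT_pos hT
  have h5 : τT T / 2 ≤ τT T - τ := by linarith
  have h5' : 0 < τT T - τ := by linarith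
  have h2' := ρT_pos hT
  have h3' := norm_nonneg t
  obtain ⟨N, hN⟩ := tn_eq_sum τ t f
  have hb : ∀ n, nn n τ t f ≤ (T + 2) ^ α * C * (1 / 4) ^ n := by
    intro n
    refine (hf n τ t h0 (by linarith) ht).trans ?_
    unfold W
    have e1 : (1 + ‖t‖) ^ ((n : ℤ) + (α : ℤ)) ≤ (T + 2) ^ n * (T + 2) ^ α := by
      have : (1 + ‖t‖) ^ ((n : ℤ) + (α : ℤ)) = (1 + ‖t‖) ^ (n + α) := by
        rw [← zpow_natCast]; push_cast; rfl
      rw [this, ← pow_add]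
      apply pow_le_pow_left₀ (by positivity)
      linarith [ht.2]
    have e2 : (τT T - τ) ^ (β - 2 * (n : ℤ)) ≤ (4 / (τT T) ^ 2) ^ n := by
      have : (τT T - τ) ^ (β - 2 * (n : ℤ)) = (τT T - τ) ^ β * (((τT T - τ) ^ 2)⁻¹) ^ n := by
        rw [zpow_sub₀ h5'.ne', div_eq_mul_inv, zpow_mul]
        congr 1
        rw [inv_pow, zpow_natCast]
        norm_cast
      rw [this]
      have e3 : (τT T - τ) ^ β ≤ 1 := by
        obtain ⟨b, hb⟩ := Int.eq_ofNat_of_zero_le hβ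
        rw [hb, zpow_natCast]
        apply pow_le_one₀ h5'.le
        linarith [τT_le hT]
      have e4 : ((τT T - τ) ^ 2)⁻¹ ≤ 4 / (τT T) ^ 2 := by
        rw [inv_eq_one_div, div_le_div_iff₀ (by positivity) (by positivity)]
        nlinarith
      calc (τT T - τ) ^ β * (((τT T - τ) ^ 2)⁻¹) ^ n ≤ 1 * (4 / (τT T) ^ 2) ^ n := by
            apply mul_le_mul e3 _ (by positivity) (by norm_num)
            exact pow_le_pow_left₀ (by positivity) e4 n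
        _ = _ := one_mul _
    have e5 : (1 : ℝ) ≤ ((n : ℝ) + 1) ^ p :=
      one_le_pow₀ (by linarith [Nat.cast_nonneg (α := ℝ) n])
    calc C * ((1 + ‖t‖) ^ ((n : ℤ) + (α : ℤ)) * (τT T - τ) ^ (β - 2 * (n : ℤ)) * (ρT T) ^ n /
          ((n : ℝ) + 1) ^ p) ≤ C * ((1 + ‖t‖) ^ ((n : ℤ) + (α : ℤ)) *
          (τT T - τ) ^ (β - 2 * (n : ℤ)) * (ρT T) ^ n) := by
          apply mul_le_mul_of_nonneg_left _ hC
          exact div_le_self (by positivity) e5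
      _ ≤ C * (((T + 2) ^ n * (T + 2) ^ α) * (4 / (τT T) ^ 2) ^ n * (ρT T) ^ n) := by
          apply mul_le_mul_of_nonneg_left _ hC
          apply mul_le_mul_of_nonneg_right _ (by positivity)
          exact mul_le_mul e1 e2 (by positivity) (by positivity)
      _ = (T + 2) ^ α * C * ((T + 2) * (4 / (τT T) ^ 2) * ρT T) ^ n := by
          rw [mul_pow, mul_pow]; ring
      _ = (T + 2) ^ α * C * (1 / 4) ^ n := by
          congr 2
          unfold ρT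
          have : T + 2 ≠ 0 := by positivity
          field_simp
          norm_num
  rw [hN (N + K + 1) (by omega)]
  rcases Nat.eq_zero_or_pos K with hK0 | hK0
  · subst hK0
    refine (Finset.sum_le_sum fun n _ => hb n).trans ?_
    rw [← Finset.mul_sum]
    have hg : ∑ i ∈ Finset.range (N + 0 + 1), (1 / 4 : ℝ) ^ i ≤ 2 := by
      have := geom_sum_eq (by norm_num : (1 / 4 : ℝ) ≠ 1) (N + 0 + 1)
      rw [this, div_le_iff_of_neg (by norm_num)]
      have : (0 : ℝ) ≤ (1 / 4) ^ (N + 0 + 1) := by positivity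
      linarith
    calc (T + 2) ^ α * C * _ ≤ (T + 2) ^ α * C * 2 :=
          mul_le_mul_of_nonneg_left hg (by positivity)
      _ = _ := by ring
  · have hsplit : Finset.range (N + K + 1) = Finset.range (K + 1 + N) := by congr 1; omega
    rw [hsplit, Finset.sum_range_add]
    have hz : ∑ x ∈ Finset.range (K + 1), nn x τ t f = 0 := by
      apply Finset.sum_eq_zero
      intro n hn
      rw [Finset.mem_range] at hn
      rcases hK n (by omega) with h | h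
      · exact h
      · omega
    rw [hz, zero_add]
    refine (Finset.sum_le_sum fun n _ => hb (K + 1 + n)).trans ?_
    have : ∀ n : ℕ, (T + 2) ^ α * C * (1 / 4 : ℝ) ^ (K + 1 + n) =
        ((T + 2) ^ α * C * (1 / 4) ^ K) * ((1 / 4) * (1 / 4) ^ n) := by
      intro n; rw [pow_add, pow_add]; ring
    simp_rw [this]
    rw [← Finset.mul_sum, ← Finset.mul_sum]
    have hg : ∑ i ∈ Finset.range N, (1 / 4 : ℝ) ^ i ≤ 2 := by
      have := geom_sum_eq (by norm_num : (1 / 4 : ℝ) ≠ 1) N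
      rw [this, div_le_iff_of_neg (by norm_num)]
      have : (0 : ℝ) ≤ (1 / 4) ^ N := by positivity
      linarith
    have hX : 0 ≤ (T + 2) ^ α * C * (1 / 4) ^ K := by positivity
    calc ((T + 2) ^ α * C * (1 / 4) ^ K) * ((1 / 4) * _) ≤
          ((T + 2) ^ α * C * (1 / 4) ^ K) * ((1 / 4) * 2) := by
          apply mul_le_mul_of_nonneg_left _ hX
          linarith
      _ ≤ _ := by nlinarith

end Pool.Agent.EulerInflation
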