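import Pool.Agent.Work.MP_8b4a1b_an.Defs

/-!
Definitions of the cutoff and of the localised vector field.
-/

open MeasureTheory Set
open scoped ENNReal NNReal ContDiff FourierTransform Real

namespace Pool.Agent.EulerInflation

/-- one-dimensional cutoff, equal to `1` on `[-L, L]` and to `0` outside `(-L-1, L+1)` -/
noncomputable def bump (L s : ℝ) : ℝ :=
  Real.smoothTransition (L + 1 - s) * Real.smoothTransition (L + 1 + s)

/-- cutoff on the plane -/
noncomputable def chi (L : ℝ) (x : EuclideanSpace ℝ (Fin 2)) : ℝ := bump L (x 0) * bump L (x 1)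

/-- localised velocity: rotated gradient of the localised stream function -/
noncomputable def vL (L : ℝ) (ψ : ℝ → EuclideanSpace ℝ (Fin 2) → ℝ) (t : ℝ)
    (x : EuclideanSpace ℝ (Fin 2)) : EuclideanSpace ℝ (Fin 2) :=
  !₂[-(pd 1 (fun y => chi L y * ψ t y) x), pd 0 (fun y => chi L y * ψ t y) x]

/-- localised pressure, from the Bernoulli function `P` -/
noncomputable def qL (L : ℝ) (ψ P : ℝ → EuclideanSpace ℝ (Fin 2) → ℝ) (t : ℝ)
    (x : EuclideanSpace ℝ (Fin 2)) : ℝ :=
  chi L x * (P t x - (pd 0 (ψ t) x ^ 2 + pd 1 (ψ t) x ^ 2) / 2)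

end Pool.Agent.EulerInflation
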