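import Mathlib

/-!
Definitions for the norm inflation problem for the 2D Euler equations.
-/

open MeasureTheory Set
open scoped ENNReal NNReal ContDiff FourierTransform Real

namespace Pool.Agent.EulerInflation

/-- Partial derivative in the direction of the `i`-th coordinate of a scalar function on the plane. -/
noncomputable def pd (i : Fin 2) (f : EuclideanSpace ℝ (Fin 2) → ℝ)
    (x : EuclideanSpace ℝ (Fin 2)) : ℝ :=
  fderiv ℝ f x (EuclideanSpace.single i 1)

/-- The square of the `H^s` norm of a scalar function on the plane, computed with the Fourier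
transform on `L^2` (and equal to `⊤` when the function is not in `L^2`). The factor `2 * π` accounts
for the normalisation of the Fourier transform used in Mathlib, so this is the square of the usual
`H^s` norm `‖(1 + |ξ|^2)^(s/2) f^‖`. -/
noncomputable def sobSq (s : ℝ) (f : EuclideanSpace ℝ (Fin 2) → ℂ) : ℝ≥0∞ :=
  open Classical in
  if h : MemLp f 2 (volume : Measure (EuclideanSpace ℝ (Fin 2))) then
    ∫⁻ ξ : EuclideanSpace ℝ (Fin 2), ENNReal.ofReal ((1 + (2 * π * ‖ξ‖) ^ 2) ^ s) *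
      ‖(𝓕 (h.toLp f) : Lp ℂ 2 (volume : Measure (EuclideanSpace ℝ (Fin 2)))) ξ‖ₑ ^ 2
  else ⊤

/-- The `H^s` norm of a vector field on the plane. -/
noncomputable def hsNorm (s : ℝ)
    (u : EuclideanSpace ℝ (Fin 2) → EuclideanSpace ℝ (Fin 2)) : ℝ≥0∞ :=
  (sobSq s (fun x => ((u x 0 : ℝ) : ℂ)) + sobSq s (fun x => ((u x 1 : ℝ) : ℂ))) ^ (1 / 2 : ℝ)

/-- `(u, p)` is a global smooth solution of the incompressible Euler equations on the plane with
`u ∈ C^1([0, ∞); H^k)` in the sense of locally bounded norms, for every `k`. -/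
structure IsEulerSolution (u : ℝ → EuclideanSpace ℝ (Fin 2) → EuclideanSpace ℝ (Fin 2))
    (p : ℝ → EuclideanSpace ℝ (Fin 2) → ℝ) : Prop where
  smooth_u : ContDiffOn ℝ ∞ (fun z : ℝ × EuclideanSpace ℝ (Fin 2) => u z.1 z.2)
    (Ici 0 ×ˢ univ)
  smooth_p : ContDiffOn ℝ ∞ (fun z : ℝ × EuclideanSpace ℝ (Fin 2) => p z.1 z.2)
    (Ici 0 ×ˢ univ)
  sobolev : ∀ (k : ℕ) (T : ℝ), ∃ C : ℝ≥0, ∀ t ∈ Icc 0 T,
    eLpNorm (iteratedFDeriv ℝ k (u t)) 2 volume ≤ C
  sobolev_t : ∀ (k : ℕ) (T : ℝ), ∃ C : ℝ≥0, ∀ t ∈ Icc 0 T,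
    eLpNorm (iteratedFDeriv ℝ k (fun x => derivWithin (fun s => u s x) (Ici 0) t)) 2 volume ≤ C
  div_free : ∀ t, 0 ≤ t → ∀ x,
    pd 0 (fun y => u t y 0) x + pd 1 (fun y => u t y 1) x = 0
  momentum : ∀ t, 0 ≤ t → ∀ x, ∀ i : Fin 2,
    derivWithin (fun s => u s x i) (Ici 0) t +
      (u t x 0 * pd 0 (fun y => u t y i) x + u t x 1 * pd 1 (fun y => u t y i) x) +
      pd i (p t) x = 0

end Pool.Agent.EulerInflation
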