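import Pool.Agent.Work.MP_8b4a1b_an.Cutoff

/-!
Localisation of a periodic approximate Euler flow.
-/

open MeasureTheory Set
open scoped ENNReal NNReal ContDiff FourierTransform Real

namespace Pool.Agent.EulerInflation

namespace Loc

abbrev E2 : Type := EuclideanSpace ℝ (Fin 2)
abbrev Z : Type := ℝ × E2

/-- space derivative -/
noncomputable def Dx (i : Fin 2) (F : Z → ℝ) (z : Z) : ℝ :=
  fderiv ℝ F z (0, EuclideanSpace.single i 1)

/-- time derivative -/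
noncomputable def Dt (F : Z → ℝ) (z : Z) : ℝ := fderiv ℝ F z (1, 0)

theorem smooth_Dx {F : Z → ℝ} (hF : ContDiff ℝ ∞ F) (i : Fin 2) : ContDiff ℝ ∞ (Dx i F) :=
  (hF.fderiv_right (m := ∞) (by simp)).clm_apply contDiff_const

theorem smooth_Dt {F : Z → ℝ} (hF : ContDiff ℝ ∞ F) : ContDiff ℝ ∞ (Dt F) :=
  (hF.fderiv_right (m := ∞) (by simp)).clm_apply contDiff_const

theorem diff {F : Z → ℝ} (hF : ContDiff ℝ ∞ F) (z : Z) : DifferentiableAt ℝ F z :=
  (hF.differentiable (by simp)) z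

theorem pd_eq {F : Z → ℝ} (hF : ContDiff ℝ ∞ F) (i : Fin 2) (t : ℝ) (x : E2) :
    pd i (fun y => F (t, y)) x = Dx i F (t, x) := by
  have h1 : HasFDerivAt (fun y : E2 => F (t, y))
      ((fderiv ℝ F (t, x)).comp (ContinuousLinearMap.inr ℝ ℝ E2)) x := by
    have h2 : HasFDerivAt (fun y : E2 => ((t, y) : Z)) (ContinuousLinearMap.inr ℝ ℝ E2) x :=
      hasFDerivAt_prodMk_right t x
    exact (diff hF (t, x)).hasFDerivAt.comp x h2
  unfold pd Dx
  rw [h1.fderiv]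
  rfl

theorem deriv_eq {F : Z → ℝ} (hF : ContDiff ℝ ∞ F) (t : ℝ) (x : E2) :
    deriv (fun s => F (s, x)) t = Dt F (t, x) := by
  have h1 : HasFDerivAt (fun s : ℝ => F (s, x))
      ((fderiv ℝ F (t, x)).comp (ContinuousLinearMap.inl ℝ ℝ E2)) t := by
    have h2 : HasFDerivAt (fun s : ℝ => ((s, x) : Z)) (ContinuousLinearMap.inl ℝ ℝ E2) t :=
      hasFDerivAt_prodMk_left t x
    exact (diff hF (t, x)).hasFDerivAt.comp t h2
  unfold Dt
  rw [h1.hasDerivAt.deriv]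
  rfl

theorem Dx_mul {F G : Z → ℝ} (hF : ContDiff ℝ ∞ F) (hG : ContDiff ℝ ∞ G) (i : Fin 2) (z : Z) :
    Dx i (fun z => F z * G z) z = F z * Dx i G z + Dx i F z * G z := by
  unfold Dx
  rw [fderiv_fun_mul (diff hF z) (diff hG z)]
  simp
  ring

theorem Dt_mul {F G : Z → ℝ} (hF : ContDiff ℝ ∞ F) (hG : ContDiff ℝ ∞ G) (z : Z) :
    Dt (fun z => F z * G z) z = F z * Dt G z + Dt F z * G z := by
  unfold Dt
  rw [fderiv_fun_mul (diff hF z) (diff hG z)]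
  simp
  ring

theorem Dx_add {F G : Z → ℝ} (hF : ContDiff ℝ ∞ F) (hG : ContDiff ℝ ∞ G) (i : Fin 2) (z : Z) :
    Dx i (fun z => F z + G z) z = Dx i F z + Dx i G z := by
  unfold Dx
  rw [fderiv_fun_add (diff hF z) (diff hG z)]
  rfl

theorem Dt_add {F G : Z → ℝ} (hF : ContDiff ℝ ∞ F) (hG : ContDiff ℝ ∞ G) (z : Z) :
    Dt (fun z => F z + G z) z = Dt F z + Dt G z := by
  unfold Dt
  rw [fderiv_fun_add (diff hF z) (diff hG z)]
  rfl

theorem Dx_sub {F G : Z → ℝ} (hF : ContDiff ℝ ∞ F) (hG : ContDiff ℝ ∞ G) (i : Fin 2) (z : Z) :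
    Dx i (fun z => F z - G z) z = Dx i F z - Dx i G z := by
  unfold Dx
  rw [fderiv_fun_sub (diff hF z) (diff hG z)]
  rfl

theorem Dx_neg (F : Z → ℝ) (i : Fin 2) (z : Z) : Dx i (fun z => -F z) z = -Dx i F z := by
  unfold Dx
  rw [fderiv_fun_neg]
  rfl

theorem Dt_neg (F : Z → ℝ) (z : Z) : Dt (fun z => -F z) z = -Dt F z := by
  unfold Dt
  rw [fderiv_fun_neg]
  rfl

theorem Dx_half {F : Z → ℝ} (hF : ContDiff ℝ ∞ F) (i : Fin 2) (z : Z) :
    Dx i (fun z => F z / 2) z = Dx i F z / 2 := by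
  unfold Dx
  have h : (fun z => F z / 2) = fun z => (1 / 2 : ℝ) * F z := by
    funext z
    ring
  rw [h, fderiv_const_mul (diff hF z)]
  simp
  ring

theorem Dx_comm {F : Z → ℝ} (hF : ContDiff ℝ ∞ F) (i j : Fin 2) (z : Z) :
    Dx i (Dx j F) z = Dx j (Dx i F) z := by
  have key : ∀ i j : Fin 2, Dx i (Dx j F) z =
      fderiv ℝ (fderiv ℝ F) z (0, EuclideanSpace.single i 1) (0, EuclideanSpace.single j 1) := by
    intro i j
    have h1 : DifferentiableAt ℝ (fderiv ℝ F) z :=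
      ((hF.fderiv_right (m := ∞) (by simp)).differentiable (by simp)) z
    have h2 : HasFDerivAt (fun z => fderiv ℝ F z (0, EuclideanSpace.single j 1))
        ((ContinuousLinearMap.apply ℝ ℝ ((0, EuclideanSpace.single j 1) : Z)).comp
          (fderiv ℝ (fderiv ℝ F) z)) z :=
      (ContinuousLinearMap.apply ℝ ℝ ((0, EuclideanSpace.single j 1) : Z)).hasFDerivAt.comp z
        h1.hasFDerivAt
    change fderiv ℝ (fun z => fderiv ℝ F z (0, EuclideanSpace.single j 1)) z _ = _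
    rw [h2.fderiv]
    rfl
  rw [key, key]
  have h2 : (2 : ℕ∞ω) ≤ ((⊤ : ℕ∞) : ℕ∞ω) := WithTop.coe_le_coe.2 (le_top : (2 : ℕ∞) ≤ ⊤)
  have hs : IsSymmSndFDerivAt ℝ F z := hF.contDiffAt.isSymmSndFDerivAt
    (by simpa only [minSmoothness_of_isRCLikeNormedField] using h2)
  exact hs _ _

/-- Periodic functions. -/
def Per (F : Z → ℝ) : Prop := ∀ (z : Z) (i : Fin 2),
  F (z + (0, EuclideanSpace.single i (2 * π))) = F z

theorem Per.fderiv_eq {F : Z → ℝ} (h : Per F) (z : Z) (i : Fin 2) :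
    fderiv ℝ F (z + (0, EuclideanSpace.single i (2 * π))) = fderiv ℝ F z := by
  have h1 : (fun z => F (z + (0, EuclideanSpace.single i (2 * π)))) = F := funext fun z => h z i
  rw [← fderiv_comp_add_right, h1]

theorem Per.Dx {F : Z → ℝ} (h : Per F) (j : Fin 2) : Per (Dx j F) := by
  intro z i
  unfold Loc.Dx
  rw [h.fderiv_eq]

theorem Per.Dt {F : Z → ℝ} (h : Per F) : Per (Dt F) := by
  intro z i
  unfold Loc.Dt
  rw [h.fderiv_eq]

end Loc

theorem isCompact_box (L : ℝ) :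
    IsCompact {x : EuclideanSpace ℝ (Fin 2) | ∀ i, |x i| ≤ L + 1} := by
  have h1 : IsCompact (Set.pi univ fun _ : Fin 2 => Icc (-(L + 1)) (L + 1)) :=
    isCompact_univ_pi fun _ => isCompact_Icc
  have h2 := (EuclideanSpace.equiv (Fin 2) ℝ).symm.toHomeomorph.isCompact_image.2 h1
  convert h2 using 1
  ext x
  simp only [mem_ofPred_eq, mem_image, mem_pi, mem_univ, true_imp_iff, mem_Icc]
  constructor
  · intro h
    exact ⟨EuclideanSpace.equiv (Fin 2) ℝ x, fun i => abs_le.1 (h i), by simp⟩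
  · rintro ⟨y, hy, rfl⟩ i
    exact abs_le.2 (hy i)

namespace Loc

theorem Per.bounded {F : Z → ℝ} (h : Per F) (hc : Continuous F) (T : ℝ) :
    ∃ M : ℝ, 0 ≤ M ∧ ∀ t ∈ Icc 0 T, ∀ x : E2, |F (t, x)| ≤ M := by
  obtain ⟨M, hM⟩ := (isCompact_Icc.prod (isCompact_box (2 * π))).exists_bound_of_continuousOn
    (f := F) (s := Icc 0 T ×ˢ _) hc.continuousOn
  refine ⟨max M 0, le_max_right _ _, fun t ht x => le_trans ?_ (le_max_left _ _)⟩
  have hp : ∀ i, Function.Periodic (fun x : E2 => F (t, x)) (EuclideanSpace.single i (2 * π)) := by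
    intro i x
    have := h (t, x) i
    simpa using this
  have hpi : 0 < 2 * π := by positivity
  let n : Fin 2 → ℤ := fun i => ⌊x i / (2 * π)⌋
  let y : E2 := x - n 0 • EuclideanSpace.single 0 (2 * π) - n 1 • EuclideanSpace.single 1 (2 * π)
  have hy : F (t, y) = F (t, x) := by
    have h1 := (hp 1).sub_zsmul_eq (n 1) (x := x - n 0 • EuclideanSpace.single 0 (2 * π))
    have h2 := (hp 0).sub_zsmul_eq (n 0) (x := x)
    exact h1.trans h2
  have hyi : ∀ i, y i = x i - n i * (2 * π) := by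
    intro i
    fin_cases i <;> simp [y]
  have hyb : ∀ i, |y i| ≤ 2 * π + 1 := by
    intro i
    rw [hyi, abs_le]
    have h1 : (n i : ℝ) ≤ x i / (2 * π) := Int.floor_le _
    have h2 : x i / (2 * π) < n i + 1 := Int.lt_floor_add_one _
    rw [le_div_iff₀ hpi] at h1
    rw [div_lt_iff₀ hpi] at h2
    constructor <;> nlinarith
  rw [← hy, ← Real.norm_eq_abs]
  exact hM (t, y) ⟨ht, hyb⟩

/-- products of functions of one coordinate -/
noncomputable def S (g h : ℝ → ℝ) (z : Z) : ℝ := g (z.2 0) * h (z.2 1)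

/-- the coordinates -/
noncomputable def co (i : Fin 2) : Z →L[ℝ] ℝ :=
  (EuclideanSpace.proj i).comp (ContinuousLinearMap.snd ℝ ℝ E2)

theorem co_apply (i : Fin 2) (z : Z) : co i z = z.2 i := rfl

theorem smooth_S {g h : ℝ → ℝ} (hg : ContDiff ℝ ∞ g) (hh : ContDiff ℝ ∞ h) :
    ContDiff ℝ ∞ (S g h) :=
  (hg.comp (co 0).contDiff).mul (hh.comp (co 1).contDiff)

theorem fderiv_S {g h : ℝ → ℝ} (hg : ContDiff ℝ ∞ g) (hh : ContDiff ℝ ∞ h) (z : Z) :
    fderiv ℝ (S g h) z = g (z.2 0) • (deriv h (z.2 1) • co 1) + h (z.2 1) • (deriv g (z.2 0) • co 0) := by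
  have h1 : HasDerivAt g (deriv g (z.2 0)) (co 0 z) :=
    ((hg.differentiable (by simp)) _).hasDerivAt
  have h2 : HasDerivAt h (deriv h (z.2 1)) (co 1 z) :=
    ((hh.differentiable (by simp)) _).hasDerivAt
  exact ((h1.comp_hasFDerivAt z (co 0).hasFDerivAt).mul
    (h2.comp_hasFDerivAt z (co 1).hasFDerivAt)).fderiv

theorem Dt_S {g h : ℝ → ℝ} (hg : ContDiff ℝ ∞ g) (hh : ContDiff ℝ ∞ h) (z : Z) :
    Dt (S g h) z = 0 := by
  unfold Dt
  rw [fderiv_S hg hh]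
  simp [co_apply]

theorem Dx_S_zero {g h : ℝ → ℝ} (hg : ContDiff ℝ ∞ g) (hh : ContDiff ℝ ∞ h) :
    Dx 0 (S g h) = S (deriv g) h := by
  funext z
  unfold Dx
  rw [fderiv_S hg hh]
  simp [co_apply, S]
  ring

theorem Dx_S_one {g h : ℝ → ℝ} (hg : ContDiff ℝ ∞ g) (hh : ContDiff ℝ ∞ h) :
    Dx 1 (S g h) = S g (deriv h) := by
  funext z
  unfold Dx
  rw [fderiv_S hg hh]
  simp [co_apply, S]

theorem smooth_deriv {g : ℝ → ℝ} (hg : ContDiff ℝ ∞ g) : ContDiff ℝ ∞ (deriv g) := by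
  have h : ContDiff ℝ ((∞ : ℕ∞ω) + 1) g := by simpa using hg
  exact (contDiff_succ_iff_deriv.1 h).2.2

/-! ### The bump -/

theorem smooth_sigma : ContDiff ℝ ∞ Real.smoothTransition := Real.smoothTransition.contDiff

theorem deriv_sigma_support : HasCompactSupport (deriv Real.smoothTransition) := by
  apply HasCompactSupport.of_support_subset_isCompact (isCompact_Icc (a := (0 : ℝ)) (b := 1))
  intro x hx
  by_contra hx'
  apply hx
  rw [mem_Icc, not_and_or, not_le, not_le] at hx'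
  rcases hx' with h | h
  · have : Real.smoothTransition =ᶠ[nhds x] fun _ => 0 := by
      filter_upwards [Iio_mem_nhds h] with y hy
      exact Real.smoothTransition.zero_of_nonpos (le_of_lt hy)
    rw [this.deriv_eq]
    simp
  · have : Real.smoothTransition =ᶠ[nhds x] fun _ => 1 := by
      filter_upwards [Ioi_mem_nhds h] with y hy
      exact Real.smoothTransition.one_of_one_le (le_of_lt hy)
    rw [this.deriv_eq]
    simp

theorem exists_sigma_bound : ∃ B : ℝ, 0 ≤ B ∧ (∀ s, |deriv Real.smoothTransition s| ≤ B) ∧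
    ∀ s, |deriv (deriv Real.smoothTransition) s| ≤ B := by
  obtain ⟨B1, h1⟩ := (smooth_deriv smooth_sigma).continuous.bounded_above_of_compact_support
    deriv_sigma_support
  obtain ⟨B2, h2⟩ := (smooth_deriv
    (smooth_deriv smooth_sigma)).continuous.bounded_above_of_compact_support
    deriv_sigma_support.deriv
  refine ⟨max (max B1 B2) 0, le_max_right _ _, fun s => ?_, fun s => ?_⟩
  · exact (h1 s).trans ((le_max_left _ _).trans (le_max_left _ _))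
  · exact (h2 s).trans ((le_max_right _ _).trans (le_max_left _ _))

theorem smooth_bump (L : ℝ) : ContDiff ℝ ∞ (bump L) := by
  unfold bump
  exact (smooth_sigma.comp (contDiff_const.sub contDiff_id)).mul
    (smooth_sigma.comp (contDiff_const.add contDiff_id))

theorem abs_sigma_le (s : ℝ) : |Real.smoothTransition s| ≤ 1 := by
  rw [abs_of_nonneg (Real.smoothTransition.nonneg s)]
  exact Real.smoothTransition.le_one s

theorem abs_bump_le (L s : ℝ) : |bump L s| ≤ 1 := by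
  unfold bump
  rw [abs_mul]
  exact mul_le_one₀ (abs_sigma_le _) (abs_nonneg _) (abs_sigma_le _)

theorem bump_eq_one {L s : ℝ} (h : |s| ≤ L) : bump L s = 1 := by
  obtain ⟨h1, h2⟩ := abs_le.1 h
  unfold bump
  rw [Real.smoothTransition.one_of_one_le (by linarith),
    Real.smoothTransition.one_of_one_le (by linarith), one_mul]

theorem bump_eq_zero {L s : ℝ} (h : L + 1 ≤ |s|) : bump L s = 0 := by
  unfold bump
  rcases le_abs.1 h with h | h
  · rw [Real.smoothTransition.zero_of_nonpos (by linarith), zero_mul]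
  · rw [Real.smoothTransition.zero_of_nonpos (x := L + 1 + s) (by linarith), mul_zero]

theorem bump_eventually_one {L s : ℝ} (h : |s| < L) : bump L =ᶠ[nhds s] fun _ => 1 := by
  filter_upwards [(isOpen_lt continuous_abs continuous_const).mem_nhds h] with y hy
  exact bump_eq_one (le_of_lt hy)

theorem bump_eventually_zero {L s : ℝ} (h : L + 1 < |s|) : bump L =ᶠ[nhds s] fun _ => 0 := by
  filter_upwards [(isOpen_lt continuous_const continuous_abs).mem_nhds h] with y hy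
  exact bump_eq_zero (le_of_lt hy)

theorem deriv_bump_one {L s : ℝ} (h : |s| < L) : deriv (bump L) s = 0 := by
  rw [(bump_eventually_one h).deriv_eq]
  simp

theorem deriv_bump_zero {L s : ℝ} (h : L + 1 < |s|) : deriv (bump L) s = 0 := by
  rw [(bump_eventually_zero h).deriv_eq]
  simp

theorem deriv2_bump_one {L s : ℝ} (h : |s| < L) : deriv (deriv (bump L)) s = 0 := by
  have h1 : deriv (bump L) =ᶠ[nhds s] fun _ => 0 := by
    filter_upwards [(isOpen_lt continuous_abs continuous_const).mem_nhds h] with y hy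
    exact deriv_bump_one hy
  rw [h1.deriv_eq]
  simp

theorem hasDerivAt_left (g : ℝ → ℝ) (hg : ContDiff ℝ ∞ g) (L s : ℝ) :
    HasDerivAt (fun s => g (L + 1 - s)) (-deriv g (L + 1 - s)) s := by
  have h1 : HasDerivAt g (deriv g (L + 1 - s)) (L + 1 - s) :=
    ((hg.differentiable (by simp)) _).hasDerivAt
  have h2 : HasDerivAt (fun s => L + 1 - s) (-1) s := by
    simpa using (hasDerivAt_id s).const_sub (L + 1)
  exact (h1.comp s h2).congr_deriv (by ring)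

theorem hasDerivAt_right (g : ℝ → ℝ) (hg : ContDiff ℝ ∞ g) (L s : ℝ) :
    HasDerivAt (fun s => g (L + 1 + s)) (deriv g (L + 1 + s)) s := by
  have h1 : HasDerivAt g (deriv g (L + 1 + s)) (L + 1 + s) :=
    ((hg.differentiable (by simp)) _).hasDerivAt
  have h2 : HasDerivAt (fun s => L + 1 + s) 1 s := by
    simpa using (hasDerivAt_id s).const_add (L + 1)
  exact (h1.comp s h2).congr_deriv (by ring)

theorem deriv_bump (L : ℝ) : deriv (bump L) = fun s =>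
    -deriv Real.smoothTransition (L + 1 - s) * Real.smoothTransition (L + 1 + s) +
      Real.smoothTransition (L + 1 - s) * deriv Real.smoothTransition (L + 1 + s) := by
  funext s
  exact ((hasDerivAt_left _ smooth_sigma L s).mul (hasDerivAt_right _ smooth_sigma L s)).deriv

theorem deriv2_bump (L s : ℝ) : deriv (deriv (bump L)) s =
    (deriv (deriv Real.smoothTransition) (L + 1 - s) * Real.smoothTransition (L + 1 + s) +
      -deriv Real.smoothTransition (L + 1 - s) * deriv Real.smoothTransition (L + 1 + s)) +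
    (-deriv Real.smoothTransition (L + 1 - s) * deriv Real.smoothTransition (L + 1 + s) +
      Real.smoothTransition (L + 1 - s) * deriv (deriv Real.smoothTransition) (L + 1 + s)) := by
  rw [deriv_bump]
  have hs := smooth_sigma
  have hs' := smooth_deriv smooth_sigma
  have := ((((hasDerivAt_left _ hs' L s).neg).mul (hasDerivAt_right _ hs L s)).add
    ((hasDerivAt_left _ hs L s).mul (hasDerivAt_right _ hs' L s))).deriv
  rw [neg_neg] at this
  exact this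

theorem exists_bump_bound : ∃ B : ℝ, 1 ≤ B ∧ ∀ L s : ℝ, |deriv (bump L) s| ≤ B ∧
    |deriv (deriv (bump L)) s| ≤ B := by
  obtain ⟨B, hB, h1, h2⟩ := exists_sigma_bound
  refine ⟨1 + 2 * B + 2 * B ^ 2, by nlinarith [sq_nonneg B], fun L s => ⟨?_, ?_⟩⟩
  · rw [deriv_bump]
    have e1 : |-deriv Real.smoothTransition (L + 1 - s) * Real.smoothTransition (L + 1 + s)| ≤
        B * 1 := by
      rw [abs_mul, abs_neg]
      exact mul_le_mul (h1 _) (abs_sigma_le _) (abs_nonneg _) hB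
    have e2 : |Real.smoothTransition (L + 1 - s) * deriv Real.smoothTransition (L + 1 + s)| ≤
        1 * B := by
      rw [abs_mul]
      exact mul_le_mul (abs_sigma_le _) (h1 _) (abs_nonneg _) zero_le_one
    have := abs_add_le (-deriv Real.smoothTransition (L + 1 - s) *
      Real.smoothTransition (L + 1 + s))
      (Real.smoothTransition (L + 1 - s) * deriv Real.smoothTransition (L + 1 + s))
    nlinarith [sq_nonneg B]
  · rw [deriv2_bump]
    have e1 : |deriv (deriv Real.smoothTransition) (L + 1 - s) *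
        Real.smoothTransition (L + 1 + s)| ≤ B * 1 := by
      rw [abs_mul]
      exact mul_le_mul (h2 _) (abs_sigma_le _) (abs_nonneg _) hB
    have e2 : |-deriv Real.smoothTransition (L + 1 - s) *
        deriv Real.smoothTransition (L + 1 + s)| ≤ B * B := by
      rw [abs_mul, abs_neg]
      exact mul_le_mul (h1 _) (h1 _) (abs_nonneg _) hB
    have e3 : |Real.smoothTransition (L + 1 - s) *
        deriv (deriv Real.smoothTransition) (L + 1 + s)| ≤ 1 * B := by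
      rw [abs_mul]
      exact mul_le_mul (abs_sigma_le _) (h2 _) (abs_nonneg _) zero_le_one
    refine (abs_add_le _ _).trans ?_
    have e4 := abs_add_le (deriv (deriv Real.smoothTransition) (L + 1 - s) *
        Real.smoothTransition (L + 1 + s)) (-deriv Real.smoothTransition (L + 1 - s) *
        deriv Real.smoothTransition (L + 1 + s))
    have e5 := abs_add_le (-deriv Real.smoothTransition (L + 1 - s) *
        deriv Real.smoothTransition (L + 1 + s)) (Real.smoothTransition (L + 1 - s) *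
        deriv (deriv Real.smoothTransition) (L + 1 + s))
    nlinarith

/-! ### The cutoff as a function of time and space -/

/-- the cutoff -/
noncomputable def X (L : ℝ) : Z → ℝ := S (bump L) (bump L)

theorem smooth_X (L : ℝ) : ContDiff ℝ ∞ (X L) := smooth_S (smooth_bump L) (smooth_bump L)

theorem X_apply (L t : ℝ) (x : E2) : X L (t, x) = chi L x := rfl

theorem Dt_X (L : ℝ) (z : Z) : Dt (X L) z = 0 := Dt_S (smooth_bump L) (smooth_bump L) z

theorem DX0 (L : ℝ) : Dx 0 (X L) = S (deriv (bump L)) (bump L) :=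
  Dx_S_zero (smooth_bump L) (smooth_bump L)

theorem DX1 (L : ℝ) : Dx 1 (X L) = S (bump L) (deriv (bump L)) :=
  Dx_S_one (smooth_bump L) (smooth_bump L)

theorem Dt_DX (L : ℝ) (j : Fin 2) (z : Z) : Dt (Dx j (X L)) z = 0 := by
  have hb := smooth_bump L
  have hb' := smooth_deriv (smooth_bump L)
  fin_cases j
  · change Dt (Dx 0 (X L)) z = 0
    rw [DX0]
    exact Dt_S hb' hb z
  · change Dt (Dx 1 (X L)) z = 0
    rw [DX1]
    exact Dt_S hb hb' z

theorem DDX (L : ℝ) :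
    Dx 0 (Dx 0 (X L)) = S (deriv (deriv (bump L))) (bump L) ∧
    Dx 1 (Dx 0 (X L)) = S (deriv (bump L)) (deriv (bump L)) ∧
    Dx 0 (Dx 1 (X L)) = S (deriv (bump L)) (deriv (bump L)) ∧
    Dx 1 (Dx 1 (X L)) = S (bump L) (deriv (deriv (bump L))) := by
  have hb := smooth_bump L
  have hb' := smooth_deriv (smooth_bump L)
  rw [DX0, DX1]
  exact ⟨Dx_S_zero hb' hb, Dx_S_one hb' hb, Dx_S_zero hb hb', Dx_S_one hb hb'⟩

theorem abs_X (L : ℝ) (z : Z) : |X L z| ≤ 1 := by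
  unfold X S
  rw [abs_mul]
  exact mul_le_one₀ (abs_bump_le _ _) (abs_nonneg _) (abs_bump_le _ _)

theorem abs_S_le {g h : ℝ → ℝ} {A B : ℝ} (hg : ∀ s, |g s| ≤ A) (hh : ∀ s, |h s| ≤ B) (z : Z) :
    |S g h z| ≤ A * B := by
  unfold S
  rw [abs_mul]
  exact mul_le_mul (hg _) (hh _) (abs_nonneg _) ((abs_nonneg _).trans (hg 0))

theorem abs_DX {B : ℝ} (hB1 : 1 ≤ B) (hB : ∀ L s : ℝ, |deriv (bump L) s| ≤ B ∧
    |deriv (deriv (bump L)) s| ≤ B) (L : ℝ) (j : Fin 2) (z : Z) : |Dx j (X L) z| ≤ B ^ 2 := by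
  have hb : ∀ s, |bump L s| ≤ B := fun s => (abs_bump_le L s).trans hB1
  fin_cases j
  · change |Dx 0 (X L) z| ≤ _
    rw [DX0, sq]
    exact abs_S_le (fun s => (hB L s).1) hb z
  · change |Dx 1 (X L) z| ≤ _
    rw [DX1, sq]
    exact abs_S_le hb (fun s => (hB L s).1) z

theorem abs_DDX {B : ℝ} (hB1 : 1 ≤ B) (hB : ∀ L s : ℝ, |deriv (bump L) s| ≤ B ∧
    |deriv (deriv (bump L)) s| ≤ B) (L : ℝ) (i j : Fin 2) (z : Z) :
    |Dx i (Dx j (X L)) z| ≤ B ^ 2 := by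
  have hb : ∀ s, |bump L s| ≤ B := fun s => (abs_bump_le L s).trans hB1
  obtain ⟨h00, h10, h01, h11⟩ := DDX L
  fin_cases i <;> fin_cases j
  · change |Dx 0 (Dx 0 (X L)) z| ≤ _
    rw [h00, sq]
    exact abs_S_le (fun s => (hB L s).2) hb z
  · change |Dx 0 (Dx 1 (X L)) z| ≤ _
    rw [h01, sq]
    exact abs_S_le (fun s => (hB L s).1) (fun s => (hB L s).1) z
  · change |Dx 1 (Dx 0 (X L)) z| ≤ _
    rw [h10, sq]
    exact abs_S_le (fun s => (hB L s).1) (fun s => (hB L s).1) z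
  · change |Dx 1 (Dx 1 (X L)) z| ≤ _
    rw [h11, sq]
    exact abs_S_le hb (fun s => (hB L s).2) z

/-- inside, the cutoff is one -/
theorem X_in {L : ℝ} {z : Z} (h : ∀ i, |z.2 i| < L) : X L z = 1 ∧ (∀ j, Dx j (X L) z = 0) ∧
    ∀ i j, Dx i (Dx j (X L)) z = 0 := by
  have h0 := h 0
  have h1 := h 1
  have b0 := bump_eq_one h0.le
  have b1 := bump_eq_one h1.le
  have c0 := deriv_bump_one h0
  have c1 := deriv_bump_one h1
  have d0 := deriv2_bump_one h0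
  have d1 := deriv2_bump_one h1
  obtain ⟨h00, h10, h01, h11⟩ := DDX L
  refine ⟨by simp [X, S, b0, b1], fun j => ?_, fun i j => ?_⟩
  · fin_cases j
    · change Dx 0 (X L) z = 0
      rw [DX0]
      simp [S, c0]
    · change Dx 1 (X L) z = 0
      rw [DX1]
      simp [S, c1]
  · fin_cases i <;> fin_cases j
    · change Dx 0 (Dx 0 (X L)) z = 0
      rw [h00]
      simp [S, d0]
    · change Dx 0 (Dx 1 (X L)) z = 0
      rw [h01]
      simp [S, c0]
    · change Dx 1 (Dx 0 (X L)) z = 0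
      rw [h10]
      simp [S, c0]
    · change Dx 1 (Dx 1 (X L)) z = 0
      rw [h11]
      simp [S, d1]

/-- outside, the cutoff is zero -/
theorem X_out {L : ℝ} {z : Z} (h : ∃ i, L + 1 < |z.2 i|) : X L z = 0 ∧ ∀ j, Dx j (X L) z = 0 := by
  obtain ⟨i, hi⟩ := h
  have hb := bump_eq_zero hi.le
  have hc := deriv_bump_zero hi
  fin_cases i
  · have hb : bump L (z.2 0) = 0 := hb
    have hc : deriv (bump L) (z.2 0) = 0 := hc
    refine ⟨by simp [X, S, hb], fun j => ?_⟩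
    fin_cases j
    · change Dx 0 (X L) z = 0
      rw [DX0]
      simp [S, hc]
    · change Dx 1 (X L) z = 0
      rw [DX1]
      simp [S, hb]
  · have hb : bump L (z.2 1) = 0 := hb
    have hc : deriv (bump L) (z.2 1) = 0 := hc
    refine ⟨by simp [X, S, hb], fun j => ?_⟩
    fin_cases j
    · change Dx 0 (X L) z = 0
      rw [DX0]
      simp [S, hb]
    · change Dx 1 (X L) z = 0
      rw [DX1]
      simp [S, hc]

/-! ### The localised functions -/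

section Funs

variable {Ψ Θ : Z → ℝ} (hΨ : ContDiff ℝ ∞ Ψ) (hΘ : ContDiff ℝ ∞ Θ) (L : ℝ)

/-- localised stream function -/
noncomputable def FF (L : ℝ) (Ψ : Z → ℝ) (z : Z) : ℝ := X L z * Ψ z

/-- localised pressure -/
noncomputable def QQ (L : ℝ) (Ψ Θ : Z → ℝ) (z : Z) : ℝ :=
  X L z * (Θ z - (Dx 0 Ψ z * Dx 0 Ψ z + Dx 1 Ψ z * Dx 1 Ψ z) / 2)

include hΨ in
theorem smooth_FF : ContDiff ℝ ∞ (FF L Ψ) := (smooth_X L).mul hΨ

include hΨ in
theorem Dx_FF (j : Fin 2) :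
    Dx j (FF L Ψ) = fun z => X L z * Dx j Ψ z + Dx j (X L) z * Ψ z :=
  funext fun z => Dx_mul (smooth_X L) hΨ j z

include hΨ in
theorem DDx_FF (i j : Fin 2) (z : Z) : Dx i (Dx j (FF L Ψ)) z =
    (X L z * Dx i (Dx j Ψ) z + Dx i (X L) z * Dx j Ψ z) +
      (Dx j (X L) z * Dx i Ψ z + Dx i (Dx j (X L)) z * Ψ z) := by
  have hX := smooth_X L
  rw [Dx_FF hΨ, Dx_add (hX.mul (smooth_Dx hΨ j)) ((smooth_Dx hX j).mul hΨ),
    Dx_mul hX (smooth_Dx hΨ j), Dx_mul (smooth_Dx hX j) hΨ]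

include hΨ in
theorem DtDx_FF (j : Fin 2) (z : Z) : Dt (Dx j (FF L Ψ)) z =
    X L z * Dt (Dx j Ψ) z + Dx j (X L) z * Dt Ψ z := by
  have hX := smooth_X L
  rw [Dx_FF hΨ, Dt_add (hX.mul (smooth_Dx hΨ j)) ((smooth_Dx hX j).mul hΨ),
    Dt_mul hX (smooth_Dx hΨ j), Dt_mul (smooth_Dx hX j) hΨ, Dt_X, Dt_DX]
  ring

include hΨ hΘ in
theorem smooth_inner : ContDiff ℝ ∞ fun z => Θ z - (Dx 0 Ψ z * Dx 0 Ψ z + Dx 1 Ψ z * Dx 1 Ψ z) / 2 :=
  hΘ.sub ((((smooth_Dx hΨ 0).mul (smooth_Dx hΨ 0)).add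
    ((smooth_Dx hΨ 1).mul (smooth_Dx hΨ 1))).div_const 2)

include hΨ hΘ in
theorem smooth_QQ : ContDiff ℝ ∞ (QQ L Ψ Θ) := (smooth_X L).mul (smooth_inner hΨ hΘ)

include hΨ hΘ in
theorem Dx_QQ (j : Fin 2) (z : Z) : Dx j (QQ L Ψ Θ) z =
    X L z * (Dx j Θ z - (Dx 0 Ψ z * Dx j (Dx 0 Ψ) z + Dx 1 Ψ z * Dx j (Dx 1 Ψ) z)) +
      Dx j (X L) z * (Θ z - (Dx 0 Ψ z * Dx 0 Ψ z + Dx 1 Ψ z * Dx 1 Ψ z) / 2) := by
  have h0 := smooth_Dx hΨ 0
  have h1 := smooth_Dx hΨ 1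
  unfold QQ
  rw [Dx_mul (smooth_X L) (smooth_inner hΨ hΘ), Dx_sub hΘ ((((h0).mul h0).add
    (h1.mul h1)).div_const 2), Dx_half ((h0.mul h0).add (h1.mul h1)), Dx_add (h0.mul h0)
    (h1.mul h1), Dx_mul h0 h0, Dx_mul h1 h1]
  ring

end Funs

theorem abm {a b A B : ℝ} (h1 : |a| ≤ A) (h2 : |b| ≤ B) : |a * b| ≤ A * B := by
  rw [abs_mul]
  exact mul_le_mul h1 h2 (abs_nonneg _) ((abs_nonneg _).trans h1)

theorem aba {a b A B : ℝ} (h1 : |a| ≤ A) (h2 : |b| ≤ B) : |a + b| ≤ A + B :=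
  (abs_add_le _ _).trans (add_le_add h1 h2)

theorem abn {a A : ℝ} (h1 : |a| ≤ A) : |-a| ≤ A := by rwa [abs_neg]

theorem abs' {a b A B : ℝ} (h1 : |a| ≤ A) (h2 : |b| ≤ B) : |a - b| ≤ A + B := by
  rw [sub_eq_add_neg]
  exact aba h1 (abn h2)

/-! ### Boxes -/

/-- open box -/
def boxo (L : ℝ) : Set E2 := {x | ∀ i, |x i| < L}

/-- closed box -/
def boxc (L : ℝ) : Set E2 := {x | ∀ i, |x i| ≤ L}

theorem boxo_eq (L : ℝ) : boxo L = (WithLp.ofLp : E2 → (Fin 2 → ℝ)) ⁻¹'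
    (Set.pi univ fun _ => Ioo (-L) L) := by
  ext x
  simp only [boxo, mem_ofPred_eq, mem_preimage, mem_pi, mem_univ, true_imp_iff, mem_Ioo, abs_lt]

theorem boxc_eq (L : ℝ) : boxc L = (WithLp.ofLp : E2 → (Fin 2 → ℝ)) ⁻¹'
    (Icc (fun _ => -L) (fun _ => L)) := by
  ext x
  simp only [boxc, mem_ofPred_eq, mem_preimage, mem_Icc, Pi.le_def, abs_le]
  exact forall_and

theorem meas_boxo (L : ℝ) : MeasurableSet (boxo L) := by
  rw [boxo_eq]
  exact (PiLp.volume_preserving_ofLp (Fin 2)).measurable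
    (MeasurableSet.univ_pi fun _ => measurableSet_Ioo)

theorem meas_boxc (L : ℝ) : MeasurableSet (boxc L) := by
  rw [boxc_eq]
  exact (PiLp.volume_preserving_ofLp (Fin 2)).measurable measurableSet_Icc

theorem vol_boxo {L : ℝ} (hL : 0 ≤ L) : volume.real (boxo L) = (2 * L) ^ 2 := by
  rw [Measure.real, boxo_eq, (PiLp.volume_preserving_ofLp (Fin 2)).measure_preimage
    (MeasurableSet.univ_pi fun _ => measurableSet_Ioo).nullMeasurableSet,
    Real.volume_pi_Ioo_toReal (fun _ => by linarith)]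
  simp
  ring

theorem vol_boxc {L : ℝ} (hL : 0 ≤ L) : volume.real (boxc L) = (2 * L) ^ 2 := by
  rw [Measure.real, boxc_eq, (PiLp.volume_preserving_ofLp (Fin 2)).measure_preimage
    measurableSet_Icc.nullMeasurableSet, Real.volume_Icc_pi_toReal (fun _ => by linarith)]
  simp
  ring

theorem vol_boxo_ne_top (L : ℝ) : volume (boxo L) ≠ ⊤ := by
  rw [boxo_eq, (PiLp.volume_preserving_ofLp (Fin 2)).measure_preimage
    (MeasurableSet.univ_pi fun _ => measurableSet_Ioo).nullMeasurableSet, Real.volume_pi_Ioo]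
  exact (ENNReal.prod_lt_top fun _ _ => ENNReal.ofReal_lt_top).ne

theorem vol_boxc_ne_top (L : ℝ) : volume (boxc L) ≠ ⊤ := by
  rw [boxc_eq, (PiLp.volume_preserving_ofLp (Fin 2)).measure_preimage
    measurableSet_Icc.nullMeasurableSet, Real.volume_Icc_pi]
  exact (ENNReal.prod_lt_top fun _ _ => ENNReal.ofReal_lt_top).ne

theorem integral_bound {L a M : ℝ} (hL : 1 ≤ L) (hM : 0 ≤ M)
    (f : E2 → ℝ) (hf0 : ∀ x, 0 ≤ f x) (h1 : ∀ x ∈ boxo L, f x ≤ a) (h2 : ∀ x, f x ≤ M)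
    (h3 : ∀ x, x ∉ boxc (L + 1) → f x = 0) :
    ∫ x, f x ≤ 4 * L ^ 2 * a + 12 * M * L := by
  have hsub : boxo L ⊆ boxc (L + 1) := fun x hx i => by
    have := hx i
    linarith
  have hLn : volume (boxc (L + 1) \ boxo L) ≠ ⊤ :=
    ne_top_of_le_ne_top (vol_boxc_ne_top (L + 1)) (measure_mono sdiff_subset)
  have hg1 : Integrable ((boxo L).indicator fun _ : E2 => a) :=
    (integrableOn_const (vol_boxo_ne_top L)).integrable_indicator (meas_boxo L)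
  have hg2 : Integrable ((boxc (L + 1) \ boxo L).indicator fun _ : E2 => M) :=
    (integrableOn_const hLn).integrable_indicator ((meas_boxc _).diff (meas_boxo L))
  have hle : ∀ x, f x ≤ (boxo L).indicator (fun _ : E2 => a) x +
      (boxc (L + 1) \ boxo L).indicator (fun _ : E2 => M) x := by
    intro x
    by_cases hx : x ∈ boxo L
    · rw [indicator_of_mem hx, indicator_of_notMem (fun h => h.2 hx), add_zero]
      exact h1 x hx
    · rw [indicator_of_notMem hx, zero_add]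
      by_cases hx' : x ∈ boxc (L + 1)
      · rw [indicator_of_mem (show x ∈ boxc (L + 1) \ boxo L from ⟨hx', hx⟩)]
        exact h2 x
      · rw [indicator_of_notMem (fun h => hx' h.1), h3 x hx']
  have hint := integral_mono_of_nonneg (μ := volume) (Filter.Eventually.of_forall hf0)
    (hg1.add hg2) (Filter.Eventually.of_forall hle)
  refine hint.trans ?_
  have e1 : ∫ x, ((boxo L).indicator (fun _ : E2 => a) + (boxc (L + 1) \ boxo L).indicator
      fun _ : E2 => M) x = volume.real (boxo L) • a + volume.real (boxc (L + 1) \ boxo L) • M := by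
    rw [← integral_indicator_const a (meas_boxo L),
      ← integral_indicator_const M ((meas_boxc (L + 1)).diff (meas_boxo L))]
    exact integral_add hg1 hg2
  rw [e1, measureReal_sdiff hsub (meas_boxo L) (vol_boxc_ne_top (L + 1)), vol_boxo (by linarith), vol_boxc (by linarith),
    smul_eq_mul, smul_eq_mul]
  nlinarith

/-! ### The residual -/

/-- all the functions of the approximate flow are bounded -/
structure Bnd (T M : ℝ) (Ψ Θ : Z → ℝ) : Prop where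
  nonneg : 0 ≤ M
  b0 : ∀ t ∈ Icc 0 T, ∀ x : E2, |Ψ (t, x)| ≤ M
  b1 : ∀ t ∈ Icc 0 T, ∀ x : E2, ∀ i, |Dx i Ψ (t, x)| ≤ M
  b2 : ∀ t ∈ Icc 0 T, ∀ x : E2, ∀ i j, |Dx i (Dx j Ψ) (t, x)| ≤ M
  bt : ∀ t ∈ Icc 0 T, ∀ x : E2, |Dt Ψ (t, x)| ≤ M
  bt1 : ∀ t ∈ Icc 0 T, ∀ x : E2, ∀ i, |Dt (Dx i Ψ) (t, x)| ≤ M
  q0 : ∀ t ∈ Icc 0 T, ∀ x : E2, |Θ (t, x)| ≤ M
  q1 : ∀ t ∈ Icc 0 T, ∀ x : E2, ∀ i, |Dx i Θ (t, x)| ≤ M

theorem exists_bnd {Ψ Θ : Z → ℝ} (hΨ : ContDiff ℝ ∞ Ψ) (hΘ : ContDiff ℝ ∞ Θ) (hpΨ : Per Ψ)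
    (hpΘ : Per Θ) (T : ℝ) : ∃ M, Bnd T M Ψ Θ := by
  obtain ⟨m0, n0, h0⟩ := hpΨ.bounded hΨ.continuous T
  choose m1 n1 h1 using fun i => (hpΨ.Dx i).bounded (smooth_Dx hΨ i).continuous T
  choose m2 n2 h2 using fun i j =>
    ((hpΨ.Dx j).Dx i).bounded (smooth_Dx (smooth_Dx hΨ j) i).continuous T
  obtain ⟨m3, n3, h3⟩ := hpΨ.Dt.bounded (smooth_Dt hΨ).continuous T
  choose m4 n4 h4 using fun i =>
    ((hpΨ.Dx i).Dt).bounded (smooth_Dt (smooth_Dx hΨ i)).continuous T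
  obtain ⟨m5, n5, h5⟩ := hpΘ.bounded hΘ.continuous T
  choose m6 n6 h6 using fun i => (hpΘ.Dx i).bounded (smooth_Dx hΘ i).continuous T
  have s1 : ∀ i, m1 i ≤ ∑ i, m1 i := fun i => Finset.single_le_sum (fun i _ => n1 i)
    (Finset.mem_univ i)
  have s4 : ∀ i, m4 i ≤ ∑ i, m4 i := fun i => Finset.single_le_sum (fun i _ => n4 i)
    (Finset.mem_univ i)
  have s6 : ∀ i, m6 i ≤ ∑ i, m6 i := fun i => Finset.single_le_sum (fun i _ => n6 i)
    (Finset.mem_univ i)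
  have s2 : ∀ i j, m2 i j ≤ ∑ i, ∑ j, m2 i j := fun i j =>
    (Finset.single_le_sum (fun j _ => n2 i j) (Finset.mem_univ j)).trans
      (Finset.single_le_sum (f := fun i => ∑ j, m2 i j)
        (fun i _ => Finset.sum_nonneg fun j _ => n2 i j) (Finset.mem_univ i))
  have p1 : 0 ≤ ∑ i, m1 i := Finset.sum_nonneg fun i _ => n1 i
  have p4 : 0 ≤ ∑ i, m4 i := Finset.sum_nonneg fun i _ => n4 i
  have p6 : 0 ≤ ∑ i, m6 i := Finset.sum_nonneg fun i _ => n6 i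
  have p2 : 0 ≤ ∑ i, ∑ j, m2 i j :=
    Finset.sum_nonneg fun i _ => Finset.sum_nonneg fun j _ => n2 i j
  refine ⟨m0 + ∑ i, m1 i + ∑ i, ∑ j, m2 i j + m3 + ∑ i, m4 i + m5 + ∑ i, m6 i, ?_, ?_, ?_, ?_, ?_,
    ?_, ?_, ?_⟩
  · linarith
  · intro t ht x
    linarith [h0 t ht x]
  · intro t ht x i
    linarith [h1 i t ht x, s1 i]
  · intro t ht x i j
    linarith [h2 i j t ht x, s2 i j]
  · intro t ht x
    linarith [h3 t ht x]
  · intro t ht x i
    linarith [h4 i t ht x, s4 i]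
  · intro t ht x
    linarith [h5 t ht x]
  · intro t ht x i
    linarith [h6 i t ht x, s6 i]

/-- the residual of the first component -/
noncomputable def R0 (L : ℝ) (Ψ Θ : Z → ℝ) (z : Z) : ℝ :=
  -Dt (Dx 1 (FF L Ψ)) z + (-Dx 1 (FF L Ψ) z * -Dx 0 (Dx 1 (FF L Ψ)) z +
    Dx 0 (FF L Ψ) z * -Dx 1 (Dx 1 (FF L Ψ)) z) + Dx 0 (QQ L Ψ Θ) z

/-- the residual of the second component -/
noncomputable def R1 (L : ℝ) (Ψ Θ : Z → ℝ) (z : Z) : ℝ :=
  Dt (Dx 0 (FF L Ψ)) z + (-Dx 1 (FF L Ψ) z * Dx 0 (Dx 0 (FF L Ψ)) z +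
    Dx 0 (FF L Ψ) z * Dx 1 (Dx 0 (FF L Ψ)) z) + Dx 1 (QQ L Ψ Θ) z

theorem R_in {Ψ Θ : Z → ℝ} (hΨ : ContDiff ℝ ∞ Ψ) (hΘ : ContDiff ℝ ∞ Θ) {L : ℝ} {z : Z}
    (h : ∀ i, |z.2 i| < L) :
    R0 L Ψ Θ z = -Dt (Dx 1 Ψ) z - (Dx 0 (Dx 0 Ψ) z + Dx 1 (Dx 1 Ψ) z) * Dx 0 Ψ z + Dx 0 Θ z ∧
    R1 L Ψ Θ z = Dt (Dx 0 Ψ) z - (Dx 0 (Dx 0 Ψ) z + Dx 1 (Dx 1 Ψ) z) * Dx 1 Ψ z + Dx 1 Θ z := by
  obtain ⟨a0, a1, a2⟩ := X_in h
  unfold R0 R1
  simp only [DtDx_FF hΨ, DDx_FF hΨ]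
  simp only [Dx_FF hΨ, Dx_QQ hΨ hΘ, a0, a1, a2]
  constructor <;> ring

theorem R_out {Ψ Θ : Z → ℝ} (hΨ : ContDiff ℝ ∞ Ψ) (hΘ : ContDiff ℝ ∞ Θ) {L : ℝ} {z : Z}
    (h : ∃ i, L + 1 < |z.2 i|) : R0 L Ψ Θ z = 0 ∧ R1 L Ψ Θ z = 0 := by
  obtain ⟨a0, a1⟩ := X_out h
  unfold R0 R1
  simp only [DtDx_FF hΨ, DDx_FF hΨ]
  simp only [Dx_FF hΨ, Dx_QQ hΨ hΘ, a0, a1]
  constructor <;> ring

theorem abs_DDx_FF {Ψ : Z → ℝ} (hΨ : ContDiff ℝ ∞ Ψ) {L B G A : ℝ}
    (hB1 : 1 ≤ B) (hB : ∀ L s : ℝ, |deriv (bump L) s| ≤ B ∧ |deriv (deriv (bump L)) s| ≤ B)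
    (z : Z) (h0 : |Ψ z| ≤ A) (h1 : ∀ i, |Dx i Ψ z| ≤ A) (h2 : ∀ i j, |Dx i (Dx j Ψ) z| ≤ G)
    (i j : Fin 2) : |Dx i (Dx j (FF L Ψ)) z| ≤ G + 3 * B ^ 2 * A := by
  rw [DDx_FF hΨ]
  have := aba (aba (abm (abs_X L z) (h2 i j)) (abm (abs_DX hB1 hB L i z) (h1 j)))
    (aba (abm (abs_DX hB1 hB L j z) (h1 i)) (abm (abs_DDX hB1 hB L i j z) h0))
  linarith

theorem abs_R {Ψ Θ : Z → ℝ} (hΨ : ContDiff ℝ ∞ Ψ) (hΘ : ContDiff ℝ ∞ Θ) {B T M : ℝ}
    (hB1 : 1 ≤ B) (hB : ∀ L s : ℝ, |deriv (bump L) s| ≤ B ∧ |deriv (deriv (bump L)) s| ≤ B)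
    (hM : Bnd T M Ψ Θ) : ∃ K : ℝ, 0 ≤ K ∧ ∀ L : ℝ, ∀ t ∈ Icc 0 T, ∀ x : E2,
      |R0 L Ψ Θ (t, x)| ≤ K ∧ |R1 L Ψ Θ (t, x)| ≤ K := by
  have hM0 := hM.nonneg
  have hB0 : 0 ≤ B := by linarith
  refine ⟨(1 * M + B ^ 2 * M) + ((1 * M + B ^ 2 * M) * (M + 3 * B ^ 2 * M) +
    (1 * M + B ^ 2 * M) * (M + 3 * B ^ 2 * M)) +
    (1 * (M + (M * M + M * M)) + B ^ 2 * (M + (M * M + M * M) * (1 / 2))), by positivity,
    fun L t ht x => ?_⟩
  have eX := abs_X L (t, x)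
  have eDX := fun j => abs_DX hB1 hB L j (t, x)
  have c0 := hM.b0 t ht x
  have c1 := hM.b1 t ht x
  have c2 := hM.b2 t ht x
  have ct := hM.bt t ht x
  have ct1 := hM.bt1 t ht x
  have d0 := hM.q0 t ht x
  have d1 := hM.q1 t ht x
  have eF : ∀ j, |Dx j (FF L Ψ) (t, x)| ≤ 1 * M + B ^ 2 * M := by
    intro j
    rw [Dx_FF hΨ]
    exact aba (abm eX (c1 j)) (abm (eDX j) c0)
  have eDF : ∀ i j, |Dx i (Dx j (FF L Ψ)) (t, x)| ≤ M + 3 * B ^ 2 * M := fun i j =>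
    abs_DDx_FF hΨ hB1 hB (t, x) c0 c1 c2 i j
  have eT : ∀ j, |Dt (Dx j (FF L Ψ)) (t, x)| ≤ 1 * M + B ^ 2 * M := by
    intro j
    rw [DtDx_FF hΨ]
    exact aba (abm eX (ct1 j)) (abm (eDX j) ct)
  have eQ : ∀ j, |Dx j (QQ L Ψ Θ) (t, x)| ≤
      1 * (M + (M * M + M * M)) + B ^ 2 * (M + (M * M + M * M) * (1 / 2)) := by
    intro j
    rw [Dx_QQ hΨ hΘ]
    refine aba (abm eX (abs' (d1 j) (aba (abm (c1 0) (c2 j 0)) (abm (c1 1) (c2 j 1)))))
      (abm (eDX j) (abs' d0 ?_))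
    rw [div_eq_mul_one_div]
    exact abm (aba (abm (c1 0) (c1 0)) (abm (c1 1) (c1 1))) (by norm_num [abs_le])
  constructor
  · unfold R0
    exact aba (aba (abn (eT 1)) (aba (abm (abn (eF 1)) (abn (eDF 0 1)))
      (abm (eF 0) (abn (eDF 1 1))))) (eQ 0)
  · unfold R1
    exact aba (aba (eT 0) (aba (abm (abn (eF 1)) (eDF 0 0))
      (abm (eF 0) (eDF 1 0)))) (eQ 1)

end Loc

open Loc

theorem localise : ∃ C₀ : ℝ, 0 < C₀ ∧ ∀ (T : ℝ) (ψ P : ℝ → EuclideanSpace ℝ (Fin 2) → ℝ)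
    (G A δ : ℝ), 0 ≤ T → 0 ≤ δ →
    ContDiff ℝ ∞ (fun z : ℝ × EuclideanSpace ℝ (Fin 2) => ψ z.1 z.2) →
    ContDiff ℝ ∞ (fun z : ℝ × EuclideanSpace ℝ (Fin 2) => P z.1 z.2) →
    (∀ t x i, ψ t (x + EuclideanSpace.single i (2 * π)) = ψ t x) →
    (∀ t x i, P t (x + EuclideanSpace.single i (2 * π)) = P t x) →
    (∀ t ∈ Icc 0 T, ∀ x, |ψ t x| ≤ A ∧ ∀ i, |pd i (ψ t) x| ≤ A) →
    (∀ t ∈ Icc 0 T, ∀ x, ∀ i j, |pd i (pd j (ψ t)) x| ≤ G) →
    (∀ t ∈ Icc 0 T, ∀ x, |-(deriv (fun s => pd 1 (ψ s) x) t) -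
      (pd 0 (pd 0 (ψ t)) x + pd 1 (pd 1 (ψ t)) x) * pd 0 (ψ t) x + pd 0 (P t) x| ≤ δ) →
    (∀ t ∈ Icc 0 T, ∀ x, |deriv (fun s => pd 0 (ψ s) x) t -
      (pd 0 (pd 0 (ψ t)) x + pd 1 (pd 1 (ψ t)) x) * pd 1 (ψ t) x + pd 1 (P t) x| ≤ δ) →
    ∃ C : ℝ, ∀ L : ℝ, 1 ≤ L →
      ContDiff ℝ ∞ (fun z : ℝ × EuclideanSpace ℝ (Fin 2) => vL L ψ z.1 z.2) ∧
      ContDiff ℝ ∞ (fun z : ℝ × EuclideanSpace ℝ (Fin 2) => qL L ψ P z.1 z.2) ∧
      (∀ t, ∀ x ∉ {x : EuclideanSpace ℝ (Fin 2) | ∀ i, |x i| ≤ L + 1},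
        vL L ψ t x = 0 ∧ qL L ψ P t x = 0) ∧
      (∀ t x, pd 0 (fun y => vL L ψ t y 0) x + pd 1 (fun y => vL L ψ t y 1) x = 0) ∧
      (∀ t ∈ Icc 0 T, ∀ x, ∀ i j, |pd i (fun y => vL L ψ t y j) x| ≤ G + C₀ * A) ∧
      (∀ r : ℝ → EuclideanSpace ℝ (Fin 2) → EuclideanSpace ℝ (Fin 2),
        (∀ t x i, r t x i = deriv (fun s => vL L ψ s x i) t +
          (vL L ψ t x 0 * pd 0 (fun y => vL L ψ t y i) x +
            vL L ψ t x 1 * pd 1 (fun y => vL L ψ t y i) x) + pd i (qL L ψ P t) x) →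
        ∀ t ∈ Icc 0 T, ∫ x, ‖r t x‖ ^ 2 ≤ 8 * L ^ 2 * δ ^ 2 + C * L) := by
  obtain ⟨B, hB1, hB⟩ := exists_bump_bound
  refine ⟨3 * B ^ 2, by positivity, ?_⟩
  intro T ψ P G A δ hT hδ hψ hP hpψ hpP hA hG hr0 hr1
  let Ψ : Z → ℝ := fun z => ψ z.1 z.2
  let Θ : Z → ℝ := fun z => P z.1 z.2
  have hΨ : ContDiff ℝ ∞ Ψ := hψ
  have hΘ : ContDiff ℝ ∞ Θ := hP
  have hpΨ : Per Ψ := fun z i => by
    have := hpψ z.1 z.2 i
    simpa [Ψ] using this
  have hpΘ : Per Θ := fun z i => by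
    have := hpP z.1 z.2 i
    simpa [Θ] using this
  -- translations
  have t1 : ∀ i t x, pd i (ψ t) x = Dx i Ψ (t, x) := fun i t x => pd_eq hΨ i t x
  have t1' : ∀ i t, pd i (ψ t) = fun x => Dx i Ψ (t, x) := fun i t => funext (t1 i t)
  have t2 : ∀ i j t x, pd i (pd j (ψ t)) x = Dx i (Dx j Ψ) (t, x) := by
    intro i j t x
    rw [t1']
    exact pd_eq (smooth_Dx hΨ j) i t x
  have t3 : ∀ i t x, deriv (fun s => pd i (ψ s) x) t = Dt (Dx i Ψ) (t, x) := by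
    intro i t x
    simp_rw [t1]
    exact deriv_eq (smooth_Dx hΨ i) t x
  have t4 : ∀ i t x, pd i (P t) x = Dx i Θ (t, x) := fun i t x => pd_eq hΘ i t x
  have v0 : ∀ L t x, vL L ψ t x 0 = -Dx 1 (FF L Ψ) (t, x) := by
    intro L t x
    rw [← pd_eq (smooth_FF hΨ L) 1 t x]
    rfl
  have v1 : ∀ L t x, vL L ψ t x 1 = Dx 0 (FF L Ψ) (t, x) := by
    intro L t x
    rw [← pd_eq (smooth_FF hΨ L) 0 t x]
    rfl
  have vq : ∀ L t x, qL L ψ P t x = QQ L Ψ Θ (t, x) := by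
    intro L t x
    unfold qL QQ
    rw [t1, t1, X_apply, sq, sq]
  have s0 : ∀ L, ContDiff ℝ ∞ fun z => -Dx 1 (FF L Ψ) z := fun L =>
    (smooth_Dx (smooth_FF hΨ L) 1).neg
  have s1 : ∀ L, ContDiff ℝ ∞ (Dx 0 (FF L Ψ)) := fun L => smooth_Dx (smooth_FF hΨ L) 0
  have p0 : ∀ L i t x, pd i (fun y => vL L ψ t y 0) x = -Dx i (Dx 1 (FF L Ψ)) (t, x) := by
    intro L i t x
    simp_rw [v0]
    rw [pd_eq (s0 L), Dx_neg]
  have p1 : ∀ L i t x, pd i (fun y => vL L ψ t y 1) x = Dx i (Dx 0 (FF L Ψ)) (t, x) := by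
    intro L i t x
    simp_rw [v1]
    exact pd_eq (s1 L) i t x
  have dt0 : ∀ L t x, deriv (fun s => vL L ψ s x 0) t = -Dt (Dx 1 (FF L Ψ)) (t, x) := by
    intro L t x
    simp_rw [v0]
    rw [deriv_eq (s0 L), Dt_neg]
  have dt1 : ∀ L t x, deriv (fun s => vL L ψ s x 1) t = Dt (Dx 0 (FF L Ψ)) (t, x) := by
    intro L t x
    simp_rw [v1]
    exact deriv_eq (s1 L) t x
  have pq : ∀ L i t x, pd i (qL L ψ P t) x = Dx i (QQ L Ψ Θ) (t, x) := by
    intro L i t x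
    have : qL L ψ P t = fun y => QQ L Ψ Θ (t, y) := funext fun y => vq L t y
    rw [this]
    exact pd_eq (smooth_QQ hΨ hΘ L) i t x
  obtain ⟨M, hM⟩ := exists_bnd hΨ hΘ hpΨ hpΘ T
  obtain ⟨K, hK0, hK⟩ := abs_R hΨ hΘ hB1 hB hM
  refine ⟨12 * (2 * K ^ 2), fun L hL => ⟨?_, ?_, ?_, ?_, ?_, ?_⟩⟩
  · rw [contDiff_euclidean]
    intro i
    fin_cases i
    · have : (fun z : Z => vL L ψ z.1 z.2 0) = fun z => -Dx 1 (FF L Ψ) z :=
        funext fun z => v0 L z.1 z.2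
      change ContDiff ℝ ∞ (fun z : Z => vL L ψ z.1 z.2 0)
      rw [this]
      exact s0 L
    · have : (fun z : Z => vL L ψ z.1 z.2 1) = Dx 0 (FF L Ψ) :=
        funext fun z => v1 L z.1 z.2
      change ContDiff ℝ ∞ (fun z : Z => vL L ψ z.1 z.2 1)
      rw [this]
      exact s1 L
  · have : (fun z : Z => qL L ψ P z.1 z.2) = QQ L Ψ Θ := funext fun z => vq L z.1 z.2
    rw [this]
    exact smooth_QQ hΨ hΘ L
  · intro t x hx
    have hx' : ∃ i, L + 1 < |((t, x) : Z).2 i| := by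
      by_contra hcon
      push Not at hcon
      exact hx hcon
    obtain ⟨a0, a1⟩ := X_out hx'
    constructor
    · ext i
      fin_cases i
      · change vL L ψ t x 0 = 0
        rw [v0, Dx_FF hΨ]
        simp [a0, a1]
      · change vL L ψ t x 1 = 0
        rw [v1, Dx_FF hΨ]
        simp [a0, a1]
    · rw [vq, QQ, a0, zero_mul]
  · intro t x
    rw [p0, p1, Dx_comm (smooth_FF hΨ L) 1 0]
    ring
  · intro t ht x i j
    have h0 : |Ψ (t, x)| ≤ A := (hA t ht x).1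
    have h1 : ∀ i, |Dx i Ψ (t, x)| ≤ A := fun i => by
      rw [← t1]
      exact (hA t ht x).2 i
    have h2 : ∀ i j, |Dx i (Dx j Ψ) (t, x)| ≤ G := fun i j => by
      rw [← t2]
      exact hG t ht x i j
    fin_cases j
    · change |pd i (fun y => vL L ψ t y 0) x| ≤ _
      rw [p0]
      exact abn (abs_DDx_FF hΨ hB1 hB (t, x) h0 h1 h2 i 1)
    · change |pd i (fun y => vL L ψ t y 1) x| ≤ _
      rw [p1]
      exact abs_DDx_FF hΨ hB1 hB (t, x) h0 h1 h2 i 0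
  · intro r hr t ht
    have e0 : ∀ x, r t x 0 = R0 L Ψ Θ (t, x) := by
      intro x
      rw [hr, dt0, v0, v1, p0, p0, pq]
      rfl
    have e1 : ∀ x, r t x 1 = R1 L Ψ Θ (t, x) := by
      intro x
      rw [hr, dt1, v0, v1, p1, p1, pq]
      rfl
    have en : ∀ x, ‖r t x‖ ^ 2 = R0 L Ψ Θ (t, x) ^ 2 + R1 L Ψ Θ (t, x) ^ 2 := by
      intro x
      rw [EuclideanSpace.real_norm_sq_eq, Fin.sum_univ_two, e0, e1]
    have hle := integral_bound (a := 2 * δ ^ 2) (M := 2 * K ^ 2) hL (by positivity)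
      (fun x => ‖r t x‖ ^ 2) (fun x => by positivity) ?_ ?_ ?_
    · refine hle.trans (le_of_eq ?_)
      ring
    · intro x hx
      simp only [en]
      obtain ⟨f0, f1⟩ := R_in hΨ hΘ (z := (t, x)) hx
      have g0 : |R0 L Ψ Θ (t, x)| ≤ δ := by
        rw [f0, ← t3, ← t2, ← t2, ← t1, ← t4]
        exact hr0 t ht x
      have g1 : |R1 L Ψ Θ (t, x)| ≤ δ := by
        rw [f1, ← t3, ← t2, ← t2, ← t1, ← t4]
        exact hr1 t ht x
      have k0 := sq_le_sq' (abs_le.1 g0).1 (abs_le.1 g0).2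
      have k1 := sq_le_sq' (abs_le.1 g1).1 (abs_le.1 g1).2
      linarith
    · intro x
      simp only [en]
      obtain ⟨g0, g1⟩ := hK L t ht x
      have k0 := sq_le_sq' (abs_le.1 g0).1 (abs_le.1 g0).2
      have k1 := sq_le_sq' (abs_le.1 g1).1 (abs_le.1 g1).2
      linarith
    · intro x hx
      simp only [en]
      have hx' : ∃ i, L + 1 < |((t, x) : Z).2 i| := by
        by_contra hcon
        push Not at hcon
        exact hx hcon
      obtain ⟨f0, f1⟩ := R_out hΨ hΘ hx'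
      rw [f0, f1]
      ring

end Pool.Agent.EulerInflation
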