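import Pool.Agent.Work.MP_8b4a1b_an.Alg

/-!
Weighted coefficient norms.
-/

open Polynomial

namespace Pool.Agent.EulerInflation

/-- weighted sum of the absolute values of the coefficients at time `t` -/
noncomputable def gn (c : Idx → ℝ) (t : ℂ) (f : BB) : ℝ :=
  ∑ a ∈ f.coeff.support, ‖(f.coeff a).eval t‖ * c a

theorem gn_eq_sum (c : Idx → ℝ) (t : ℂ) (f : BB) {s : Finset Idx} (hs : f.coeff.support ⊆ s) :
    gn c t f = ∑ a ∈ s, ‖(f.coeff a).eval t‖ * c a := by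
  unfold gn
  apply Finset.sum_subset hs
  intro a _ ha
  rw [Finsupp.notMem_support_iff] at ha
  simp [ha]

theorem gn_nonneg {c : Idx → ℝ} (hc : ∀ a, 0 ≤ c a) (t : ℂ) (f : BB) : 0 ≤ gn c t f :=
  Finset.sum_nonneg fun a _ => mul_nonneg (norm_nonneg _) (hc a)

@[simp] theorem gn_zero (c : Idx → ℝ) (t : ℂ) : gn c t 0 = 0 := by simp [gn]

theorem gn_add_le {c : Idx → ℝ} (hc : ∀ a, 0 ≤ c a) (t : ℂ) (f g : BB) :
    gn c t (f + g) ≤ gn c t f + gn c t g := by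
  classical
  have h1 : (f + g).coeff.support ⊆ f.coeff.support ∪ g.coeff.support := by
    rw [AddMonoidAlgebra.coeff_add]
    exact Finsupp.support_add
  rw [gn_eq_sum c t (f + g) h1, gn_eq_sum c t f Finset.subset_union_left,
    gn_eq_sum c t g Finset.subset_union_right, ← Finset.sum_add_distrib]
  apply Finset.sum_le_sum
  intro a _
  rw [← add_mul]
  apply mul_le_mul_of_nonneg_right _ (hc a)
  rw [AddMonoidAlgebra.coeff_add, Finsupp.add_apply, Polynomial.eval_add]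
  exact norm_add_le _ _

theorem gn_sum_le {c : Idx → ℝ} (hc : ∀ a, 0 ≤ c a) (t : ℂ) {ι : Type*} (s : Finset ι)
    (f : ι → BB) : gn c t (∑ i ∈ s, f i) ≤ ∑ i ∈ s, gn c t (f i) := by
  classical
  induction s using Finset.induction_on with
  | empty => simp
  | insert i s hi ih =>
    rw [Finset.sum_insert hi, Finset.sum_insert hi]
    exact (gn_add_le hc t _ _).trans (by linarith)

@[simp] theorem gn_single (c : Idx → ℝ) (t : ℂ) (a : Idx) (p : ℂ[X]) :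
    gn c t (AddMonoidAlgebra.single a p) = ‖p.eval t‖ * c a := by
  have : (AddMonoidAlgebra.single a p : BB).coeff.support ⊆ {a} := by
    rw [AddMonoidAlgebra.coeff_single]
    exact Finsupp.support_single_subset
  rw [gn_eq_sum c t _ this]
  simp

theorem gn_smul (c : Idx → ℝ) (t : ℂ) (x : ℂ) (f : BB) : gn c t (x • f) = ‖x‖ * gn c t f := by
  have h1 : (x • f).coeff.support ⊆ f.coeff.support := by
    rw [AddMonoidAlgebra.coeff_smul]
    exact Finsupp.support_smul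
  rw [gn_eq_sum c t (x • f) h1, gn, Finset.mul_sum]
  apply Finset.sum_congr rfl
  intro a _
  rw [AddMonoidAlgebra.coeff_smul, Finsupp.smul_apply, Polynomial.eval_smul, smul_eq_mul, norm_mul]
  ring

theorem gn_neg (c : Idx → ℝ) (t : ℂ) (f : BB) : gn c t (-f) = gn c t f := by
  have := gn_smul c t (-1) f
  simpa using this

theorem gn_sub_le {c : Idx → ℝ} (hc : ∀ a, 0 ≤ c a) (t : ℂ) (f g : BB) :
    gn c t (f - g) ≤ gn c t f + gn c t g := by
  rw [sub_eq_add_neg]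
  exact (gn_add_le hc t _ _).trans (by rw [gn_neg])

theorem gn_mono {c d : Idx → ℝ} (h : ∀ a, c a ≤ d a) (t : ℂ) (f : BB) : gn c t f ≤ gn d t f :=
  Finset.sum_le_sum fun a _ => mul_le_mul_of_nonneg_left (h a) (norm_nonneg _)

theorem gn_mul_left_weight (x : ℝ) (c : Idx → ℝ) (t : ℂ) (f : BB) :
    gn (fun a => x * c a) t f = x * gn c t f := by
  unfold gn
  rw [Finset.mul_sum]
  exact Finset.sum_congr rfl fun a _ => by ring

/-- general bound for products -/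
theorem gn_mul_le {ι : Type*} (s : Finset ι) {c : Idx → ℝ} {c₁ c₂ : ι → Idx → ℝ}
    (hc : ∀ a, 0 ≤ c a)
    (h : ∀ a b, c (a + b) ≤ ∑ i ∈ s, c₁ i a * c₂ i b) (t : ℂ) (f g : BB) :
    gn c t (f * g) ≤ ∑ i ∈ s, gn (c₁ i) t f * gn (c₂ i) t g := by
  have h1 : f * g = ∑ a ∈ f.coeff.support, ∑ b ∈ g.coeff.support,
      AddMonoidAlgebra.single (a + b) (f.coeff a * g.coeff b) := by
    rw [AddMonoidAlgebra.mul_def]
    rfl
  calc gn c t (f * g) ≤ ∑ a ∈ f.coeff.support, ∑ b ∈ g.coeff.support,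
        ‖(f.coeff a).eval t‖ * ‖(g.coeff b).eval t‖ * c (a + b) := by
        rw [h1]
        refine (gn_sum_le hc t _ _).trans (Finset.sum_le_sum fun a _ => ?_)
        refine (gn_sum_le hc t _ _).trans (Finset.sum_le_sum fun b _ => ?_)
        rw [gn_single, Polynomial.eval_mul, norm_mul]
    _ ≤ ∑ a ∈ f.coeff.support, ∑ b ∈ g.coeff.support,
        ‖(f.coeff a).eval t‖ * ‖(g.coeff b).eval t‖ * ∑ i ∈ s, c₁ i a * c₂ i b := by
        refine Finset.sum_le_sum fun a _ => Finset.sum_le_sum fun b _ => ?_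
        exact mul_le_mul_of_nonneg_left (h a b) (by positivity)
    _ = ∑ i ∈ s, gn (c₁ i) t f * gn (c₂ i) t g := by
        unfold gn
        simp_rw [Finset.sum_mul_sum, Finset.mul_sum]
        conv_lhs =>
          enter [2, a]
          rw [Finset.sum_comm]
        rw [Finset.sum_comm]
        refine Finset.sum_congr rfl fun i _ => Finset.sum_congr rfl fun a _ =>
          Finset.sum_congr rfl fun b _ => ?_
        ring

/-- general bound for multipliers -/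
theorem gn_mop_le {c d : Idx → ℝ} {m : Idx → ℂ} (h : ∀ a, ‖m a‖ * c a ≤ d a) (t : ℂ) (f : BB) :
    gn c t (mop m f) ≤ gn d t f := by
  have h1 : (mop m f).coeff.support ⊆ f.coeff.support := by
    intro a ha
    rw [Finsupp.mem_support_iff] at ha ⊢
    intro h0
    apply ha
    rw [mop_coeff, h0, smul_zero]
  rw [gn_eq_sum c t _ h1]
  unfold gn
  apply Finset.sum_le_sum
  intro a _
  rw [mop_coeff, Polynomial.eval_smul, smul_eq_mul, norm_mul]
  calc ‖m a‖ * ‖(f.coeff a).eval t‖ * c a = ‖(f.coeff a).eval t‖ * (‖m a‖ * c a) := by ring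
    _ ≤ _ := mul_le_mul_of_nonneg_left (h a) (norm_nonneg _)

/-- weights -/
noncomputable def wt (τ : ℝ) (a : Idx) : ℝ := Real.exp (τ * (|(a.2.1 : ℝ)| + |(a.2.2 : ℝ)|))

theorem wt_pos (τ : ℝ) (a : Idx) : 0 < wt τ a := Real.exp_pos _

theorem wt_add_le {τ : ℝ} (hτ : 0 ≤ τ) (a b : Idx) : wt τ (a + b) ≤ wt τ a * wt τ b := by
  unfold wt
  rw [← Real.exp_add]
  apply Real.exp_le_exp.mpr
  rw [← mul_add]
  apply mul_le_mul_of_nonneg_left _ hτ
  have h1 : |(((a + b).2.1 : ℤ) : ℝ)| ≤ |(a.2.1 : ℝ)| + |(b.2.1 : ℝ)| := by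
    push_cast [Prod.snd_add, Prod.fst_add]
    exact abs_add_le _ _
  have h2 : |(((a + b).2.2 : ℤ) : ℝ)| ≤ |(a.2.2 : ℝ)| + |(b.2.2 : ℝ)| := by
    push_cast [Prod.snd_add, Prod.fst_add]
    exact abs_add_le _ _
  linarith

theorem wt_mono {τ τ' : ℝ} (h : τ ≤ τ') (a : Idx) : wt τ a ≤ wt τ' a := by
  unfold wt
  apply Real.exp_le_exp.mpr
  apply mul_le_mul_of_nonneg_right h (by positivity)

/-- norm of the part of order `n` -/
noncomputable def nn (n : ℕ) (τ : ℝ) (t : ℂ) (f : BB) : ℝ :=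
  gn (fun a => if a.1 = n then wt τ a else 0) t f

/-- total norm -/
noncomputable def tn (τ : ℝ) (t : ℂ) (f : BB) : ℝ := gn (wt τ) t f

theorem nnw_nonneg (n : ℕ) (τ : ℝ) (a : Idx) : 0 ≤ (if a.1 = n then wt τ a else 0) := by
  split_ifs
  · exact (wt_pos _ _).le
  · exact le_rfl

theorem nn_nonneg (n : ℕ) (τ : ℝ) (t : ℂ) (f : BB) : 0 ≤ nn n τ t f :=
  gn_nonneg (nnw_nonneg n τ) t f

theorem tn_nonneg (τ : ℝ) (t : ℂ) (f : BB) : 0 ≤ tn τ t f :=
  gn_nonneg (fun a => (wt_pos τ a).le) t f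

theorem nn_add_le (n : ℕ) (τ : ℝ) (t : ℂ) (f g : BB) :
    nn n τ t (f + g) ≤ nn n τ t f + nn n τ t g := gn_add_le (nnw_nonneg n τ) t f g

theorem nn_sub_le (n : ℕ) (τ : ℝ) (t : ℂ) (f g : BB) :
    nn n τ t (f - g) ≤ nn n τ t f + nn n τ t g := gn_sub_le (nnw_nonneg n τ) t f g

theorem tn_add_le (τ : ℝ) (t : ℂ) (f g : BB) :
    tn τ t (f + g) ≤ tn τ t f + tn τ t g := gn_add_le (fun a => (wt_pos τ a).le) t f g

theorem tn_sub_le (τ : ℝ) (t : ℂ) (f g : BB) :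
    tn τ t (f - g) ≤ tn τ t f + tn τ t g := gn_sub_le (fun a => (wt_pos τ a).le) t f g

theorem nn_smul (n : ℕ) (τ : ℝ) (t : ℂ) (x : ℂ) (f : BB) :
    nn n τ t (x • f) = ‖x‖ * nn n τ t f := gn_smul _ _ _ _

theorem tn_smul (τ : ℝ) (t : ℂ) (x : ℂ) (f : BB) :
    tn τ t (x • f) = ‖x‖ * tn τ t f := gn_smul _ _ _ _

theorem nn_neg (n : ℕ) (τ : ℝ) (t : ℂ) (f : BB) : nn n τ t (-f) = nn n τ t f := gn_neg _ _ _

theorem tn_neg (τ : ℝ) (t : ℂ) (f : BB) : tn τ t (-f) = tn τ t f := gn_neg _ _ _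

theorem nn_mul_le (n : ℕ) {τ : ℝ} (hτ : 0 ≤ τ) (t : ℂ) (f g : BB) :
    nn n τ t (f * g) ≤ ∑ ij ∈ Finset.HasAntidiagonal.antidiagonal n, nn ij.1 τ t f * nn ij.2 τ t g := by
  unfold nn
  apply gn_mul_le (Finset.HasAntidiagonal.antidiagonal n)
    (c₁ := fun ij a => if a.1 = ij.1 then wt τ a else 0)
    (c₂ := fun ij a => if a.1 = ij.2 then wt τ a else 0) (nnw_nonneg n τ)
  intro a b
  by_cases h : (a + b).1 = n
  · rw [if_pos h]
    have hm : (a.1, b.1) ∈ Finset.HasAntidiagonal.antidiagonal n := by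
      rw [Finset.HasAntidiagonal.mem_antidiagonal]
      exact h
    have hs := Finset.single_le_sum (f := fun ij : ℕ × ℕ =>
      (if a.1 = ij.1 then wt τ a else 0) * (if b.1 = ij.2 then wt τ b else 0))
      (fun ij _ => mul_nonneg (nnw_nonneg _ _ _) (nnw_nonneg _ _ _)) hm
    refine le_trans ?_ hs
    simp only [if_true]
    exact wt_add_le hτ a b
  · rw [if_neg h]
    exact Finset.sum_nonneg fun ij _ => mul_nonneg (nnw_nonneg _ _ _) (nnw_nonneg _ _ _)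

theorem tn_mul_le {τ : ℝ} (hτ : 0 ≤ τ) (t : ℂ) (f g : BB) :
    tn τ t (f * g) ≤ tn τ t f * tn τ t g := by
  have := gn_mul_le (ι := Unit) {()} (c := wt τ) (c₁ := fun _ => wt τ) (c₂ := fun _ => wt τ)
    (fun a => (wt_pos τ a).le) (by intro a b; simpa using wt_add_le hτ a b) t f g
  simpa [tn] using this

theorem nn_mono_tau (n : ℕ) {τ τ' : ℝ} (h : τ ≤ τ') (t : ℂ) (f : BB) :
    nn n τ t f ≤ nn n τ' t f := by
  apply gn_mono
  intro a
  split_ifs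
  · exact wt_mono h a
  · exact le_rfl

theorem tn_mono_tau {τ τ' : ℝ} (h : τ ≤ τ') (t : ℂ) (f : BB) :
    tn τ t f ≤ tn τ' t f := gn_mono (wt_mono h) t f

/-- contraction multipliers -/
theorem nn_mop_le_of_le_one (n : ℕ) (τ : ℝ) {m : Idx → ℂ} (h : ∀ a, ‖m a‖ ≤ 1) (t : ℂ) (f : BB) :
    nn n τ t (mop m f) ≤ nn n τ t f := by
  apply gn_mop_le
  intro a
  calc _ ≤ 1 * (if a.1 = n then wt τ a else 0) :=
        mul_le_mul_of_nonneg_right (h a) (nnw_nonneg _ _ _)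
    _ = _ := one_mul _

theorem tn_mop_le_of_le_one (τ : ℝ) {m : Idx → ℂ} (h : ∀ a, ‖m a‖ ≤ 1) (t : ℂ) (f : BB) :
    tn τ t (mop m f) ≤ tn τ t f := by
  apply gn_mop_le
  intro a
  calc _ ≤ 1 * wt τ a :=
        mul_le_mul_of_nonneg_right (h a) (wt_pos _ _).le
    _ = _ := one_mul _

theorem Iz_mult_le (a : Idx) : ‖((Complex.I * a.2.1)⁻¹ : ℂ)‖ ≤ 1 := by
  rw [norm_inv, norm_mul, Complex.norm_I, one_mul]
  by_cases h : a.2.1 = 0
  · simp [h]
  · apply inv_le_one_of_one_le₀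
    rw [Complex.norm_intCast]
    exact_mod_cast Int.one_le_abs h

theorem Mn_mult_le (a : Idx) : ‖((if a.2.1 = 0 then 1 else 0 : ℂ))‖ ≤ 1 := by
  split_ifs <;> simp

theorem nn_Iz_le (n : ℕ) (τ : ℝ) (t : ℂ) (f : BB) : nn n τ t (Iz f) ≤ nn n τ t f :=
  nn_mop_le_of_le_one n τ Iz_mult_le t f

theorem tn_Iz_le (τ : ℝ) (t : ℂ) (f : BB) : tn τ t (Iz f) ≤ tn τ t f :=
  tn_mop_le_of_le_one τ Iz_mult_le t f

theorem nn_Mn_le (n : ℕ) (τ : ℝ) (t : ℂ) (f : BB) : nn n τ t (Mn f) ≤ nn n τ t f :=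
  nn_mop_le_of_le_one n τ Mn_mult_le t f

theorem tn_Mn_le (τ : ℝ) (t : ℂ) (f : BB) : tn τ t (Mn f) ≤ tn τ t f :=
  tn_mop_le_of_le_one τ Mn_mult_le t f

theorem nn_sub_Mn_le (n : ℕ) (τ : ℝ) (t : ℂ) (f : BB) : nn n τ t (f - Mn f) ≤ nn n τ t f := by
  have : f - Mn f = mop (fun a => if a.2.1 = 0 then 0 else 1) f := by
    apply BB.ext'
    intro a
    simp only [AddMonoidAlgebra.coeff_sub, Finsupp.sub_apply, Mn, mop_coeff]
    by_cases h : a.2.1 = 0 <;> simp [h]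
  rw [this]
  apply nn_mop_le_of_le_one
  intro a
  split_ifs <;> simp

theorem tn_sub_Mn_le (τ : ℝ) (t : ℂ) (f : BB) : tn τ t (f - Mn f) ≤ tn τ t f := by
  have : f - Mn f = mop (fun a => if a.2.1 = 0 then 0 else 1) f := by
    apply BB.ext'
    intro a
    simp only [AddMonoidAlgebra.coeff_sub, Finsupp.sub_apply, Mn, mop_coeff]
    by_cases h : a.2.1 = 0 <;> simp [h]
  rw [this]
  apply tn_mop_le_of_le_one
  intro a
  split_ifs <;> simp

theorem nn_tr (K n : ℕ) (τ : ℝ) (t : ℂ) (f : BB) :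
    nn n τ t (tr K f) = if n ≤ K then nn n τ t f else 0 := by
  have h1 : (tr K f).coeff.support ⊆ f.coeff.support := by
    intro a ha
    rw [Finsupp.mem_support_iff] at ha ⊢
    intro h0
    apply ha
    rw [tr, mop_coeff, h0, smul_zero]
  unfold nn
  rw [gn_eq_sum _ t _ h1]
  split_ifs with hn
  · unfold gn
    apply Finset.sum_congr rfl
    intro a _
    rw [tr, mop_coeff]
    by_cases ha : a.1 = n
    · simp [ha, hn]
    · simp [ha]
  · apply Finset.sum_eq_zero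
    intro a _
    rw [tr, mop_coeff]
    by_cases ha : a.1 = n
    · simp [ha, hn]
    · simp [ha]

/-- elementary inequality behind the Cauchy estimate -/
theorem mul_wt_le {τ δ : ℝ} (hδ : 0 < δ) (a : Idx) (x : ℝ)
    (hxa : x ≤ |(a.2.1 : ℝ)| + |(a.2.2 : ℝ)|) : x * wt τ a ≤ δ⁻¹ * wt (τ + δ) a := by
  have h1 : x ≤ δ⁻¹ * Real.exp (δ * (|(a.2.1 : ℝ)| + |(a.2.2 : ℝ)|)) := by
    rw [inv_mul_eq_div, le_div_iff₀ hδ]
    have h2 := Real.add_one_le_exp (δ * (|(a.2.1 : ℝ)| + |(a.2.2 : ℝ)|))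
    nlinarith
  calc x * wt τ a ≤ δ⁻¹ * Real.exp (δ * (|(a.2.1 : ℝ)| + |(a.2.2 : ℝ)|)) * wt τ a :=
        mul_le_mul_of_nonneg_right h1 (wt_pos _ _).le
    _ = δ⁻¹ * wt (τ + δ) a := by
        unfold wt
        rw [mul_assoc, ← Real.exp_add]
        congr 2
        ring

theorem nn_mop_cauchy (n : ℕ) {τ δ : ℝ} (hδ : 0 < δ) {m : Idx → ℂ}
    (hm : ∀ a, ‖m a‖ ≤ |(a.2.1 : ℝ)| + |(a.2.2 : ℝ)|) (t : ℂ) (f : BB) :
    nn n τ t (mop m f) ≤ δ⁻¹ * nn n (τ + δ) t f := by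
  unfold nn
  rw [← gn_mul_left_weight]
  apply gn_mop_le
  intro a
  split_ifs
  · exact mul_wt_le hδ a _ (hm a)
  · simp

theorem tn_mop_cauchy {τ δ : ℝ} (hδ : 0 < δ) {m : Idx → ℂ}
    (hm : ∀ a, ‖m a‖ ≤ |(a.2.1 : ℝ)| + |(a.2.2 : ℝ)|) (t : ℂ) (f : BB) :
    tn τ t (mop m f) ≤ δ⁻¹ * tn (τ + δ) t f := by
  unfold tn
  rw [← gn_mul_left_weight]
  apply gn_mop_le
  intro a
  exact mul_wt_le hδ a _ (hm a)

theorem Dz_mult_le (a : Idx) : ‖(Complex.I * a.2.1 : ℂ)‖ ≤ |(a.2.1 : ℝ)| + |(a.2.2 : ℝ)| := by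
  rw [norm_mul, Complex.norm_I, one_mul, Complex.norm_intCast]
  linarith [abs_nonneg (a.2.2 : ℝ)]

theorem Dy_mult_le (a : Idx) : ‖(Complex.I * a.2.2 : ℂ)‖ ≤ |(a.2.1 : ℝ)| + |(a.2.2 : ℝ)| := by
  rw [norm_mul, Complex.norm_I, one_mul, Complex.norm_intCast]
  linarith [abs_nonneg (a.2.1 : ℝ)]

theorem nn_Dz_le (n : ℕ) {τ δ : ℝ} (hδ : 0 < δ) (t : ℂ) (f : BB) :
    nn n τ t (Dz f) ≤ δ⁻¹ * nn n (τ + δ) t f := nn_mop_cauchy n hδ Dz_mult_le t f

theorem nn_Dy_le (n : ℕ) {τ δ : ℝ} (hδ : 0 < δ) (t : ℂ) (f : BB) :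
    nn n τ t (Dy f) ≤ δ⁻¹ * nn n (τ + δ) t f := nn_mop_cauchy n hδ Dy_mult_le t f

theorem tn_Dz_le {τ δ : ℝ} (hδ : 0 < δ) (t : ℂ) (f : BB) :
    tn τ t (Dz f) ≤ δ⁻¹ * tn (τ + δ) t f := tn_mop_cauchy hδ Dz_mult_le t f

theorem tn_Dy_le {τ δ : ℝ} (hδ : 0 < δ) (t : ℂ) (f : BB) :
    tn τ t (Dy f) ≤ δ⁻¹ * tn (τ + δ) t f := tn_mop_cauchy hδ Dy_mult_le t f

/-- the bookkeeping element -/
noncomputable def eb : BB := AddMonoidAlgebra.single (1, 0, 0) 1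

theorem nn_eb_mul_zero (τ : ℝ) (hτ : 0 ≤ τ) (t : ℂ) (f : BB) : nn 0 τ t (eb * f) = 0 := by
  apply le_antisymm _ (nn_nonneg _ _ _ _)
  refine (nn_mul_le 0 hτ t eb f).trans ?_
  simp [eb, nn]

theorem nn_eb_mul_succ (n : ℕ) (τ : ℝ) (hτ : 0 ≤ τ) (t : ℂ) (f : BB) :
    nn (n + 1) τ t (eb * f) ≤ nn n τ t f := by
  refine (nn_mul_le (n + 1) hτ t eb f).trans ?_
  have h : ∀ i, nn i τ t eb = if i = 1 then 1 else 0 := by
    intro i
    simp only [nn, eb, gn_single, Polynomial.eval_one, norm_one, one_mul]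
    by_cases hi : i = 1
    · simp [hi, wt]
    · simp [hi, Ne.symm hi]
  simp_rw [h]
  rw [Finset.Nat.sum_antidiagonal_eq_sum_range_succ_mk]
  rw [Finset.sum_eq_single 1]
  · simp
  · intro i _ hi
    simp [hi]
  · intro h1
    simp at h1

theorem gn_le_sum {ι : Type*} (s : Finset ι) {c : Idx → ℝ} {d : ι → Idx → ℝ}
    (h : ∀ a, c a ≤ ∑ i ∈ s, d i a) (t : ℂ) (f : BB) : gn c t f ≤ ∑ i ∈ s, gn (d i) t f := by
  unfold gn
  rw [Finset.sum_comm]
  apply Finset.sum_le_sum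
  intro a _
  rw [← Finset.mul_sum]
  exact mul_le_mul_of_nonneg_left (h a) (norm_nonneg _)

/-- the total norm as a sum over orders -/
theorem tn_eq_sum (τ : ℝ) (t : ℂ) (f : BB) : ∃ N : ℕ, ∀ M, N ≤ M →
    tn τ t f = ∑ n ∈ Finset.range M, nn n τ t f := by
  classical
  refine ⟨f.coeff.support.sup (fun a => a.1) + 1, fun M hM => ?_⟩
  unfold tn nn gn
  rw [Finset.sum_comm]
  apply Finset.sum_congr rfl
  intro a ha
  have h1 : a.1 < M := by
    have : a.1 ≤ f.coeff.support.sup (fun a => a.1) :=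
      Finset.le_sup (f := fun a : Idx => a.1) ha
    omega
  rw [← Finset.mul_sum]
  congr 1
  rw [Finset.sum_ite_eq]
  simp [h1]

end Pool.Agent.EulerInflation
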