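import Pool.Agent.Work.MP_8b4a1b_an.Defs

/-!
Interpolation upper bound and duality lower bound for the `H^s` norm.
-/

open MeasureTheory Set
open scoped ENNReal NNReal ContDiff FourierTransform Real

namespace Pool.Agent.EulerInflation

namespace SobAux

open SchwartzMap LineDeriv

/-- the complex Schwartz function of a real smooth compactly supported function -/
noncomputable def cS {f : EuclideanSpace ℝ (Fin 2) → ℝ} (hf : ContDiff ℝ ∞ f)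
    (hfc : HasCompactSupport f) : 𝓢(EuclideanSpace ℝ (Fin 2), ℂ) :=
  HasCompactSupport.toSchwartzMap (f := fun x => (f x : ℂ))
    (hfc.comp_left (g := fun y : ℝ => (y : ℂ)) Complex.ofReal_zero)
    (Complex.ofRealCLM.contDiff.comp hf)

@[simp] theorem cS_apply {f : EuclideanSpace ℝ (Fin 2) → ℝ} (hf : ContDiff ℝ ∞ f)
    (hfc : HasCompactSupport f) (x : EuclideanSpace ℝ (Fin 2)) : cS hf hfc x = (f x : ℂ) := rfl

/-- the weight -/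
noncomputable def W (ξ : EuclideanSpace ℝ (Fin 2)) : ℝ := 1 + (2 * π * ‖ξ‖) ^ 2

theorem W_pos (ξ : EuclideanSpace ℝ (Fin 2)) : 0 < W ξ := by unfold W; positivity

theorem W_meas : Measurable W := by unfold W; fun_prop

theorem sobSq_schwartz (s : ℝ) (Φ : 𝓢(EuclideanSpace ℝ (Fin 2), ℂ)) :
    sobSq s Φ = ∫⁻ ξ, ENNReal.ofReal (W ξ ^ s) * ‖𝓕 Φ ξ‖ₑ ^ 2 := by
  unfold sobSq
  rw [dif_pos (Φ.memLp 2 volume)]
  apply lintegral_congr_ae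
  have h1 : (𝓕 ((Φ.memLp 2 volume).toLp Φ) : Lp ℂ 2 (volume : Measure (EuclideanSpace ℝ (Fin 2)))) =
      (𝓕 Φ).toLp 2 := SchwartzMap.toLp_fourier_eq Φ
  rw [h1]
  filter_upwards [(𝓕 Φ).coeFn_toLp 2 volume] with ξ hξ
  rw [hξ]
  rfl

theorem lintegral_sq_fourier (Φ : 𝓢(EuclideanSpace ℝ (Fin 2), ℂ)) :
    ∫⁻ ξ, ‖𝓕 Φ ξ‖ₑ ^ 2 = ENNReal.ofReal (∫ x, ‖Φ x‖ ^ 2) := by
  rw [← SchwartzMap.integral_norm_sq_fourier]
  rw [ofReal_integral_eq_lintegral_ofReal]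
  · apply lintegral_congr
    intro ξ
    rw [ENNReal.ofReal_pow (norm_nonneg _), ofReal_norm]
  · have := ((𝓕 Φ).memLp 2 volume)
    exact this.integrable_norm_pow (by norm_num)
  · exact Filter.Eventually.of_forall (fun x => by positivity)

theorem deriv_cS {f : EuclideanSpace ℝ (Fin 2) → ℝ} (hf : ContDiff ℝ ∞ f)
    (hfc : HasCompactSupport f) (j : Fin 2) (x : EuclideanSpace ℝ (Fin 2)) :
    (∂_{(EuclideanSpace.single j 1 : EuclideanSpace ℝ (Fin 2))} (cS hf hfc)) x =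
      (pd j f x : ℂ) := by
  rw [SchwartzMap.lineDerivOp_apply_eq_fderiv]
  have h1 : HasFDerivAt (fun y => (f y : ℂ)) (Complex.ofRealCLM.comp (fderiv ℝ f x)) x :=
    Complex.ofRealCLM.hasFDerivAt.comp x
      ((hf.differentiable (by norm_num)).differentiableAt.hasFDerivAt)
  have h2 : fderiv ℝ (cS hf hfc) x = Complex.ofRealCLM.comp (fderiv ℝ f x) := h1.fderiv
  rw [h2]
  rfl

theorem fourier_deriv (Φ : 𝓢(EuclideanSpace ℝ (Fin 2), ℂ)) (j : Fin 2)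
    (ξ : EuclideanSpace ℝ (Fin 2)) :
    𝓕 (∂_{(EuclideanSpace.single j 1 : EuclideanSpace ℝ (Fin 2))} Φ) ξ =
      (2 * π * Complex.I) * (ξ j : ℂ) * 𝓕 Φ ξ := by
  rw [SchwartzMap.fourier_lineDerivOp_eq]
  have : (inner ℝ · (EuclideanSpace.single j 1 :
    EuclideanSpace ℝ (Fin 2))).HasTemperateGrowth := by fun_prop
  rw [smul_apply, SchwartzMap.smulLeftCLM_apply_apply this]
  rw [EuclideanSpace.inner_single_right]
  simp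
  ring

theorem int_cS {f : EuclideanSpace ℝ (Fin 2) → ℝ} (hf : ContDiff ℝ ∞ f)
    (hfc : HasCompactSupport f) : ∫ x, ‖cS hf hfc x‖ ^ 2 = ∫ x, f x ^ 2 := by
  congr 1
  funext x
  rw [cS_apply, Complex.norm_real, Real.norm_eq_abs, sq_abs]

theorem int_deriv_cS {f : EuclideanSpace ℝ (Fin 2) → ℝ} (hf : ContDiff ℝ ∞ f)
    (hfc : HasCompactSupport f) (j : Fin 2) :
    ∫ x, ‖(∂_{(EuclideanSpace.single j 1 : EuclideanSpace ℝ (Fin 2))} (cS hf hfc)) x‖ ^ 2 =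
      ∫ x, pd j f x ^ 2 := by
  congr 1
  funext x
  rw [deriv_cS, Complex.norm_real, Real.norm_eq_abs, sq_abs]

theorem fourier_meas (Φ : 𝓢(EuclideanSpace ℝ (Fin 2), ℂ)) :
    Measurable (fun ξ => ‖𝓕 Φ ξ‖ₑ ^ 2) := by
  have : Continuous (fun ξ => 𝓕 Φ ξ) := (𝓕 Φ).continuous
  fun_prop

theorem pointwise_W (F : ℂ) (ξ : EuclideanSpace ℝ (Fin 2)) :
    ENNReal.ofReal (W ξ) * ‖F‖ₑ ^ 2 = ‖F‖ₑ ^ 2 +
      (‖(2 * π * Complex.I) * (ξ 0 : ℂ) * F‖ₑ ^ 2 + ‖(2 * π * Complex.I) * (ξ 1 : ℂ) * F‖ₑ ^ 2) := by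
  have e : ∀ z : ℂ, ‖z‖ₑ ^ 2 = ENNReal.ofReal (‖z‖ ^ 2) := by
    intro z
    rw [ENNReal.ofReal_pow (norm_nonneg _), ofReal_norm]
  rw [e, e, e, ← ENNReal.ofReal_mul (W_pos ξ).le, ← ENNReal.ofReal_add (by positivity)
    (by positivity), ← ENNReal.ofReal_add (by positivity) (by positivity)]
  congr 1
  unfold W
  have h2 : ‖ξ‖ ^ 2 = ξ 0 ^ 2 + ξ 1 ^ 2 := by
    rw [EuclideanSpace.norm_sq_eq, Fin.sum_univ_two, Real.norm_eq_abs, Real.norm_eq_abs, sq_abs,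
      sq_abs]
  rw [mul_pow, h2]
  simp only [norm_mul, Complex.norm_real, Complex.norm_I, Real.norm_eq_abs, Complex.norm_ofNat,
    mul_one, mul_pow, sq_abs]
  ring

theorem lintegral_W {f : EuclideanSpace ℝ (Fin 2) → ℝ} (hf : ContDiff ℝ ∞ f)
    (hfc : HasCompactSupport f) :
    ∫⁻ ξ, ENNReal.ofReal (W ξ) * ‖𝓕 (cS hf hfc) ξ‖ₑ ^ 2 =
      ENNReal.ofReal ((∫ x, f x ^ 2) + (∫ x, pd 0 f x ^ 2) + (∫ x, pd 1 f x ^ 2)) := by
  have h1 : ∀ ξ, ENNReal.ofReal (W ξ) * ‖𝓕 (cS hf hfc) ξ‖ₑ ^ 2 =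
      ‖𝓕 (cS hf hfc) ξ‖ₑ ^ 2 +
      (‖𝓕 (∂_{(EuclideanSpace.single 0 1 : EuclideanSpace ℝ (Fin 2))} (cS hf hfc)) ξ‖ₑ ^ 2 +
       ‖𝓕 (∂_{(EuclideanSpace.single 1 1 : EuclideanSpace ℝ (Fin 2))} (cS hf hfc)) ξ‖ₑ ^ 2) := by
    intro ξ
    rw [pointwise_W, fourier_deriv, fourier_deriv]
  simp_rw [h1]
  rw [lintegral_add_left (fourier_meas _), lintegral_add_left (fourier_meas _),
    lintegral_sq_fourier, lintegral_sq_fourier, lintegral_sq_fourier, int_cS, int_deriv_cS,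
    int_deriv_cS, ← ENNReal.ofReal_add, ← ENNReal.ofReal_add, add_assoc]
  · exact integral_nonneg (fun x => by positivity)
  · exact add_nonneg (integral_nonneg (fun x => by positivity))
      (integral_nonneg (fun x => by positivity))
  · exact integral_nonneg (fun x => by positivity)
  · exact integral_nonneg (fun x => by positivity)

end SobAux

open SobAux SchwartzMap LineDeriv

theorem sobSq_le {s : ℝ} (hs : 0 < s) (hs1 : s < 1) {f : EuclideanSpace ℝ (Fin 2) → ℝ}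
    (hf : ContDiff ℝ ∞ f) (hfc : HasCompactSupport f) {A B : ℝ} (hA : ∫ x, f x ^ 2 ≤ A)
    (hB : (∫ x, f x ^ 2) + (∫ x, pd 0 f x ^ 2) + (∫ x, pd 1 f x ^ 2) ≤ B) :
    sobSq s (fun x => (f x : ℂ)) ≤ ENNReal.ofReal (A ^ (1 - s) * B ^ s) := by
  have h0 : (fun x => (f x : ℂ)) = (cS hf hfc : EuclideanSpace ℝ (Fin 2) → ℂ) := rfl
  have hA0 : 0 ≤ A := le_trans (integral_nonneg (fun x => by positivity)) hA
  have hB0 : 0 ≤ B := le_trans (add_nonneg (add_nonneg (integral_nonneg (fun x => by positivity))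
    (integral_nonneg (fun x => by positivity))) (integral_nonneg (fun x => by positivity))) hB
  rw [h0, sobSq_schwartz]
  have h1 : ∀ ξ, ENNReal.ofReal (W ξ ^ s) * ‖𝓕 (cS hf hfc) ξ‖ₑ ^ 2 =
      (‖𝓕 (cS hf hfc) ξ‖ₑ ^ 2) ^ (1 - s) *
        (ENNReal.ofReal (W ξ) * ‖𝓕 (cS hf hfc) ξ‖ₑ ^ 2) ^ s := by
    intro ξ
    rw [ENNReal.mul_rpow_of_nonneg _ _ hs.le, ENNReal.ofReal_rpow_of_pos (W_pos ξ)]
    rw [mul_left_comm, ← ENNReal.rpow_add_of_nonneg _ _ (by linarith) hs.le, sub_add_cancel,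
      ENNReal.rpow_one]
  simp_rw [h1]
  refine (ENNReal.lintegral_mul_norm_pow_le (fourier_meas _).aemeasurable
    ((W_meas.ennreal_ofReal.mul (fourier_meas _)).aemeasurable) (by linarith) hs.le
    (by ring)).trans ?_
  simp only [Pi.mul_apply]
  rw [lintegral_sq_fourier, lintegral_W, int_cS]
  rw [ENNReal.ofReal_mul (Real.rpow_nonneg hA0 _), ← ENNReal.ofReal_rpow_of_nonneg hA0
    (by linarith), ← ENNReal.ofReal_rpow_of_nonneg hB0 hs.le]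
  gcongr



theorem pairing_sq_le {s : ℝ} (hs : 0 < s) (hs1 : s < 1)
    {g f₁ f₂ : EuclideanSpace ℝ (Fin 2) → ℝ}
    (hg : MemLp g 2 volume)
    (hf₁ : ContDiff ℝ ∞ f₁) (hfc₁ : HasCompactSupport f₁)
    (hf₂ : ContDiff ℝ ∞ f₂) (hfc₂ : HasCompactSupport f₂) {A B : ℝ}
    (hA : ∫ x, (pd 0 f₁ x + f₂ x) ^ 2 ≤ A)
    (hB : 2 * ((∫ x, f₁ x ^ 2) + (∫ x, f₂ x ^ 2)) ≤ B) :
    ENNReal.ofReal ((∫ x, g x * (pd 0 f₁ x + f₂ x)) ^ 2) ≤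
      sobSq s (fun x => (g x : ℂ)) * ENNReal.ofReal (A ^ (1 - s) * B ^ s) := by
  have hA0 : 0 ≤ A := le_trans (integral_nonneg (fun x => by positivity)) hA
  have hB0 : 0 ≤ B := le_trans (mul_nonneg (by norm_num)
    (add_nonneg (integral_nonneg (fun x => by positivity))
    (integral_nonneg (fun x => by positivity)))) hB
  have hgc : MemLp (fun x => (g x : ℂ)) 2 volume := hg.ofReal
  set F₁ := cS hf₁ hfc₁ with hF₁
  set F₂ := cS hf₂ hfc₂ with hF₂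
  set Φ : 𝓢(EuclideanSpace ℝ (Fin 2), ℂ) :=
    ∂_{(EuclideanSpace.single 0 1 : EuclideanSpace ℝ (Fin 2))} F₁ + F₂ with hΦ
  have hΦx : ∀ x, Φ x = ((pd 0 f₁ x + f₂ x : ℝ) : ℂ) := by
    intro x
    rw [hΦ, add_apply, hF₁, deriv_cS, hF₂, cS_apply]
    push_cast
    rfl
  set G : Lp ℂ 2 (volume : Measure (EuclideanSpace ℝ (Fin 2))) := 𝓕 (hgc.toLp _) with hG
  -- the pairing as an inner product on the Fourier side
  have h1 : ((∫ x, g x * (pd 0 f₁ x + f₂ x) : ℝ) : ℂ) =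
      ∫ ξ, inner ℂ (G ξ) (𝓕 Φ ξ) := by
    have e1 : (inner ℂ (hgc.toLp _) (Φ.toLp 2) : ℂ) = ((∫ x, g x * (pd 0 f₁ x + f₂ x) : ℝ) : ℂ) := by
      rw [L2.inner_def, ← integral_complex_ofReal]
      apply integral_congr_ae
      filter_upwards [hgc.coeFn_toLp, Φ.coeFn_toLp 2 volume] with x h1 h2
      rw [h1, h2, hΦx]
      simp
      ring
    have e2 : (inner ℂ G (𝓕 (Φ.toLp 2)) : ℂ) = inner ℂ (hgc.toLp _) (Φ.toLp 2) :=
      Lp.inner_fourier_eq _ _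
    rw [← e1, ← e2, SchwartzMap.toLp_fourier_eq, L2.inner_def]
    apply integral_congr_ae
    filter_upwards [(𝓕 Φ).coeFn_toLp 2 volume] with x h2
    rw [h2]
  have h2 : ENNReal.ofReal ((∫ x, g x * (pd 0 f₁ x + f₂ x)) ^ 2) ≤
      (∫⁻ ξ, ‖G ξ‖ₑ * ‖𝓕 Φ ξ‖ₑ) ^ 2 := by
    have e1 : ENNReal.ofReal ((∫ x, g x * (pd 0 f₁ x + f₂ x)) ^ 2) =
        ‖((∫ x, g x * (pd 0 f₁ x + f₂ x) : ℝ) : ℂ)‖ₑ ^ 2 := by
      rw [← sq_abs, ENNReal.ofReal_pow (abs_nonneg _), ← Real.norm_eq_abs, ← Complex.norm_real,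
        ofReal_norm]
    rw [e1, h1]
    gcongr
    refine (enorm_integral_le_lintegral_enorm _).trans ?_
    apply lintegral_mono
    intro ξ
    simp only
    have := norm_inner_le_norm (𝕜 := ℂ) (G ξ) (𝓕 Φ ξ)
    rw [← ofReal_norm, ← ofReal_norm (G ξ), ← ofReal_norm (𝓕 Φ ξ),
      ← ENNReal.ofReal_mul (norm_nonneg _)]
    exact ENNReal.ofReal_le_ofReal this
  refine h2.trans ?_
  have hGm : AEMeasurable (fun ξ => ‖G ξ‖ₑ ^ 2) volume :=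
    ((Lp.aestronglyMeasurable G).enorm).pow_const 2
  have hWs : ∀ t : ℝ, Measurable (fun ξ => ENNReal.ofReal (W ξ ^ t)) := by
    intro t
    exact (W_meas.pow_const t).ennreal_ofReal
  have h3 : ∀ ξ, ‖G ξ‖ₑ * ‖𝓕 Φ ξ‖ₑ =
      (ENNReal.ofReal (W ξ ^ s) * ‖G ξ‖ₑ ^ 2) ^ (1 / 2 : ℝ) *
      (ENNReal.ofReal (W ξ ^ (-s)) * ‖𝓕 Φ ξ‖ₑ ^ 2) ^ (1 / 2 : ℝ) := by
    intro ξ
    rw [← ENNReal.mul_rpow_of_nonneg _ _ (by norm_num)]
    have e1 : ENNReal.ofReal (W ξ ^ s) * ‖G ξ‖ₑ ^ 2 *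
        (ENNReal.ofReal (W ξ ^ (-s)) * ‖𝓕 Φ ξ‖ₑ ^ 2) = (‖G ξ‖ₑ * ‖𝓕 Φ ξ‖ₑ) ^ 2 := by
      have e2 : ENNReal.ofReal (W ξ ^ s) * ENNReal.ofReal (W ξ ^ (-s)) = 1 := by
        rw [← ENNReal.ofReal_mul (Real.rpow_nonneg (W_pos ξ).le _), ← Real.rpow_add (W_pos ξ),
          add_neg_cancel, Real.rpow_zero, ENNReal.ofReal_one]
      calc _ = (ENNReal.ofReal (W ξ ^ s) * ENNReal.ofReal (W ξ ^ (-s))) *
          (‖G ξ‖ₑ * ‖𝓕 Φ ξ‖ₑ) ^ 2 := by ring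
        _ = _ := by rw [e2, one_mul]
    rw [e1, ← ENNReal.rpow_natCast, ← ENNReal.rpow_mul]
    norm_num
  have h4 : (∫⁻ ξ, ‖G ξ‖ₑ * ‖𝓕 Φ ξ‖ₑ) ^ 2 ≤
      (∫⁻ ξ, ENNReal.ofReal (W ξ ^ s) * ‖G ξ‖ₑ ^ 2) *
        (∫⁻ ξ, ENNReal.ofReal (W ξ ^ (-s)) * ‖𝓕 Φ ξ‖ₑ ^ 2) := by
    simp_rw [h3]
    have := ENNReal.lintegral_mul_norm_pow_le (μ := volume)
      (f := fun ξ => ENNReal.ofReal (W ξ ^ s) * ‖G ξ‖ₑ ^ 2)
      (g := fun ξ => ENNReal.ofReal (W ξ ^ (-s)) * ‖𝓕 Φ ξ‖ₑ ^ 2)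
      ((hWs s).aemeasurable.mul hGm) (((hWs (-s)).mul (fourier_meas Φ)).aemeasurable)
      (p := 1 / 2) (q := 1 / 2) (by norm_num) (by norm_num) (by norm_num)
    refine (pow_le_pow_left' this 2).trans (le_of_eq ?_)
    rw [mul_pow, ← ENNReal.rpow_natCast, ← ENNReal.rpow_mul, ← ENNReal.rpow_natCast,
      ← ENNReal.rpow_mul]
    norm_num
  refine h4.trans ?_
  have h5 : ∫⁻ ξ, ENNReal.ofReal (W ξ ^ s) * ‖G ξ‖ₑ ^ 2 = sobSq s (fun x => (g x : ℂ)) := by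
    unfold sobSq
    rw [dif_pos hgc]
    rfl
  rw [h5]
  gcongr
  -- the dual norm
  have h6 : ∀ ξ, ENNReal.ofReal (W ξ ^ (-s)) * ‖𝓕 Φ ξ‖ₑ ^ 2 =
      (‖𝓕 Φ ξ‖ₑ ^ 2) ^ (1 - s) *
        (ENNReal.ofReal (W ξ ^ (-1 : ℝ)) * ‖𝓕 Φ ξ‖ₑ ^ 2) ^ s := by
    intro ξ
    rw [ENNReal.mul_rpow_of_nonneg _ _ hs.le, ENNReal.ofReal_rpow_of_nonneg
      (Real.rpow_nonneg (W_pos ξ).le _) hs.le, ← Real.rpow_mul (W_pos ξ).le, neg_one_mul]
    rw [mul_left_comm, ← ENNReal.rpow_add_of_nonneg _ _ (by linarith) hs.le, sub_add_cancel,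
      ENNReal.rpow_one]
  simp_rw [h6]
  refine (ENNReal.lintegral_mul_norm_pow_le (fourier_meas _).aemeasurable
    (((hWs (-1)).mul (fourier_meas _)).aemeasurable) (by linarith) hs.le
    (by ring)).trans ?_
  simp only [Pi.mul_apply]
  rw [ENNReal.ofReal_mul (Real.rpow_nonneg hA0 _), ← ENNReal.ofReal_rpow_of_nonneg hA0
    (by linarith), ← ENNReal.ofReal_rpow_of_nonneg hB0 hs.le]
  have h7 : ∫⁻ ξ, ‖𝓕 Φ ξ‖ₑ ^ 2 ≤ ENNReal.ofReal A := by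
    rw [lintegral_sq_fourier]
    apply ENNReal.ofReal_le_ofReal
    refine le_trans (le_of_eq ?_) hA
    congr 1
    funext x
    rw [hΦx, Complex.norm_real, Real.norm_eq_abs, sq_abs]
  have h8 : ∫⁻ ξ, ENNReal.ofReal (W ξ ^ (-1 : ℝ)) * ‖𝓕 Φ ξ‖ₑ ^ 2 ≤ ENNReal.ofReal B := by
    have e1 : ∀ ξ, ENNReal.ofReal (W ξ ^ (-1 : ℝ)) * ‖𝓕 Φ ξ‖ₑ ^ 2 ≤
        2 * (‖𝓕 F₁ ξ‖ₑ ^ 2 + ‖𝓕 F₂ ξ‖ₑ ^ 2) := by
      intro ξ
      have e2 : 𝓕 Φ ξ = (2 * π * Complex.I) * (ξ 0 : ℂ) * 𝓕 F₁ ξ + 𝓕 F₂ ξ := by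
        rw [hΦ, FourierTransform.fourier_add, add_apply, fourier_deriv]
      have e : ∀ z : ℂ, ‖z‖ₑ ^ 2 = ENNReal.ofReal (‖z‖ ^ 2) := by
        intro z
        rw [ENNReal.ofReal_pow (norm_nonneg _), ofReal_norm]
      have e4 : ∀ y : ℝ, (2 : ℝ≥0∞) * ENNReal.ofReal y = ENNReal.ofReal (2 * y) := by
        intro y
        rw [ENNReal.ofReal_mul (by norm_num)]
        norm_num
      rw [e2, e, e, e, ← ENNReal.ofReal_add (by positivity) (by positivity), e4,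
        ← ENNReal.ofReal_mul (Real.rpow_nonneg (W_pos ξ).le _)]
      apply ENNReal.ofReal_le_ofReal
      rw [Real.rpow_neg_one, inv_mul_le_iff₀ (W_pos ξ)]
      have n1 : ‖(2 * π * Complex.I) * (ξ 0 : ℂ) * 𝓕 F₁ ξ + 𝓕 F₂ ξ‖ ≤
          (2 * π * |ξ 0|) * ‖𝓕 F₁ ξ‖ + ‖𝓕 F₂ ξ‖ := by
        refine (norm_add_le _ _).trans ?_
        apply le_of_eq
        simp only [norm_mul, Complex.norm_real, Complex.norm_I, Real.norm_eq_abs,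
          Complex.norm_ofNat, mul_one, abs_of_pos Real.pi_pos]
      have n2 : ξ 0 ^ 2 ≤ ‖ξ‖ ^ 2 := by
        rw [EuclideanSpace.norm_sq_eq, Fin.sum_univ_two, Real.norm_eq_abs, Real.norm_eq_abs, sq_abs,
          sq_abs]
        nlinarith [sq_nonneg (ξ 1)]
      have n3 : (2 * π * |ξ 0|) ^ 2 ≤ (2 * π * ‖ξ‖) ^ 2 := by
        rw [mul_pow, mul_pow (2 * π) ‖ξ‖, sq_abs]
        gcongr
      have n4 : 0 ≤ ‖(2 * π * Complex.I) * (ξ 0 : ℂ) * 𝓕 F₁ ξ + 𝓕 F₂ ξ‖ := norm_nonneg _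
      have n5 : ‖(2 * π * Complex.I) * (ξ 0 : ℂ) * 𝓕 F₁ ξ + 𝓕 F₂ ξ‖ ^ 2 ≤
          ((2 * π * |ξ 0|) * ‖𝓕 F₁ ξ‖ + ‖𝓕 F₂ ξ‖) ^ 2 := by gcongr
      refine n5.trans ?_
      unfold W
      set a := 2 * π * |ξ 0|
      set w := 2 * π * ‖ξ‖
      set p := ‖𝓕 F₁ ξ‖
      set q := ‖𝓕 F₂ ξ‖
      nlinarith [sq_nonneg (a * p - q), mul_nonneg (sub_nonneg.mpr n3) (sq_nonneg p), sq_nonneg p,
        sq_nonneg q, mul_nonneg (sq_nonneg w) (sq_nonneg q)]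
    refine (lintegral_mono e1).trans ?_
    rw [lintegral_const_mul (2 : ℝ≥0∞) (f := fun ξ => ‖𝓕 F₁ ξ‖ₑ ^ 2 + ‖𝓕 F₂ ξ‖ₑ ^ 2)
        ((fourier_meas F₁).add (fourier_meas F₂)),
      lintegral_add_left (fourier_meas _), lintegral_sq_fourier, lintegral_sq_fourier, hF₁, hF₂,
      int_cS, int_cS, ← ENNReal.ofReal_add (integral_nonneg (fun x => by positivity))
        (integral_nonneg (fun x => by positivity))]
    have e4 : ∀ y : ℝ, (2 : ℝ≥0∞) * ENNReal.ofReal y = ENNReal.ofReal (2 * y) := by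
      intro y
      rw [ENNReal.ofReal_mul (by norm_num)]
      norm_num
    rw [e4]
    exact ENNReal.ofReal_le_ofReal hB
  gcongr

end Pool.Agent.EulerInflation
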