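import Pool.Agent.Work.MP_8b4a1b_an.Fixed

/-!
Invariants of the iteration: bounds, zero mean, reality.
-/

open Polynomial

namespace Pool.Agent.EulerInflation

/-- reflection of the frequencies -/
def rfx : Idx →+ Idx where
  toFun a := (a.1, -a.2.1, -a.2.2)
  map_zero' := by simp
  map_add' a b := by
    ext <;> simp [add_comm]

/-- complex conjugation -/
noncomputable def cj : BB →+* BB :=
  (AddMonoidAlgebra.mapDomainRingHom ℂ[X] rfx).comp
    (AddMonoidAlgebra.mapRingHom Idx (Polynomial.mapRingHom (starRingEnd ℂ)))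

theorem cj_single (a : Idx) (p : ℂ[X]) :
    cj (AddMonoidAlgebra.single a p) =
      AddMonoidAlgebra.single (rfx a) (p.map (starRingEnd ℂ)) := by
  simp [cj]

theorem cj_op {φ : Idx → (ℂ[X] →ₗ[ℂ] ℂ[X])}
    (h : ∀ a p, (φ a p).map (starRingEnd ℂ) = φ (rfx a) (p.map (starRingEnd ℂ))) (f : BB) :
    cj (op φ f) = op φ (cj f) := by
  induction f using AddMonoidAlgebra.induction_linear with
  | zero => simp
  | add x y hx hy => rw [map_add, map_add, hx, hy, map_add, map_add]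
  | single a p => rw [op_single, cj_single, cj_single, op_single, h]

theorem cj_mop {c : Idx → ℂ} (h : ∀ a, starRingEnd ℂ (c a) = c (rfx a)) (f : BB) :
    cj (mop c f) = mop c (cj f) := by
  apply cj_op
  intro a p
  simp only [LinearMap.smul_apply, LinearMap.id_apply]
  rw [Polynomial.map_smul, h]

theorem cj_smul (x : ℂ) (f : BB) : cj (x • f) = (starRingEnd ℂ x) • cj f := by
  induction f using AddMonoidAlgebra.induction_linear with
  | zero => simp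
  | add x y hx hy => rw [smul_add, map_add, hx, hy, map_add, smul_add]
  | single a p =>
    rw [AddMonoidAlgebra.smul_single, cj_single, cj_single, AddMonoidAlgebra.smul_single,
      Polynomial.map_smul]

theorem cj_smul_real (x : ℝ) (f : BB) : cj ((x : ℂ) • f) = (x : ℂ) • cj f := by
  rw [cj_smul, Complex.conj_ofReal]

theorem cj_Dz (f : BB) : cj (Dz f) = Dz (cj f) := by
  apply cj_mop
  intro a
  simp [rfx]

theorem cj_Dy (f : BB) : cj (Dy f) = Dy (cj f) := by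
  apply cj_mop
  intro a
  simp [rfx]

theorem cj_Iz (f : BB) : cj (Iz f) = Iz (cj f) := by
  apply cj_mop
  intro a
  simp [rfx]

theorem cj_Mn (f : BB) : cj (Mn f) = Mn (cj f) := by
  apply cj_mop
  intro a
  by_cases h : a.2.1 = 0 <;> simp [rfx, h]

theorem cj_tr (K : ℕ) (f : BB) : cj (tr K f) = tr K (cj f) := by
  apply cj_mop
  intro a
  by_cases h : a.1 ≤ K <;> simp [rfx, h]

theorem integ_map (p : ℂ[X]) :
    (integ p).map (starRingEnd ℂ) = integ (p.map (starRingEnd ℂ)) := by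
  induction p using Polynomial.induction_on' with
  | add p q hp hq => rw [map_add, Polynomial.map_add, hp, hq, Polynomial.map_add, map_add]
  | monomial n c =>
    rw [integ_monomial, Polynomial.map_monomial, Polynomial.map_monomial, integ_monomial]
    simp

theorem cj_It (f : BB) : cj (It f) = It (cj f) := by
  apply cj_op
  intro a p
  exact integ_map p

theorem cj_Dt (f : BB) : cj (Dt f) = Dt (cj f) := by
  apply cj_op
  intro a p
  exact (Polynomial.derivative_map p (starRingEnd ℂ)).symm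

/-- real elements -/
def Rl (f : BB) : Prop := cj f = f

theorem Rl.add {f g : BB} (hf : Rl f) (hg : Rl g) : Rl (f + g) := by
  unfold Rl at *; rw [map_add, hf, hg]
theorem Rl.sub {f g : BB} (hf : Rl f) (hg : Rl g) : Rl (f - g) := by
  unfold Rl at *; rw [map_sub, hf, hg]
theorem Rl.neg {f : BB} (hf : Rl f) : Rl (-f) := by
  unfold Rl at *; rw [map_neg, hf]
theorem Rl.mul {f g : BB} (hf : Rl f) (hg : Rl g) : Rl (f * g) := by
  unfold Rl at *; rw [map_mul, hf, hg]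
theorem Rl.pow {f : BB} (hf : Rl f) (n : ℕ) : Rl (f ^ n) := by
  unfold Rl at *; rw [map_pow, hf]
theorem Rl.smul {f : BB} (hf : Rl f) (x : ℝ) : Rl ((x : ℂ) • f) := by
  unfold Rl at *; rw [cj_smul_real, hf]
theorem Rl.dz {f : BB} (hf : Rl f) : Rl (Dz f) := by unfold Rl at *; rw [cj_Dz, hf]
theorem Rl.dy {f : BB} (hf : Rl f) : Rl (Dy f) := by unfold Rl at *; rw [cj_Dy, hf]
theorem Rl.iz {f : BB} (hf : Rl f) : Rl (Iz f) := by unfold Rl at *; rw [cj_Iz, hf]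
theorem Rl.mn {f : BB} (hf : Rl f) : Rl (Mn f) := by unfold Rl at *; rw [cj_Mn, hf]
theorem Rl.tr {f : BB} (hf : Rl f) (K : ℕ) : Rl (tr K f) := by unfold Rl at *; rw [cj_tr, hf]
theorem Rl.it {f : BB} (hf : Rl f) : Rl (It f) := by unfold Rl at *; rw [cj_It, hf]
theorem Rl.dt {f : BB} (hf : Rl f) : Rl (Dt f) := by unfold Rl at *; rw [cj_Dt, hf]
theorem Rl_zero : Rl 0 := by unfold Rl; simp
theorem Rl_one : Rl 1 := by unfold Rl; simp
theorem Rl_sum {ι : Type*} (s : Finset ι) (f : ι → BB) (h : ∀ i ∈ s, Rl (f i)) :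
    Rl (∑ i ∈ s, f i) := by
  unfold Rl
  rw [map_sum]
  exact Finset.sum_congr rfl h

theorem Rl_cosy : Rl cosy := by
  have h2 : (starRingEnd ℂ) 2 = 2 := map_ofNat (starRingEnd ℂ) 2
  unfold Rl cosy
  rw [map_add, cj_single, cj_single, add_comm]
  simp [rfx, h2]

theorem Rl_Th0 : Rl Th0 := by
  have h2 : (starRingEnd ℂ) 2 = 2 := map_ofNat (starRingEnd ℂ) 2
  unfold Rl Th0
  rw [map_add, cj_single, cj_single, add_comm]
  simp [rfx, h2]

theorem Rl_w0 : Rl w0 := by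
  have h2 : (starRingEnd ℂ) 2 = 2 := map_ofNat (starRingEnd ℂ) 2
  unfold Rl w0
  rw [map_add, cj_single, cj_single, add_comm]
  simp [rfx, h2]

theorem Rl_eb : Rl eb := by
  unfold Rl eb
  rw [cj_single]
  simp [rfx]

theorem Rl_SS : Rl SS := Rl_one.add (Rl_Th0.mul Rl_Th0)

theorem Rl_sg (T : ℝ) (N : ℕ) : Rl (sg T N) := by
  unfold sg
  rw [← Complex.ofReal_inv]
  apply Rl.smul
  apply Rl_sum
  intro i _
  exact (Rl_one.sub (Rl_SS.smul _)).pow i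

/-! zero mean and independence of `Z` -/

theorem ZI.add {f g : BB} (hf : ZI f) (hg : ZI g) : ZI (f + g) := by
  unfold ZI at *; rw [map_add, hf, hg]
theorem ZI.sub {f g : BB} (hf : ZI f) (hg : ZI g) : ZI (f - g) := by
  unfold ZI at *; rw [map_sub, hf, hg]
theorem ZI.neg {f : BB} (hf : ZI f) : ZI (-f) := by
  unfold ZI at *; rw [map_neg, hf]
theorem ZI.smul {f : BB} (hf : ZI f) (x : ℂ) : ZI (x • f) := by
  unfold ZI at *; rw [map_smul, hf]
theorem ZI.mul {f g : BB} (hf : ZI f) (hg : ZI g) : ZI (f * g) := by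
  have := Mn_ZI_mul hf g
  unfold ZI at *; rw [this, hg]
theorem ZI.dy {f : BB} (hf : ZI f) : ZI (Dy f) := by
  unfold ZI at *
  have : Mn (Dy f) = Dy (Mn f) := mop_comm _ _ _
  rw [this, hf]
theorem ZI.it {f : BB} (hf : ZI f) : ZI (It f) := by
  unfold ZI at *
  have : Mn (It f) = It (Mn f) := (mop_It _ _).symm
  rw [this, hf]
theorem ZI.dt {f : BB} (hf : ZI f) : ZI (Dt f) := by
  unfold ZI at *
  have : Mn (Dt f) = Dt (Mn f) := (mop_Dt _ _).symm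
  rw [this, hf]
theorem ZI.trc {f : BB} (hf : ZI f) (K : ℕ) : ZI (tr K f) := by
  unfold ZI at *
  have : Mn (tr K f) = tr K (Mn f) := mop_comm _ _ _
  rw [this, hf]
theorem ZI_Mn (f : BB) : ZI (Mn f) := Mn_Mn f
theorem ZI_zero : ZI 0 := by unfold ZI; simp
theorem ZI_one : ZI 1 := by
  unfold ZI
  rw [AddMonoidAlgebra.one_def, Mn, mop_single]
  simp
theorem ZI_sum {ι : Type*} (s : Finset ι) (f : ι → BB) (h : ∀ i ∈ s, ZI (f i)) :
    ZI (∑ i ∈ s, f i) := by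
  unfold ZI
  rw [map_sum]
  exact Finset.sum_congr rfl h
theorem ZI.pow {f : BB} (hf : ZI f) (n : ℕ) : ZI (f ^ n) := by
  induction n with
  | zero => rw [pow_zero]; exact ZI_one
  | succ n ih => rw [pow_succ]; exact ih.mul hf
theorem ZI_single (n : ℕ) (k : ℤ) (p : ℂ[X]) : ZI (AddMonoidAlgebra.single (n, 0, k) p) := by
  unfold ZI
  rw [Mn, mop_single]
  simp
theorem ZI_cosy : ZI cosy := (ZI_single _ _ _).add (ZI_single _ _ _)
theorem ZI_Th0 : ZI Th0 := (ZI_single _ _ _).add (ZI_single _ _ _)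
theorem ZI_eb : ZI eb := ZI_single _ _ _
theorem ZI_SS : ZI SS := ZI_one.add (ZI_Th0.mul ZI_Th0)
theorem ZI_sg (T : ℝ) (N : ℕ) : ZI (sg T N) :=
  (ZI_sum _ _ fun _ _ => (ZI_one.sub (ZI_SS.smul _)).pow _).smul _

theorem MZ.add {f g : BB} (hf : MZ f) (hg : MZ g) : MZ (f + g) := by
  unfold MZ at *; rw [map_add, hf, hg, add_zero]
theorem MZ.sub {f g : BB} (hf : MZ f) (hg : MZ g) : MZ (f - g) := by
  unfold MZ at *; rw [map_sub, hf, hg, sub_zero]
theorem MZ.neg {f : BB} (hf : MZ f) : MZ (-f) := by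
  unfold MZ at *; rw [map_neg, hf, neg_zero]
theorem MZ.smul {f : BB} (hf : MZ f) (x : ℂ) : MZ (x • f) := by
  unfold MZ at *; rw [map_smul, hf, smul_zero]
theorem ZI.mul_MZ {z f : BB} (hz : ZI z) (hf : MZ f) : MZ (z * f) := by
  have := Mn_ZI_mul hz f
  unfold MZ at *; rw [this, hf, mul_zero]
theorem MZ.mul_ZI {z f : BB} (hf : MZ f) (hz : ZI z) : MZ (f * z) := by
  rw [mul_comm]; exact hz.mul_MZ hf
theorem MZ.dy {f : BB} (hf : MZ f) : MZ (Dy f) := by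
  unfold MZ at *
  have : Mn (Dy f) = Dy (Mn f) := mop_comm _ _ _
  rw [this, hf, map_zero]
theorem MZ.it {f : BB} (hf : MZ f) : MZ (It f) := by
  unfold MZ at *
  have : Mn (It f) = It (Mn f) := (mop_It _ _).symm
  rw [this, hf, map_zero]
theorem MZ.dt {f : BB} (hf : MZ f) : MZ (Dt f) := by
  unfold MZ at *
  have : Mn (Dt f) = Dt (Mn f) := (mop_Dt _ _).symm
  rw [this, hf, map_zero]
theorem MZ.trc {f : BB} (hf : MZ f) (K : ℕ) : MZ (tr K f) := by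
  unfold MZ at *
  have : Mn (tr K f) = tr K (Mn f) := mop_comm _ _ _
  rw [this, hf, map_zero]
theorem MZ_Iz (f : BB) : MZ (Iz f) := Mn_Iz f
theorem MZ_Dz (f : BB) : MZ (Dz f) := Mn_Dz f
theorem MZ_zero : MZ 0 := by unfold MZ; simp
theorem MZ_w0 : MZ w0 := by
  unfold MZ w0
  rw [map_add, Mn, mop_single, mop_single]
  simp
theorem MZ_sub_Mn (f : BB) : MZ (f - Mn f) := by
  unfold MZ
  rw [map_sub, Mn_Mn, sub_self]

/-- the invariants -/
structure Inv (T κ : ℝ) (s : St) : Prop where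
  ha : Bd T 0 0 3 160 s.a
  hw : Bd T 0 0 3 4 s.w
  hψ : Bd T 0 4 4 (κ * A1 T) s.ψ
  hθ : Bd T 1 2 3 (κ * A2 T) s.θ
  ma : MZ s.a
  mw : MZ s.w
  zψ : ZI s.ψ
  zθ : ZI s.θ
  ra : Rl s.a
  rw' : Rl s.w
  rψ : Rl s.ψ
  rθ : Rl s.θ

theorem ZI_Xψ (h μ : ℝ) (a θ : BB) : ZI (Xψ h μ a θ) := by
  unfold Xψ G1 G2
  apply ZI.smul
  apply ZI.sub
  · exact ZI_eb.mul (ZI_eb.mul (ZI_Mn _).it)
  · exact (ZI_eb.mul (ZI_eb.mul (ZI_Mn _).it)).smul _

theorem Rl_Xψ (h μ : ℝ) {a θ : BB} (ha : Rl a) (hθ : Rl θ) : Rl (Xψ h μ a θ) := by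
  unfold Xψ G1 G2
  apply Rl.smul
  apply Rl.sub
  · exact Rl_eb.mul (Rl_eb.mul (ha.iz.mul ((Rl_Th0.add hθ).mul ha.iz)).mn.it)
  · exact (Rl_eb.mul (Rl_eb.mul (ha.iz.mul (Rl_eb.mul ha.iz.iz.dy)).mn.it)).smul _

theorem MZ_Xw (h μ : ℝ) {a w ψ : BB} (hψ : ZI ψ) : MZ (Xw h μ a w ψ) := by
  unfold Xw H1 H2 H3
  refine ((MZ_w0.sub ?_).sub ?_).sub ?_
  · exact (ZI_eb.mul_MZ ((MZ_Iz _).mul_ZI ZI_cosy.dy.dy.dy).it).smul _
  · exact (ZI_eb.mul_MZ ((MZ_Iz _).mul_ZI hψ.dy.dy.dy).it).smul _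
  · exact (ZI_eb.mul_MZ (MZ_sub_Mn _).it).smul _

theorem Rl_Xw (h μ : ℝ) {a w ψ : BB} (ha : Rl a) (hw : Rl w) (hψ : Rl ψ) :
    Rl (Xw h μ a w ψ) := by
  unfold Xw H1 H2 H3 JJ
  have hJ := (ha.iz.mul hw.dy).sub (ha.iz.iz.dy.mul hw.dz)
  refine ((Rl_w0.sub ?_).sub ?_).sub ?_
  · exact (Rl_eb.mul (ha.iz.mul Rl_cosy.dy.dy.dy).it).smul _
  · exact (Rl_eb.mul (ha.iz.mul hψ.dy.dy.dy).it).smul _
  · exact (Rl_eb.mul (hJ.sub hJ.mn).it).smul _

theorem MZ_YY (h : ℝ) {a w θ : BB} (ha : MZ a) (hw : MZ w) (hθ : ZI θ) : MZ (YY h a w θ) := by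
  unfold YY Y1 Y2 Y3
  refine ((hw.sub ?_).add ?_).sub ?_
  · exact (hθ.mul (hθ.add (ZI_Th0.add ZI_Th0))).mul_MZ ha
  · apply MZ.smul
    apply ZI_eb.mul_MZ
    have h1 := ZI_Th0.add hθ
    exact ((h1.mul_MZ (MZ_Iz a).dy).add (h1.mul_MZ (MZ_Iz a).dy)).add (h1.dy.mul_MZ (MZ_Iz a))
  · exact (ZI_eb.mul_MZ (ZI_eb.mul_MZ (MZ_Iz _).dy.dy)).smul _

theorem Rl_YY (h : ℝ) {a w θ : BB} (ha : Rl a) (hw : Rl w) (hθ : Rl θ) : Rl (YY h a w θ) := by
  unfold YY Y1 Y2 Y3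
  refine ((hw.sub ?_).add ?_).sub ?_
  · exact (hθ.mul (hθ.add (Rl_Th0.add Rl_Th0))).mul ha
  · apply Rl.smul
    apply Rl_eb.mul
    have h1 := Rl_Th0.add hθ
    exact ((h1.mul ha.iz.dy).add (h1.mul ha.iz.dy)).add (h1.dy.mul ha.iz)
  · rw [← Complex.ofReal_mul]
    exact (Rl_eb.mul (Rl_eb.mul ha.iz.iz.dy.dy)).smul _

theorem Inv.step {T κ h μ : ℝ} {K : ℕ} (S : Small T κ h μ K) (N : ℕ) {s : St}
    (hs : Inv T κ s) : Inv T κ (step T h μ N K s) := by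
  have b1 := S.ψ_bd hs.ha hs.hθ
  have b2 := S.θ_bd b1
  have b3 := S.w_bd hs.ha hs.hw b1
  have b4 := S.a_bd N hs.ha b3 b2
  have z1 : ZI (tr K (Xψ h μ s.a s.θ)) := (ZI_Xψ h μ s.a s.θ).trc K
  have z2 : ZI (Xθ (tr K (Xψ h μ s.a s.θ))) := z1.dy.dy.it.neg
  have m3 : MZ (tr K (Xw h μ s.a s.w (tr K (Xψ h μ s.a s.θ)))) := (MZ_Xw h μ z1).trc K
  have r1 : Rl (tr K (Xψ h μ s.a s.θ)) := (Rl_Xψ h μ hs.ra hs.rθ).tr K
  have r2 : Rl (Xθ (tr K (Xψ h μ s.a s.θ))) := r1.dy.dy.it.neg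
  have r3 : Rl (tr K (Xw h μ s.a s.w (tr K (Xψ h μ s.a s.θ)))) :=
    (Rl_Xw h μ hs.ra hs.rw' r1).tr K
  exact ⟨b4, b3, b1, b2, ((ZI_sg T N).mul_MZ (MZ_YY h hs.ma m3 z2)).trc K, m3, z1, z2,
    ((Rl_sg T N).mul (Rl_YY h hs.ra r3 r2)).tr K, r3, r1, r2⟩

theorem Inv_fp {T κ h μ : ℝ} {K : ℕ} (S : Small T κ h μ K) (N : ℕ) :
    Inv T κ (fp T h μ N K) := by
  have hT := S.hT
  have key : ∀ n, Inv T κ (iter T h μ N K n) := by
    intro n
    induction n with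
    | zero =>
      have p1 := A1_pos hT
      have p2 := A2_pos hT
      have p3 := S.hκ0
      exact ⟨Bd.zero hT _ _ _ (by norm_num), Bd.zero hT _ _ _ (by norm_num),
        Bd.zero hT _ _ _ (by positivity), Bd.zero hT _ _ _ (by positivity),
        MZ_zero, MZ_zero, ZI_zero, ZI_zero, Rl_zero, Rl_zero, Rl_zero, Rl_zero⟩
    | succ n ih => exact ih.step S N
  exact key (K + 1)

end Pool.Agent.EulerInflation
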