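import Pool.Agent.Work.MP_8b4a1b_an.Defs

/-!
# Smooth `H^∞` solutions are bounded (elementary two-dimensional Sobolev embedding)
-/

set_option autoImplicit false

open MeasureTheory Set
open scoped ENNReal NNReal ContDiff FourierTransform Real

namespace Pool.Agent.EulerInflation

namespace BoundedAux

abbrev E2 : Type := EuclideanSpace ℝ (Fin 2)

variable {V : Type*} [NormedAddCommGroup V] [NormedSpace ℝ V] [CompleteSpace V]

/-- One-dimensional inequality. -/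
lemma one_dim {g g' : ℝ → V} (hg : ∀ s, HasDerivAt g (g' s) s) (hc : Continuous g') :
    ‖g 0‖ₑ ≤ ∫⁻ s in Icc (0 : ℝ) 1, (‖g s‖ₑ + ‖g' s‖ₑ) := by
  have hgc : Continuous g := continuous_iff_continuousAt.2 fun s => (hg s).continuousAt
  have h1 : ∀ s ∈ Icc (0 : ℝ) 1, ‖g 0‖ₑ ≤ ‖g s‖ₑ + ∫⁻ r in Icc (0 : ℝ) 1, ‖g' r‖ₑ := by
    intro s hs
    have h2 : ∫ r in (0 : ℝ)..s, g' r = g s - g 0 :=
      intervalIntegral.integral_eq_sub_of_hasDerivAt (fun r _ => hg r)
        (hc.intervalIntegrable _ _)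
    have h3 : g 0 = g s - ∫ r in (0 : ℝ)..s, g' r := by rw [h2]; abel
    have h4 : ‖∫ r in (0 : ℝ)..s, g' r‖ₑ ≤ ∫⁻ r in Icc (0 : ℝ) 1, ‖g' r‖ₑ := by
      rw [intervalIntegral.integral_of_le hs.1]
      refine (enorm_integral_le_lintegral_enorm _).trans ?_
      exact lintegral_mono_set (fun r hr => ⟨hr.1.le, hr.2.trans hs.2⟩)
    calc ‖g 0‖ₑ = ‖g s - ∫ r in (0 : ℝ)..s, g' r‖ₑ := by rw [← h3]
      _ ≤ ‖g s‖ₑ + ‖∫ r in (0 : ℝ)..s, g' r‖ₑ := enorm_sub_le
      _ ≤ _ := by gcongr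
  have h5 : ‖g 0‖ₑ = ∫⁻ _ in Icc (0 : ℝ) 1, ‖g 0‖ₑ := by
    rw [lintegral_const]
    simp
  rw [h5]
  calc ∫⁻ _ in Icc (0 : ℝ) 1, ‖g 0‖ₑ
      ≤ ∫⁻ s in Icc (0 : ℝ) 1, (‖g s‖ₑ + ∫⁻ r in Icc (0 : ℝ) 1, ‖g' r‖ₑ) :=
        setLIntegral_mono' measurableSet_Icc h1
    _ = _ := by
        rw [lintegral_add_left hgc.enorm.measurable, lintegral_add_left hgc.enorm.measurable,
          lintegral_const]
        simp

/-- The coordinates. -/
noncomputable def Phi : ℝ × ℝ → E2 := fun q =>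
  q.1 • EuclideanSpace.single 0 (1 : ℝ) + q.2 • EuclideanSpace.single 1 (1 : ℝ)

lemma Phi_preserving : MeasurePreserving Phi volume volume := by
  have h1 := (PiLp.volume_preserving_toLp (Fin 2)).comp (volume_preserving_finTwoArrow ℝ).symm
  have h4 : Phi = (WithLp.toLp 2 : (Fin 2 → ℝ) → E2) ∘ (MeasurableEquiv.finTwoArrow (α := ℝ)).symm := by
    funext q
    ext i
    fin_cases i <;> simp [Phi]
  rw [h4]
  exact h1

lemma continuous_Phi : Continuous Phi := by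
  unfold Phi
  fun_prop

lemma shift_preserving (x : E2) : MeasurePreserving (fun q => x + Phi q) volume volume :=
  (measurePreserving_add_left volume x).comp Phi_preserving

/-- Averages over the unit square are controlled by the `L^2` norm. -/
lemma square_le {W : Type*} [NormedAddCommGroup W] (h : E2 → W) (hc : Continuous h) (x : E2) :
    ∫⁻ q in Icc (0 : ℝ) 1 ×ˢ Icc (0 : ℝ) 1, ‖h (x + Phi q)‖ₑ ≤ eLpNorm h 2 volume := by
  have hcc : Continuous fun q : ℝ × ℝ => h (x + Phi q) :=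
    hc.comp (continuous_const.add continuous_Phi)
  have h2 : AEStronglyMeasurable (fun q : ℝ × ℝ => h (x + Phi q))
      (volume.restrict (Icc (0 : ℝ) 1 ×ˢ Icc (0 : ℝ) 1)) := hcc.aestronglyMeasurable
  have h3 := eLpNorm_le_eLpNorm_mul_rpow_measure_univ (p := 1) (q := 2) (by norm_num) h2
  rw [eLpNorm_one_eq_lintegral_enorm] at h3
  refine h3.trans ?_
  have h4 : (volume.restrict (Icc (0 : ℝ) 1 ×ˢ Icc (0 : ℝ) 1) : Measure (ℝ × ℝ)) univ = 1 := by
    rw [Measure.restrict_apply_univ, Measure.volume_eq_prod, Measure.prod_prod]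
    simp
  rw [h4, ENNReal.one_rpow, mul_one]
  refine (eLpNorm_mono_measure _ Measure.restrict_le_self).trans ?_
  have h5 := eLpNorm_comp_measurePreserving (p := 2) (g := h) hc.aestronglyMeasurable
    (shift_preserving x)
  exact h5.le

/-- Elementary Sobolev embedding. -/
lemma enorm_le {f : E2 → E2} (hf : ContDiff ℝ ∞ f) (x : E2) :
    ‖f x‖ₑ ≤ eLpNorm (iteratedFDeriv ℝ 0 f) 2 volume + 2 * eLpNorm (iteratedFDeriv ℝ 1 f) 2 volume +
      eLpNorm (iteratedFDeriv ℝ 2 f) 2 volume := by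
  set e0 : E2 := EuclideanSpace.single 0 1 with he0
  set e1 : E2 := EuclideanSpace.single 1 1 with he1
  have hn0 : ‖e0‖ = 1 := by simp [he0]
  have hn1 : ‖e1‖ = 1 := by simp [he1]
  have hfd : Differentiable ℝ f := hf.differentiable (by simp)
  have hf1 : ContDiff ℝ ∞ (fderiv ℝ f) := hf.fderiv_right (by simp)
  have hfd1 : Differentiable ℝ (fderiv ℝ f) := hf1.differentiable (by simp)
  have hf2 : ContDiff ℝ ∞ (fderiv ℝ (fderiv ℝ f)) := hf1.fderiv_right (by simp)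
  have hline : ∀ (y e : E2) (s : ℝ), HasDerivAt (fun s : ℝ => y + s • e) e s := by
    intro y e s
    have h1 : HasDerivAt (fun s : ℝ => s • e) ((1 : ℝ) • e) s := (hasDerivAt_id s).smul_const e
    rw [one_smul] at h1
    exact h1.const_add y
  have hlc : ∀ (y e : E2), Continuous (fun s : ℝ => y + s • e) := by
    intro y e
    fun_prop
  -- the norms of the iterated derivatives
  have hc0 : Continuous (iteratedFDeriv ℝ 0 f) := hf.continuous_iteratedFDeriv (by simp)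
  have hc1 : Continuous (iteratedFDeriv ℝ 1 f) := hf.continuous_iteratedFDeriv (by simp)
  have hc2 : Continuous (iteratedFDeriv ℝ 2 f) :=
    hf.continuous_iteratedFDeriv (m := 2) ENat.LEInfty.out
  have k0 : ∀ y, ‖f y‖ₑ ≤ ‖iteratedFDeriv ℝ 0 f y‖ₑ := by
    intro y
    rw [enorm_le_iff_norm_le, norm_iteratedFDeriv_zero]
  have k1 : ∀ y e, ‖e‖ = 1 → ‖fderiv ℝ f y e‖ₑ ≤ ‖iteratedFDeriv ℝ 1 f y‖ₑ := by
    intro y e he
    rw [enorm_le_iff_norm_le, norm_iteratedFDeriv_one]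
    have := (fderiv ℝ f y).le_opNorm e
    rwa [he, mul_one] at this
  have k2 : ∀ y, ‖fderiv ℝ (fderiv ℝ f) y e1 e0‖ₑ ≤ ‖iteratedFDeriv ℝ 2 f y‖ₑ := by
    intro y
    rw [enorm_le_iff_norm_le]
    have h1 : ‖iteratedFDeriv ℝ 2 f y‖ = ‖fderiv ℝ (fderiv ℝ f) y‖ := by
      rw [← norm_iteratedFDeriv_fderiv, norm_iteratedFDeriv_one]
    rw [h1]
    have h2 := (fderiv ℝ (fderiv ℝ f) y e1).le_opNorm e0
    have h3 := (fderiv ℝ (fderiv ℝ f) y).le_opNorm e1
    rw [hn0, mul_one] at h2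
    rw [hn1, mul_one] at h3
    exact h2.trans h3
  set S : Set ℝ := Icc (0 : ℝ) 1 with hS
  set G : E2 → ℝ≥0∞ := fun y => (‖iteratedFDeriv ℝ 0 f y‖ₑ + ‖iteratedFDeriv ℝ 1 f y‖ₑ) +
    (‖iteratedFDeriv ℝ 1 f y‖ₑ + ‖iteratedFDeriv ℝ 2 f y‖ₑ) with hG
  have hGc : Measurable fun q : ℝ × ℝ => G (x + Phi q) := by
    have h1 : Continuous fun q : ℝ × ℝ => x + Phi q := continuous_const.add continuous_Phi
    exact (((hc0.comp h1).enorm.add (hc1.comp h1).enorm).add
      ((hc1.comp h1).enorm.add (hc2.comp h1).enorm)).measurable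
  have step1 : ‖f x‖ₑ ≤ ∫⁻ s in S, (‖f (x + s • e0)‖ₑ + ‖fderiv ℝ f (x + s • e0) e0‖ₑ) := by
    have h1 := one_dim (g := fun s => f (x + s • e0)) (g' := fun s => fderiv ℝ f (x + s • e0) e0)
      (fun s => (hfd _).hasFDerivAt.comp_hasDerivAt s (hline x e0 s))
      ((hf1.continuous.comp (hlc x e0)).clm_apply continuous_const)
    simpa using h1
  have step2 : ∀ s : ℝ, ‖f (x + s • e0)‖ₑ + ‖fderiv ℝ f (x + s • e0) e0‖ₑ ≤
      ∫⁻ r in S, G (x + Phi (s, r)) := by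
    intro s
    have hP : ∀ r : ℝ, x + Phi (s, r) = x + s • e0 + r • e1 := by
      intro r
      simp only [Phi, ← he0, ← he1, add_assoc]
    have h1 := one_dim (g := fun r => f (x + s • e0 + r • e1))
      (g' := fun r => fderiv ℝ f (x + s • e0 + r • e1) e1)
      (fun r => (hfd _).hasFDerivAt.comp_hasDerivAt r (hline _ e1 r))
      ((hf1.continuous.comp (hlc _ e1)).clm_apply continuous_const)
    have h2 := one_dim (g := fun r => fderiv ℝ f (x + s • e0 + r • e1) e0)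
      (g' := fun r => fderiv ℝ (fderiv ℝ f) (x + s • e0 + r • e1) e1 e0)
      (fun r => by
        have h3 := (hfd1 (x + s • e0 + r • e1)).hasFDerivAt.comp_hasDerivAt r (hline _ e1 r)
        exact h3.clm_apply (hasDerivAt_const r e0) |>.congr_deriv (by simp))
      (((hf2.continuous.comp (hlc _ e1)).clm_apply continuous_const).clm_apply continuous_const)
    simp only [zero_smul, add_zero] at h1 h2
    refine (add_le_add h1 h2).trans ?_
    have hm : Measurable fun r : ℝ => ‖f (x + s • e0 + r • e1)‖ₑ +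
        ‖fderiv ℝ f (x + s • e0 + r • e1) e1‖ₑ :=
      ((hf.continuous.comp (hlc _ e1)).enorm.add
        ((hf1.continuous.comp (hlc _ e1)).clm_apply continuous_const).enorm).measurable
    rw [← lintegral_add_left hm]
    refine lintegral_mono fun r => ?_
    simp only [hG, hP]
    gcongr
    · exact k0 _
    · exact k1 _ _ hn1
    · exact k1 _ _ hn0
    · exact k2 _
  have step3 : ‖f x‖ₑ ≤ ∫⁻ q in S ×ˢ S, G (x + Phi q) := by
    rw [Measure.volume_eq_prod, ← Measure.prod_restrict, lintegral_prod _ hGc.aemeasurable]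
    exact step1.trans (lintegral_mono fun s => step2 s)
  refine step3.trans ?_
  have hcc : ∀ {k : ℕ}, Continuous (iteratedFDeriv ℝ k f) →
      Measurable fun q : ℝ × ℝ => ‖iteratedFDeriv ℝ k f (x + Phi q)‖ₑ := fun hk =>
    (hk.comp (continuous_const.add continuous_Phi)).enorm.measurable
  simp only [hG]
  have hm01 : Measurable fun q : ℝ × ℝ =>
      ‖iteratedFDeriv ℝ 0 f (x + Phi q)‖ₑ + ‖iteratedFDeriv ℝ 1 f (x + Phi q)‖ₑ :=
    (hcc hc0).add (hcc hc1)
  rw [lintegral_add_left hm01, lintegral_add_left (hcc hc0),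
    lintegral_add_left (hcc hc1)]
  have s0 := square_le (iteratedFDeriv ℝ 0 f) hc0 x
  have s1 := square_le (iteratedFDeriv ℝ 1 f) hc1 x
  have s2 := square_le (iteratedFDeriv ℝ 2 f) hc2 x
  refine (add_le_add (add_le_add s0 s1) (add_le_add s1 s2)).trans (le_of_eq ?_)
  ring

end BoundedAux

theorem IsEulerSolution.bounded {u : ℝ → EuclideanSpace ℝ (Fin 2) → EuclideanSpace ℝ (Fin 2)}
    {p : ℝ → EuclideanSpace ℝ (Fin 2) → ℝ} (h : IsEulerSolution u p) (T : ℝ) :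
    ∃ C : ℝ, ∀ t ∈ Icc 0 T, ∀ x, ‖u t x‖ ≤ C := by
  obtain ⟨C0, h0⟩ := h.sobolev 0 T
  obtain ⟨C1, h1⟩ := h.sobolev 1 T
  obtain ⟨C2, h2⟩ := h.sobolev 2 T
  refine ⟨((C0 + 2 * C1 + C2 : ℝ≥0) : ℝ), fun t ht x => ?_⟩
  have hs : ContDiff ℝ ∞ (u t) := by
    have h3 : ContDiffOn ℝ ∞ (fun x => u t x) univ := by
      have h4 : ContDiffOn ℝ ∞ (fun x : EuclideanSpace ℝ (Fin 2) => (t, x)) univ :=
        (contDiff_const.prodMk contDiff_id).contDiffOn
      exact h.smooth_u.comp h4 (fun x _ => ⟨ht.1, mem_univ _⟩)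
    exact contDiffOn_univ.1 h3
  have h3 := BoundedAux.enorm_le hs x
  have h4 : ‖u t x‖ₑ ≤ ((C0 + 2 * C1 + C2 : ℝ≥0) : ℝ≥0∞) := by
    refine h3.trans ?_
    push_cast
    gcongr
    · exact h0 t ht
    · exact h1 t ht
    · exact h2 t ht
  have h5 : ‖u t x‖₊ ≤ C0 + 2 * C1 + C2 := by exact_mod_cast h4
  exact_mod_cast h5

end Pool.Agent.EulerInflation
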