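import Mathlib
import Pool.Agent.Work.MP_8b4a1b_an.Bd.B01

/-!
Fixed-time energy inequality.
-/

open MeasureTheory Set Filter Topology
open scoped ENNReal NNReal ContDiff FourierTransform Real

namespace Pool.Agent.EulerInflation.Stab

/-- Continuous and square integrable. -/
structure SqInt (f : (EuclideanSpace ℝ (Fin 2)) → ℝ) : Prop where
  cont : Continuous f
  int : Integrable (fun x => f x ^ 2)

namespace SqInt

variable {f g b : (EuclideanSpace ℝ (Fin 2)) → ℝ}

lemma mul_int (hf : SqInt f) (hg : SqInt g) : Integrable (fun x => f x * g x) := by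
  have hm : AEStronglyMeasurable (fun x => f x * g x) volume :=
    (hf.cont.mul hg.cont).aestronglyMeasurable
  have hi : Integrable (fun x => f x ^ 2 + g x ^ 2) := hf.int.add hg.int
  apply hi.mono' hm
  filter_upwards with x
  rw [Real.norm_eq_abs, abs_mul]
  have := sq_nonneg (|f x| - |g x|)
  have h1 := sq_abs (f x)
  have h2 := sq_abs (g x)
  nlinarith [sq_nonneg (f x), sq_nonneg (g x)]

lemma add (hf : SqInt f) (hg : SqInt g) : SqInt (fun x => f x + g x) := by
  refine ⟨hf.cont.add hg.cont, ?_⟩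
  have h := (hf.int.add hg.int).add ((hf.mul_int hg).const_mul 2)
  refine h.congr ?_
  filter_upwards with x
  simp only [Pi.add_apply]
  ring

lemma neg (hf : SqInt f) : SqInt (fun x => - f x) := by
  refine ⟨hf.cont.neg, ?_⟩
  refine hf.int.congr ?_
  filter_upwards with x
  ring

lemma sub (hf : SqInt f) (hg : SqInt g) : SqInt (fun x => f x - g x) := by
  have := hf.add hg.neg
  simpa only [sub_eq_add_neg] using this

lemma bdd_mul {C : ℝ} (hf : SqInt f) (hb : Continuous b) (hC : ∀ x, |b x| ≤ C) :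
    SqInt (fun x => b x * f x) := by
  refine ⟨hb.mul hf.cont, ?_⟩
  have hm : AEStronglyMeasurable (fun x => (b x * f x) ^ 2) volume :=
    ((hb.mul hf.cont).pow 2).aestronglyMeasurable
  apply (hf.int.const_mul (C ^ 2)).mono' hm
  filter_upwards with x
  rw [Real.norm_eq_abs, abs_of_nonneg (sq_nonneg _), mul_pow]
  apply mul_le_mul_of_nonneg_right _ (sq_nonneg _)
  have := pow_le_pow_left₀ (abs_nonneg _) (hC x) 2
  rwa [sq_abs] at this

lemma of_compact (hf : Continuous f) (hs : HasCompactSupport f) : SqInt f := by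
  refine ⟨hf, ?_⟩
  have h1 : HasCompactSupport (fun x => f x * f x) := hs.mul_right
  have h2 : Integrable (fun x => f x * f x) :=
    Continuous.integrable_of_hasCompactSupport (hf.mul hf) h1
  refine h2.congr (Eventually.of_forall fun x => ?_)
  exact (sq (f x)).symm

end SqInt

lemma pd_mul {f g : (EuclideanSpace ℝ (Fin 2)) → ℝ} (hf : ContDiff ℝ 1 f) (hg : ContDiff ℝ 1 g) (i : Fin 2) (x : (EuclideanSpace ℝ (Fin 2))) :
    pd i (fun y => f y * g y) x = pd i f x * g x + f x * pd i g x := by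
  unfold pd
  rw [fderiv_fun_mul (hf.differentiable one_ne_zero x) (hg.differentiable one_ne_zero x)]
  simp only [add_apply, smul_apply, smul_eq_mul]
  ring

lemma pd_add {f g : (EuclideanSpace ℝ (Fin 2)) → ℝ} (hf : ContDiff ℝ 1 f) (hg : ContDiff ℝ 1 g) (i : Fin 2) (x : (EuclideanSpace ℝ (Fin 2))) :
    pd i (fun y => f y + g y) x = pd i f x + pd i g x := by
  unfold pd
  rw [fderiv_fun_add (hf.differentiable one_ne_zero x) (hg.differentiable one_ne_zero x)]
  rfl

lemma pd_sub {f g : (EuclideanSpace ℝ (Fin 2)) → ℝ} (hf : ContDiff ℝ 1 f) (hg : ContDiff ℝ 1 g) (i : Fin 2) (x : (EuclideanSpace ℝ (Fin 2))) :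
    pd i (fun y => f y - g y) x = pd i f x - pd i g x := by
  unfold pd
  rw [fderiv_fun_sub (hf.differentiable one_ne_zero x) (hg.differentiable one_ne_zero x)]
  rfl

lemma pd_arctan {f : (EuclideanSpace ℝ (Fin 2)) → ℝ} (hf : ContDiff ℝ 1 f) (k : ℝ) (hk : 0 < k) (i : Fin 2) (x : (EuclideanSpace ℝ (Fin 2))) :
    pd i (fun y => k * Real.arctan (f y / k)) x = (1 + (f x / k) ^ 2)⁻¹ * pd i f x := by
  unfold pd
  have h1 : HasFDerivAt f (fderiv ℝ f x) x := (hf.differentiable one_ne_zero x).hasFDerivAt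
  have h2 : HasFDerivAt (fun y => f y / k) (k⁻¹ • fderiv ℝ f x) x := by
    have := h1.const_mul k⁻¹
    refine this.congr_of_eventuallyEq ?_
    filter_upwards with y
    ring
  have h3 := (h2.arctan).const_mul k
  rw [h3.fderiv]
  simp only [smul_apply, smul_eq_mul]
  field_simp

/-- The fixed-time energy inequality. -/
theorem energy_fixed {U V W r : Fin 2 → (EuclideanSpace ℝ (Fin 2)) → ℝ} {P : (EuclideanSpace ℝ (Fin 2)) → ℝ} {C G : ℝ}
    (hU : ∀ i, ContDiff ℝ 1 (U i)) (hV : ∀ i, ContDiff ℝ 1 (V i)) (hP : ContDiff ℝ 1 P)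
    (hdU : ∀ x, pd 0 (U 0) x + pd 1 (U 1) x = 0) (hdV : ∀ x, pd 0 (V 0) x + pd 1 (V 1) x = 0)
    (hUb : ∀ i x, |U i x| ≤ C) (hG : 0 ≤ G) (hVg : ∀ i j x, |pd i (V j) x| ≤ G)
    (he : ∀ i, SqInt (fun x => U i x - V i x))
    (hde : ∀ i j, SqInt (fun x => pd j (fun y => U i y - V i y) x))
    (hW : ∀ i, SqInt (W i)) (hr : ∀ i, SqInt (r i))
    (heq : ∀ i x, W i x = - (U 0 x * pd 0 (fun y => U i y - V i y) x +
        U 1 x * pd 1 (fun y => U i y - V i y) x) -
      ((U 0 x - V 0 x) * pd 0 (V i) x + (U 1 x - V 1 x) * pd 1 (V i) x) - pd i P x - r i x) :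
    ∫ x, 2 * ((U 0 x - V 0 x) * W 0 x + (U 1 x - V 1 x) * W 1 x) ≤
      (4 * G + 1) * (∫ x, ((U 0 x - V 0 x) ^ 2 + (U 1 x - V 1 x) ^ 2)) +
        ∫ x, (r 0 x ^ 2 + r 1 x ^ 2) := by
  set e : Fin 2 → (EuclideanSpace ℝ (Fin 2)) → ℝ := fun i x => U i x - V i x with hedef
  have he1 : ∀ i, ContDiff ℝ 1 (e i) := fun i => (hU i).sub (hV i)
  have heS : ∀ i, SqInt (e i) := he
  have hdeS : ∀ i j, SqInt (pd j (e i)) := hde
  have hdive : ∀ x, pd 0 (e 0) x + pd 1 (e 1) x = 0 := by
    intro x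
    rw [pd_sub (hU 0) (hV 0), pd_sub (hU 1) (hV 1)]
    linarith [hdU x, hdV x]
  -- transport term
  have hUe : ∀ i j, SqInt (fun x => U i x * e j x) := fun i j =>
    (heS j).bdd_mul (hU i).continuous (hUb i)
  have hUde : ∀ i j, SqInt (fun x => U j x * pd j (e i) x) := fun i j =>
    (hdeS i j).bdd_mul (hU j).continuous (hUb j)
  have hA : ∫ x, (e 0 x * (U 0 x * pd 0 (e 0) x + U 1 x * pd 1 (e 0) x) +
      e 1 x * (U 0 x * pd 0 (e 1) x + U 1 x * pd 1 (e 1) x)) = 0 := by
    have hFc : ∀ i, ContDiff ℝ 1 (fun x => U i x * (e 0 x * e 0 x + e 1 x * e 1 x)) := fun i =>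
      (hU i).mul (((he1 0).mul (he1 0)).add ((he1 1).mul (he1 1)))
    have hpd : ∀ i x, pd i (fun x => U i x * (e 0 x * e 0 x + e 1 x * e 1 x)) x =
        pd i (U i) x * (e 0 x * e 0 x + e 1 x * e 1 x) +
        U i x * (2 * (e 0 x * pd i (e 0) x + e 1 x * pd i (e 1) x)) := by
      intro i x
      rw [pd_mul (hU i) (((he1 0).mul (he1 0)).add ((he1 1).mul (he1 1))),
        pd_add ((he1 0).mul (he1 0)) ((he1 1).mul (he1 1)), pd_mul (he1 0) (he1 0),
        pd_mul (he1 1) (he1 1)]
      ring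
    have hint : Integrable (fun x => e 0 x * (U 0 x * pd 0 (e 0) x + U 1 x * pd 1 (e 0) x) +
      e 1 x * (U 0 x * pd 0 (e 1) x + U 1 x * pd 1 (e 1) x)) :=
      ((heS 0).mul_int ((hUde 0 0).add (hUde 0 1))).add
        ((heS 1).mul_int ((hUde 1 0).add (hUde 1 1)))
    have hdiv : ∀ x, pd 0 (fun x => U 0 x * (e 0 x * e 0 x + e 1 x * e 1 x)) x +
        pd 1 (fun x => U 1 x * (e 0 x * e 0 x + e 1 x * e 1 x)) x =
        2 * (e 0 x * (U 0 x * pd 0 (e 0) x + U 1 x * pd 1 (e 0) x) +
        e 1 x * (U 0 x * pd 0 (e 1) x + U 1 x * pd 1 (e 1) x)) := by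
      intro x
      rw [hpd, hpd]
      linear_combination (e 0 x * e 0 x + e 1 x * e 1 x) * hdU x
    have key := integral_div_eq_zero_of_L1
      (fun i x => U i x * (e 0 x * e 0 x + e 1 x * e 1 x)) hFc
      ((hint.const_mul 2).congr (Eventually.of_forall fun x => (hdiv x).symm))
      (fun i => by
        have := ((hUe i 0).mul_int (heS 0)).add ((hUe i 1).mul_int (heS 1))
        refine this.congr (Eventually.of_forall fun x => ?_)
        simp only [Pi.add_apply]
        ring)
    rw [integral_congr_ae (Eventually.of_forall hdiv), integral_const_mul] at key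
    linarith
  -- pressure term
  have hVde : ∀ i j, SqInt (fun x => e j x * pd j (V i) x) := by
    intro i j
    have := (heS j).bdd_mul (b := pd j (V i)) (continuous_pd (hV i) j) (hVg j i)
    refine ⟨this.cont.congr fun x => mul_comm _ _, this.int.congr ?_⟩
    filter_upwards with x
    ring
  have hgP : ∀ i, SqInt (pd i P) := by
    intro i
    have h1 : SqInt (fun x => - (W i x) - (U 0 x * pd 0 (e i) x + U 1 x * pd 1 (e i) x) -
        (e 0 x * pd 0 (V i) x + e 1 x * pd 1 (V i) x) - r i x) :=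
      (((hW i).neg.sub ((hUde i 0).add (hUde i 1))).sub ((hVde i 0).add (hVde i 1))).sub (hr i)
    have h2 : (fun x => - (W i x) - (U 0 x * pd 0 (e i) x + U 1 x * pd 1 (e i) x) -
        (e 0 x * pd 0 (V i) x + e 1 x * pd 1 (V i) x) - r i x) = pd i P := by
      funext x
      have := heq i x
      simp only [hedef] at *
      linarith
    rw [h2] at h1
    exact h1
  have hBint : Integrable (fun x => e 0 x * pd 0 P x + e 1 x * pd 1 P x) :=
    ((heS 0).mul_int (hgP 0)).add ((heS 1).mul_int (hgP 1))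
  have hB : ∫ x, (e 0 x * pd 0 P x + e 1 x * pd 1 P x) = 0 := by
    have hk : ∀ n : ℕ, ∫ x, (1 + (P x / ((n : ℝ) + 1)) ^ 2)⁻¹ *
        (e 0 x * pd 0 P x + e 1 x * pd 1 P x) = 0 := by
      intro n
      have hn : (0 : ℝ) < (n : ℝ) + 1 := by positivity
      have hθ : ContDiff ℝ 1 (fun x => ((n : ℝ) + 1) * Real.arctan (P x / ((n : ℝ) + 1))) :=
        contDiff_const.mul (Real.contDiff_arctan.comp (hP.div_const _))
      have hθb : ∀ x, |((n : ℝ) + 1) * Real.arctan (P x / ((n : ℝ) + 1))| ≤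
          ((n : ℝ) + 1) * (π / 2) := by
        intro x
        rw [abs_mul, abs_of_pos hn]
        apply mul_le_mul_of_nonneg_left _ hn.le
        rw [abs_le]
        exact ⟨(Real.neg_pi_div_two_lt_arctan _).le, (Real.arctan_lt_pi_div_two _).le⟩
      have hdiv : ∀ x, pd 0 (fun x => ((n : ℝ) + 1) * Real.arctan (P x / ((n : ℝ) + 1)) * e 0 x) x +
          pd 1 (fun x => ((n : ℝ) + 1) * Real.arctan (P x / ((n : ℝ) + 1)) * e 1 x) x =
          (1 + (P x / ((n : ℝ) + 1)) ^ 2)⁻¹ * (e 0 x * pd 0 P x + e 1 x * pd 1 P x) := by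
        intro x
        rw [pd_mul hθ (he1 0), pd_mul hθ (he1 1), pd_arctan hP _ hn, pd_arctan hP _ hn]
        linear_combination (((n : ℝ) + 1) * Real.arctan (P x / ((n : ℝ) + 1))) * hdive x
      have hint : Integrable (fun x => (1 + (P x / ((n : ℝ) + 1)) ^ 2)⁻¹ *
          (e 0 x * pd 0 P x + e 1 x * pd 1 P x)) := by
        apply hBint.norm.mono'
        · apply Continuous.aestronglyMeasurable
          apply Continuous.mul
          · apply Continuous.inv₀
            · exact continuous_const.add ((hP.continuous.div_const _).pow 2)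
            · intro x
              positivity
          · exact ((heS 0).cont.mul (hgP 0).cont).add ((heS 1).cont.mul (hgP 1).cont)
        · filter_upwards with x
          rw [norm_mul]
          apply mul_le_of_le_one_left (norm_nonneg _)
          rw [norm_inv, Real.norm_of_nonneg (by positivity)]
          apply inv_le_one_of_one_le₀
          have := sq_nonneg (P x / ((n : ℝ) + 1))
          linarith
      have key := integral_div_eq_zero_of_L2
        (fun i x => ((n : ℝ) + 1) * Real.arctan (P x / ((n : ℝ) + 1)) * e i x)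
        (fun i => hθ.mul (he1 i))
        (hint.congr (Eventually.of_forall fun x => (hdiv x).symm))
        (fun i => ((heS i).bdd_mul hθ.continuous hθb).int)
      rw [integral_congr_ae (Eventually.of_forall hdiv)] at key
      exact key
    have hlim : Tendsto (fun n : ℕ => ∫ x, (1 + (P x / ((n : ℝ) + 1)) ^ 2)⁻¹ *
        (e 0 x * pd 0 P x + e 1 x * pd 1 P x)) atTop
        (𝓝 (∫ x, (e 0 x * pd 0 P x + e 1 x * pd 1 P x))) := by
      apply tendsto_integral_of_dominated_convergence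
        (fun x => ‖e 0 x * pd 0 P x + e 1 x * pd 1 P x‖)
      · intro n
        apply Continuous.aestronglyMeasurable
        apply Continuous.mul
        · apply Continuous.inv₀
          · exact continuous_const.add ((hP.continuous.div_const _).pow 2)
          · intro x
            positivity
        · exact ((heS 0).cont.mul (hgP 0).cont).add ((heS 1).cont.mul (hgP 1).cont)
      · exact hBint.norm
      · intro n
        filter_upwards with x
        rw [norm_mul]
        apply mul_le_of_le_one_left (norm_nonneg _)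
        rw [norm_inv, Real.norm_of_nonneg (by positivity)]
        apply inv_le_one_of_one_le₀
        have := sq_nonneg (P x / ((n : ℝ) + 1))
        linarith
      · filter_upwards with x
        have h1 : Tendsto (fun n : ℕ => P x / ((n : ℝ) + 1)) atTop (𝓝 0) := by
          have : Tendsto (fun n : ℕ => P x * (1 / ((n : ℝ) + 1))) atTop (𝓝 (P x * 0)) :=
            tendsto_one_div_add_atTop_nhds_zero_nat.const_mul _
          rw [mul_zero] at this
          refine this.congr fun n => ?_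
          ring
        have h2 : Tendsto (fun n : ℕ => (1 + (P x / ((n : ℝ) + 1)) ^ 2)⁻¹) atTop
            (𝓝 ((1 + (0 : ℝ) ^ 2)⁻¹)) := by
          apply Tendsto.inv₀
          · exact (h1.pow 2).const_add 1
          · norm_num
        have h3 := h2.mul_const (e 0 x * pd 0 P x + e 1 x * pd 1 P x)
        norm_num at h3
        exact h3
    have hz : Tendsto (fun n : ℕ => ∫ x, (1 + (P x / ((n : ℝ) + 1)) ^ 2)⁻¹ *
        (e 0 x * pd 0 P x + e 1 x * pd 1 P x)) atTop (𝓝 0) := by
      simp only [hk]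
      exact tendsto_const_nhds
    exact tendsto_nhds_unique hlim hz
  -- conclusion
  have hAint : Integrable (fun x => e 0 x * (U 0 x * pd 0 (e 0) x + U 1 x * pd 1 (e 0) x) +
      e 1 x * (U 0 x * pd 0 (e 1) x + U 1 x * pd 1 (e 1) x)) :=
      ((heS 0).mul_int ((hUde 0 0).add (hUde 0 1))).add
        ((heS 1).mul_int ((hUde 1 0).add (hUde 1 1)))
  have hCint : Integrable (fun x => -2 * (e 0 x * (e 0 x * pd 0 (V 0) x + e 1 x * pd 1 (V 0) x) +
      e 1 x * (e 0 x * pd 0 (V 1) x + e 1 x * pd 1 (V 1) x)) -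
      2 * (e 0 x * r 0 x + e 1 x * r 1 x)) :=
    ((((heS 0).mul_int ((hVde 0 0).add (hVde 0 1))).add
      ((heS 1).mul_int ((hVde 1 0).add (hVde 1 1)))).const_mul (-2)).sub
      ((((heS 0).mul_int (hr 0)).add ((heS 1).mul_int (hr 1))).const_mul 2)
  have hsplit : ∀ x, 2 * (e 0 x * W 0 x + e 1 x * W 1 x) =
      (-2 * (e 0 x * (U 0 x * pd 0 (e 0) x + U 1 x * pd 1 (e 0) x) +
      e 1 x * (U 0 x * pd 0 (e 1) x + U 1 x * pd 1 (e 1) x)) +
      -2 * (e 0 x * pd 0 P x + e 1 x * pd 1 P x)) +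
      (-2 * (e 0 x * (e 0 x * pd 0 (V 0) x + e 1 x * pd 1 (V 0) x) +
      e 1 x * (e 0 x * pd 0 (V 1) x + e 1 x * pd 1 (V 1) x)) -
      2 * (e 0 x * r 0 x + e 1 x * r 1 x)) := by
    intro x
    rw [heq 0 x, heq 1 x]
    simp only [hedef]
    ring
  have hgoal : ∫ x, 2 * (e 0 x * W 0 x + e 1 x * W 1 x) ≤
      (4 * G + 1) * (∫ x, (e 0 x ^ 2 + e 1 x ^ 2)) + ∫ x, (r 0 x ^ 2 + r 1 x ^ 2) := by
    have i1 : Integrable (fun x => -2 * (e 0 x * (U 0 x * pd 0 (e 0) x + U 1 x * pd 1 (e 0) x) +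
        e 1 x * (U 0 x * pd 0 (e 1) x + U 1 x * pd 1 (e 1) x))) := hAint.const_mul (-2)
    have i2 : Integrable (fun x => -2 * (e 0 x * pd 0 P x + e 1 x * pd 1 P x)) :=
      hBint.const_mul (-2)
    have i12 : Integrable (fun x => -2 * (e 0 x * (U 0 x * pd 0 (e 0) x + U 1 x * pd 1 (e 0) x) +
        e 1 x * (U 0 x * pd 0 (e 1) x + U 1 x * pd 1 (e 1) x)) +
        -2 * (e 0 x * pd 0 P x + e 1 x * pd 1 P x)) := i1.add i2
    have i3 : Integrable (fun x => (4 * G + 1) * (e 0 x ^ 2 + e 1 x ^ 2)) :=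
      ((heS 0).int.add (heS 1).int).const_mul _
    have i4 : Integrable (fun x => r 0 x ^ 2 + r 1 x ^ 2) := (hr 0).int.add (hr 1).int
    have i34 : Integrable (fun x => (4 * G + 1) * (e 0 x ^ 2 + e 1 x ^ 2) +
      (r 0 x ^ 2 + r 1 x ^ 2)) := i3.add i4
    rw [integral_congr_ae (Eventually.of_forall hsplit), integral_add i12 hCint, integral_add
      i1 i2, integral_const_mul, integral_const_mul, hA, hB,
      mul_zero, add_zero, zero_add, ← integral_const_mul, ← integral_add i3 i4]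
    apply integral_mono hCint i34
    intro x
    simp only
    have b00 := hVg 0 0 x
    have b10 := hVg 1 0 x
    have b01 := hVg 0 1 x
    have b11 := hVg 1 1 x
    rw [abs_le] at b00 b10 b01 b11
    have q00 : -(e 0 x * e 0 x * pd 0 (V 0) x) ≤ G * (e 0 x) ^ 2 := by
      nlinarith [sq_nonneg (e 0 x)]
    have q11 : -(e 1 x * e 1 x * pd 1 (V 1) x) ≤ G * (e 1 x) ^ 2 := by
      nlinarith [sq_nonneg (e 1 x)]
    have qab : ∀ a b c : ℝ, -G ≤ c → c ≤ G → -(2 * (a * b * c)) ≤ G * (a ^ 2 + b ^ 2) := by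
      intro a b c h1 h2
      have h3 : |a * b * c| ≤ |a * b| * G := by
        rw [abs_mul]
        exact mul_le_mul_of_nonneg_left (abs_le.mpr ⟨h1, h2⟩) (abs_nonneg _)
      have h4 : 2 * |a * b| ≤ a ^ 2 + b ^ 2 := by
        rw [abs_mul]
        have := sq_nonneg (|a| - |b|)
        have h5 := sq_abs a
        have h6 := sq_abs b
        nlinarith
      have h5 : -(a * b * c) ≤ |a * b * c| := neg_le_abs _
      nlinarith
    have q01 := qab (e 0 x) (e 1 x) (pd 1 (V 0) x) b10.1 b10.2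
    have q10 := qab (e 1 x) (e 0 x) (pd 0 (V 1) x) b01.1 b01.2
    have r0 : -(2 * (e 0 x * r 0 x)) ≤ e 0 x ^ 2 + r 0 x ^ 2 := by
      nlinarith [sq_nonneg (e 0 x + r 0 x)]
    have r1 : -(2 * (e 1 x * r 1 x)) ≤ e 1 x ^ 2 + r 1 x ^ 2 := by
      nlinarith [sq_nonneg (e 1 x + r 1 x)]
    have g0 := mul_nonneg hG (sq_nonneg (e 0 x))
    have g1 := mul_nonneg hG (sq_nonneg (e 1 x))
    nlinarith
  exact hgoal

end Pool.Agent.EulerInflation.Stab
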