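import Pool.Agent.Work.MP_8b4a1b_an.Bd.B02

/-!
Evaluation of elements of the algebra at real times and angles.
-/

open Polynomial MeasureTheory Set
open scoped ContDiff Real

namespace Pool.Agent.EulerInflation

/-- the exponentials -/
noncomputable def ex (Z y : ℝ) (a : Idx) : ℂ :=
  Complex.exp (Complex.I * ((a.2.1 : ℂ) * Z + (a.2.2 : ℂ) * y))

theorem ex_add (Z y : ℝ) (a b : Idx) : ex Z y (a + b) = ex Z y a * ex Z y b := by
  unfold ex
  rw [← Complex.exp_add]
  congr 1
  push_cast [Prod.fst_add, Prod.snd_add]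
  ring

theorem ex_zero (Z y : ℝ) : ex Z y 0 = 1 := by
  simp [ex]

theorem norm_ex (Z y : ℝ) (a : Idx) : ‖ex Z y a‖ = 1 := by
  unfold ex
  rw [Complex.norm_exp]
  have : (Complex.I * ((a.2.1 : ℂ) * Z + (a.2.2 : ℂ) * y)).re = 0 := by
    have h : ((a.2.1 : ℂ) * Z + (a.2.2 : ℂ) * y) = (((a.2.1 : ℝ) * Z + (a.2.2 : ℝ) * y : ℝ) : ℂ) := by
      push_cast; ring
    rw [h]
    simp
  rw [this, Real.exp_zero]

/-- the exponentials as a homomorphism -/
noncomputable def exHom (Z y : ℝ) : Multiplicative Idx →* ℂ where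
  toFun a := ex Z y a.toAdd
  map_one' := ex_zero Z y
  map_mul' _ _ := ex_add Z y _ _

/-- evaluation -/
noncomputable def ev (t Z y : ℝ) : BB →+* ℂ :=
  AddMonoidAlgebra.liftNCRingHom (Polynomial.evalRingHom (t : ℂ)) (exHom Z y)
    (fun _ _ => Commute.all _ _)

theorem ev_single (t Z y : ℝ) (a : Idx) (p : ℂ[X]) :
    ev t Z y (AddMonoidAlgebra.single a p) = p.eval (t : ℂ) * ex Z y a := by
  unfold ev
  erw [AddMonoidAlgebra.liftNC_single]
  rfl

theorem ev_smul (t Z y : ℝ) (x : ℂ) (f : BB) : ev t Z y (x • f) = x * ev t Z y f := by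
  induction f using AddMonoidAlgebra.induction_linear with
  | zero => simp
  | add f g hf hg => rw [smul_add, map_add, hf, hg, map_add]; ring
  | single a p =>
    rw [AddMonoidAlgebra.smul_single, ev_single, ev_single, Polynomial.eval_smul, smul_eq_mul]
    ring

theorem ev_eb (t Z y : ℝ) : ev t Z y eb = 1 := by
  unfold eb
  rw [ev_single]
  simp [ex]

theorem norm_ev_le (t Z y : ℝ) (f : BB) : ‖ev t Z y f‖ ≤ tn 0 (t : ℂ) f := by
  have hsum : f = ∑ a ∈ f.coeff.support, AddMonoidAlgebra.single a (f.coeff a) := by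
    conv_lhs => rw [← AddMonoidAlgebra.sum_coeff_single f]
    rfl
  conv_lhs => rw [hsum]
  rw [map_sum]
  unfold tn gn
  refine (norm_sum_le _ _).trans (Finset.sum_le_sum fun a _ => ?_)
  rw [ev_single, norm_mul, norm_ex]
  simp [wt]

theorem ev_cj (t Z y : ℝ) (f : BB) : ev t Z y (cj f) = starRingEnd ℂ (ev t Z y f) := by
  induction f using AddMonoidAlgebra.induction_linear with
  | zero => simp
  | add f g hf hg => rw [map_add, map_add, hf, hg, map_add, map_add]
  | single a p =>
    rw [cj_single, ev_single, ev_single, map_mul]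
    congr 1
    · rw [Polynomial.eval_map]
      conv_lhs => rw [← Complex.conj_ofReal t]
      exact Polynomial.eval₂_hom _ _
    · unfold ex
      rw [← Complex.exp_conj]
      congr 1
      simp [rfx]
      ring

theorem ev_re {f : BB} (hf : Rl f) (t Z y : ℝ) : (((ev t Z y f).re : ℝ) : ℂ) = ev t Z y f := by
  rw [← Complex.conj_eq_iff_re, ← ev_cj, hf]

theorem ev_im {f : BB} (hf : Rl f) (t Z y : ℝ) : (ev t Z y f).im = 0 := by
  rw [← ev_re hf]; simp

theorem ex_period (Z y : ℝ) (j k : ℤ) (a : Idx) :
    ex (Z + j * (2 * π)) (y + k * (2 * π)) a = ex Z y a := by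
  unfold ex
  rw [Complex.exp_eq_exp_iff_exists_int]
  refine ⟨a.2.1 * j + a.2.2 * k, ?_⟩
  push_cast
  ring

theorem ev_period (t Z y : ℝ) (j k : ℤ) (f : BB) :
    ev t (Z + j * (2 * π)) (y + k * (2 * π)) f = ev t Z y f := by
  induction f using AddMonoidAlgebra.induction_linear with
  | zero => simp
  | add f g hf hg => rw [map_add, hf, hg, map_add]
  | single a p => rw [ev_single, ev_single, ex_period]

theorem ev_ZI {f : BB} (hf : ZI f) (t Z Z' y : ℝ) : ev t Z y f = ev t Z' y f := by
  have key : ∀ g : BB, ev t Z y (Mn g) = ev t Z' y (Mn g) := by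
    intro g
    induction g using AddMonoidAlgebra.induction_linear with
    | zero => simp
    | add f g hf hg => rw [map_add, map_add, hf, hg, map_add]
    | single a p =>
      rw [Mn, mop_single, ev_single, ev_single]
      by_cases ha : a.2.1 = 0
      · simp [ex, ha]
      · simp [ha]
  rw [← hf]
  exact key f

theorem ev_It_zero (Z y : ℝ) (f : BB) : ev 0 Z y (It f) = 0 := by
  induction f using AddMonoidAlgebra.induction_linear with
  | zero => simp
  | add f g hf hg => rw [map_add, map_add, hf, hg, add_zero]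
  | single a p =>
    rw [It, op_single, ev_single, Complex.ofReal_zero, integ_eval_zero, zero_mul]

theorem ev_hasDerivAt {t Z y : ℝ → ℝ} {t' Z' y' s : ℝ} (ht : HasDerivAt t t' s)
    (hZ : HasDerivAt Z Z' s) (hy : HasDerivAt y y' s) (f : BB) :
    HasDerivAt (fun s => ev (t s) (Z s) (y s) f)
      (t' * ev (t s) (Z s) (y s) (Dt f) + Z' * ev (t s) (Z s) (y s) (Dz f) +
        y' * ev (t s) (Z s) (y s) (Dy f)) s := by
  induction f using AddMonoidAlgebra.induction_linear with
  | zero => simpa using hasDerivAt_const s (0 : ℂ)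
  | add f g hf hg =>
    have := hf.add hg
    simp only [map_add]
    refine HasDerivAt.congr_deriv this ?_
    ring
  | single a p =>
    simp only [ev_single, Dt_single, Dz, Dy, mop_single]
    have h1 : HasDerivAt (fun s => p.eval ((t s : ℝ) : ℂ)) ((derivative p).eval (t s : ℂ) * t') s := by
      have := (p.hasDerivAt (t s : ℂ)).comp s ht.ofReal_comp
      exact this
    have h2 : HasDerivAt (fun s => ex (Z s) (y s) a)
        (ex (Z s) (y s) a * (Complex.I * ((a.2.1 : ℂ) * Z' + (a.2.2 : ℂ) * y'))) s := by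
      unfold ex
      apply HasDerivAt.cexp
      apply HasDerivAt.const_mul
      exact (hZ.ofReal_comp.const_mul _).add (hy.ofReal_comp.const_mul _)
    refine (h1.mul h2).congr_deriv ?_
    rw [Polynomial.eval_smul, Polynomial.eval_smul, smul_eq_mul, smul_eq_mul]
    ring

theorem ev_contDiff (f : BB) :
    ContDiff ℝ ∞ (fun p : ℝ × ℝ × ℝ => ev p.1 p.2.1 p.2.2 f) := by
  induction f using AddMonoidAlgebra.induction_linear with
  | zero => simpa using contDiff_const
  | add f g hf hg => simpa only [map_add] using hf.add hg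
  | single a p =>
    simp only [ev_single]
    apply ContDiff.mul
    · have h1 : ContDiff ℝ ∞ (fun p : ℝ × ℝ × ℝ => (p.1 : ℂ)) :=
        Complex.ofRealCLM.contDiff.comp contDiff_fst
      exact (p.contDiff_aeval (𝕜 := ℂ) (n := ∞) |>.restrict_scalars ℝ).comp h1
    · unfold ex
      apply ContDiff.cexp
      apply ContDiff.mul contDiff_const
      apply ContDiff.add
      · exact contDiff_const.mul (Complex.ofRealCLM.contDiff.comp (contDiff_fst.comp contDiff_snd))
      · exact contDiff_const.mul (Complex.ofRealCLM.contDiff.comp (contDiff_snd.comp contDiff_snd))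

end Pool.Agent.EulerInflation
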