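import Pool.Agent.Work.MP_8b4a1b_an.Recur

/-!
The fixed point of the iteration.
-/

open Polynomial

namespace Pool.Agent.EulerInflation

/-- elements of order at least `k` -/
def Od (k : ℕ) (f : BB) : Prop := ∀ a : Idx, a.1 < k → f.coeff a = 0

theorem Od.mono {j k : ℕ} {f : BB} (h : Od k f) (hj : j ≤ k) : Od j f :=
  fun a ha => h a (lt_of_lt_of_le ha hj)

theorem Od.add {k : ℕ} {f g : BB} (hf : Od k f) (hg : Od k g) : Od k (f + g) := by
  intro a ha
  rw [AddMonoidAlgebra.coeff_add, Finsupp.add_apply, hf a ha, hg a ha, add_zero]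

theorem Od.neg {k : ℕ} {f : BB} (hf : Od k f) : Od k (-f) := by
  intro a ha
  rw [AddMonoidAlgebra.coeff_neg, Finsupp.neg_apply, hf a ha, neg_zero]

theorem Od.sub {k : ℕ} {f g : BB} (hf : Od k f) (hg : Od k g) : Od k (f - g) := by
  rw [sub_eq_add_neg]; exact hf.add hg.neg

theorem Od.smul {k : ℕ} {f : BB} (hf : Od k f) (x : ℂ) : Od k (x • f) := by
  intro a ha
  rw [AddMonoidAlgebra.coeff_smul, Finsupp.smul_apply, hf a ha, smul_zero]

theorem Od.op {k : ℕ} {f : BB} (hf : Od k f) (φ : Idx → (ℂ[X] →ₗ[ℂ] ℂ[X])) : Od k (op φ f) := by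
  intro a ha
  rw [op_coeff, hf a ha, map_zero]

theorem Od.mop {k : ℕ} {f : BB} (hf : Od k f) (c : Idx → ℂ) : Od k (mop c f) := hf.op _

theorem Od.it {k : ℕ} {f : BB} (hf : Od k f) : Od k (It f) := hf.op _

theorem Od.mul {j k : ℕ} {f g : BB} (hf : Od j f) (hg : Od k g) : Od (j + k) (f * g) := by
  intro a ha
  rw [AddMonoidAlgebra.coeff_mul]
  apply Finset.sum_eq_zero
  intro b _
  apply Finset.sum_eq_zero
  intro c _
  simp only
  split_ifs with h
  · have h1 : b.1 + c.1 = a.1 := by rw [← h]; rfl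
    by_cases hb : b.1 < j
    · rw [hf b hb, zero_mul]
    · rw [hg c (by omega), mul_zero]
  · rfl

theorem Od_zero (f : BB) : Od 0 f := fun _ ha => absurd ha (Nat.not_lt_zero _)

theorem Od.mul_left {k : ℕ} {f : BB} (hf : Od k f) (g : BB) : Od k (g * f) := by
  have := (Od_zero g).mul hf
  rwa [zero_add] at this

theorem Od.mul_right {k : ℕ} {f : BB} (hf : Od k f) (g : BB) : Od k (f * g) := by
  have := hf.mul (Od_zero g)
  rwa [add_zero] at this

theorem Od_eb : Od 1 eb := by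
  intro a ha
  have : a.1 = 0 := by omega
  rw [eb, AddMonoidAlgebra.coeff_single, Finsupp.single_apply, if_neg]
  rintro rfl
  simp at this

theorem Od.eb {k : ℕ} {f : BB} (hf : Od k f) : Od (k + 1) (eb * f) := by
  rw [add_comm]; exact Od_eb.mul hf

theorem tr_eq_zero {K : ℕ} {f : BB} (hf : Od (K + 1) f) : tr K f = 0 := by
  apply BB.ext'
  intro a
  rw [tr, mop_coeff]
  by_cases h : a.1 ≤ K
  · rw [hf a (by omega), smul_zero]; rfl
  · rw [if_neg h, zero_smul]; rfl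

/-- congruence modulo order `k` -/
def Cg (k : ℕ) (f g : BB) : Prop := Od k (f - g)

theorem Cg.refl (k : ℕ) (f : BB) : Cg k f f := by
  intro a _
  simp

theorem Cg.mono {j k : ℕ} {f g : BB} (h : Cg k f g) (hj : j ≤ k) : Cg j f g := Od.mono h hj

theorem Cg.add {k : ℕ} {f g f' g' : BB} (h : Cg k f f') (h' : Cg k g g') :
    Cg k (f + g) (f' + g') := by
  have := Od.add h h'
  unfold Cg
  convert this using 1
  ring

theorem Cg.sub {k : ℕ} {f g f' g' : BB} (h : Cg k f f') (h' : Cg k g g') :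
    Cg k (f - g) (f' - g') := by
  have := Od.sub h h'
  unfold Cg
  convert this using 1
  ring

theorem Cg.smul {k : ℕ} {f f' : BB} (h : Cg k f f') (x : ℂ) : Cg k (x • f) (x • f') := by
  have := Od.smul h x
  unfold Cg
  rwa [smul_sub] at this

theorem Cg.op {k : ℕ} {f f' : BB} (h : Cg k f f') (φ : Idx → (ℂ[X] →ₗ[ℂ] ℂ[X])) :
    Cg k (op φ f) (op φ f') := by
  have := Od.op h φ
  unfold Cg
  rwa [map_sub] at this

theorem Cg.mop {k : ℕ} {f f' : BB} (h : Cg k f f') (c : Idx → ℂ) : Cg k (mop c f) (mop c f') :=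
  Cg.op h _

theorem Cg.dy {k : ℕ} {f f' : BB} (h : Cg k f f') : Cg k (Dy f) (Dy f') := Cg.op h _
theorem Cg.dz {k : ℕ} {f f' : BB} (h : Cg k f f') : Cg k (Dz f) (Dz f') := Cg.op h _
theorem Cg.iz {k : ℕ} {f f' : BB} (h : Cg k f f') : Cg k (Iz f) (Iz f') := Cg.op h _
theorem Cg.mn {k : ℕ} {f f' : BB} (h : Cg k f f') : Cg k (Mn f) (Mn f') := Cg.op h _
theorem Cg.tr {k : ℕ} {f f' : BB} (h : Cg k f f') (K : ℕ) : Cg k (tr K f) (tr K f') := Cg.op h _
theorem Cg.it {k : ℕ} {f f' : BB} (h : Cg k f f') : Cg k (It f) (It f') := Cg.op h _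

theorem Cg.mul {k : ℕ} {f g f' g' : BB} (h : Cg k f f') (h' : Cg k g g') :
    Cg k (f * g) (f' * g') := by
  have := (Od.mul_right h g).add (Od.mul_left h' f')
  unfold Cg
  convert this using 1
  ring

theorem Cg.eb {k : ℕ} {f f' : BB} (h : Cg k f f') : Cg (k + 1) (eb * f) (eb * f') := by
  have := Od.eb h
  unfold Cg
  rwa [mul_sub] at this

/-- multiplication by small elements gains an order -/
theorem Cg.mul_small {k : ℕ} {f g f' g' : BB} (h : Cg (k + 1) f f') (h' : Cg k g g')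
    (hf : Od 1 f') : Cg (k + 1) (f * g) (f' * g') := by
  have h1 := hf.mul h'
  rw [add_comm] at h1
  have := (Od.mul_right h g).add h1
  unfold Cg
  convert this using 1
  ring

/-- state -/
structure St where
  a : BB
  w : BB
  ψ : BB
  θ : BB

/-- one step of the iteration -/
noncomputable def step (T h μ : ℝ) (N K : ℕ) (s : St) : St where
  a := tr K (sg T N * YY h s.a (tr K (Xw h μ s.a s.w (tr K (Xψ h μ s.a s.θ))))
    (Xθ (tr K (Xψ h μ s.a s.θ))))
  w := tr K (Xw h μ s.a s.w (tr K (Xψ h μ s.a s.θ)))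
  ψ := tr K (Xψ h μ s.a s.θ)
  θ := Xθ (tr K (Xψ h μ s.a s.θ))

theorem Cg_Xψ {k : ℕ} {h μ : ℝ} {a a' θ θ' : BB} (ha : Cg k a a') (hθ : Cg k θ θ') :
    Cg (k + 1) (Xψ h μ a θ) (Xψ h μ a' θ') := by
  unfold Xψ G1 G2
  apply Cg.smul
  apply Cg.sub
  · apply Cg.eb
    refine Cg.mono ?_ (Nat.le_succ k)
    apply Cg.eb
    apply Cg.it
    apply Cg.mn
    exact ha.iz.mul ((((Cg.refl _ _).add hθ)).mul ha.iz)
  · apply Cg.smul
    apply Cg.eb
    refine Cg.mono ?_ (Nat.le_succ k)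
    apply Cg.eb
    apply Cg.it
    apply Cg.mn
    exact ha.iz.mul ((Cg.refl _ _).mul ha.iz.iz.dy)

theorem Od_Xψ (h μ : ℝ) (a θ : BB) : Od 2 (Xψ h μ a θ) := by
  unfold Xψ G1 G2
  apply Od.smul
  apply Od.sub
  · exact (Od_zero _).eb.eb
  · exact ((Od_zero _).eb.eb).smul _

theorem Cg_Xw {k : ℕ} {h μ : ℝ} {a a' w w' ψ ψ' : BB} (ha : Cg k a a') (hw : Cg k w w')
    (hψ : Cg k ψ ψ') : Cg (k + 1) (Xw h μ a w ψ) (Xw h μ a' w' ψ') := by
  unfold Xw H1 H2 H3 JJ
  have hJ := (ha.iz.mul hw.dy).sub (ha.iz.iz.dy.mul hw.dz)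
  refine (((Cg.refl _ _).sub ?_).sub ?_).sub ?_
  · exact ((ha.iz.mul (Cg.refl _ _)).it.eb).smul _
  · exact ((ha.iz.mul hψ.dy.dy.dy).it.eb).smul _
  · exact ((hJ.sub hJ.mn).it.eb).smul _

theorem Cg_YY {k : ℕ} {h : ℝ} {a a' w w' θ θ' : BB} (ha : Cg k a a') (hw : Cg (k + 1) w w')
    (hθ : Cg (k + 1) θ θ') (hθ1 : Od 1 θ') : Cg (k + 1) (YY h a w θ) (YY h a' w' θ') := by
  unfold YY Y1 Y2 Y3
  have hθk : Cg k θ θ' := hθ.mono (Nat.le_succ k)
  refine ((hw.sub ?_).add ?_).sub ?_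
  · rw [mul_assoc, mul_assoc]
    exact hθ.mul_small ((hθk.add (Cg.refl _ _)).mul ha) hθ1
  · apply Cg.smul
    apply Cg.eb
    have h1 := ((Cg.refl k Th0).add hθk)
    exact ((h1.mul ha.iz.dy).add (h1.mul ha.iz.dy)).add (h1.dy.mul ha.iz)
  · apply Cg.smul
    apply Cg.eb
    refine Cg.mono ?_ (Nat.le_succ k)
    apply Cg.eb
    exact ha.iz.iz.dy.dy

/-- congruence of states -/
structure CgS (k : ℕ) (s s' : St) : Prop where
  a : Cg k s.a s'.a
  w : Cg k s.w s'.w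
  ψ : Cg k s.ψ s'.ψ
  θ : Cg k s.θ s'.θ

theorem Od_step_θ (T h μ : ℝ) (N K : ℕ) (s : St) : Od 1 (step T h μ N K s).θ := by
  unfold step Xθ
  simp only
  apply Od.neg
  apply Od.it
  unfold Dy tr
  exact ((((Od_Xψ h μ s.a s.θ).mono (by norm_num)).mop _).mop _).mop _

theorem CgS_step {T h μ : ℝ} {N K k : ℕ} {s s' : St} (hs : CgS k s s') :
    CgS (k + 1) (step T h μ N K s) (step T h μ N K s') := by
  have h1 : Cg (k + 1) (tr K (Xψ h μ s.a s.θ)) (tr K (Xψ h μ s'.a s'.θ)) :=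
    (Cg_Xψ hs.a hs.θ).tr K
  have h2 : Cg (k + 1) (Xθ (tr K (Xψ h μ s.a s.θ))) (Xθ (tr K (Xψ h μ s'.a s'.θ))) := by
    unfold Xθ
    have := ((h1.dy.dy.it).smul (-1))
    simpa using this
  have h3 : Cg (k + 1) (tr K (Xw h μ s.a s.w (tr K (Xψ h μ s.a s.θ))))
      (tr K (Xw h μ s'.a s'.w (tr K (Xψ h μ s'.a s'.θ)))) :=
    (Cg_Xw hs.a hs.w (h1.mono (Nat.le_succ k))).tr K
  have h4 := Od_step_θ T h μ N K s'
  refine ⟨?_, h3, h1, h2⟩
  exact ((Cg.refl _ _).mul (Cg_YY (h := h) hs.a h3 h2 h4)).tr K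

/-- the iterates -/
noncomputable def iter (T h μ : ℝ) (N K : ℕ) : ℕ → St
  | 0 => ⟨0, 0, 0, 0⟩
  | n + 1 => step T h μ N K (iter T h μ N K n)

theorem CgS_iter (T h μ : ℝ) (N K n : ℕ) :
    CgS n (iter T h μ N K (n + 1)) (iter T h μ N K n) := by
  induction n with
  | zero => exact ⟨Od_zero _, Od_zero _, Od_zero _, Od_zero _⟩
  | succ n ih => exact CgS_step ih

theorem eq_of_Cg_tr {K : ℕ} {f g : BB} (h : Cg (K + 1) (tr K f) (tr K g)) : tr K f = tr K g := by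
  have h1 : tr K (tr K f - tr K g) = 0 := tr_eq_zero h
  have h2 : ∀ f : BB, tr K (tr K f) = tr K f := by
    intro f
    apply BB.ext'
    intro a
    simp only [tr, mop_coeff, smul_smul]
    by_cases h : a.1 ≤ K <;> simp [h]
  rw [map_sub, h2, h2] at h1
  exact sub_eq_zero.mp h1

/-- the fixed point -/
noncomputable def fp (T h μ : ℝ) (N K : ℕ) : St := iter T h μ N K (K + 1)

theorem fp_fixed (T h μ : ℝ) (N K : ℕ) : step T h μ N K (fp T h μ N K) = fp T h μ N K := by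
  have h1 := CgS_iter T h μ N K (K + 1)
  have e1 : iter T h μ N K (K + 1 + 1) = step T h μ N K (fp T h μ N K) := rfl
  have e2 : fp T h μ N K = step T h μ N K (iter T h μ N K K) := rfl
  have e3 : iter T h μ N K (K + 1) = fp T h μ N K := rfl
  rw [e1, e3] at h1
  have hψ : (step T h μ N K (fp T h μ N K)).ψ = (fp T h μ N K).ψ := by
    have := h1.ψ
    rw [e2] at this ⊢
    exact eq_of_Cg_tr this
  have hw : (step T h μ N K (fp T h μ N K)).w = (fp T h μ N K).w := by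
    have := h1.w
    rw [e2] at this ⊢
    exact eq_of_Cg_tr this
  have ha : (step T h μ N K (fp T h μ N K)).a = (fp T h μ N K).a := by
    have := h1.a
    rw [e2] at this ⊢
    exact eq_of_Cg_tr this
  have hθ : (step T h μ N K (fp T h μ N K)).θ = (fp T h μ N K).θ := by
    have h3 : (step T h μ N K (fp T h μ N K)).θ = Xθ (step T h μ N K (fp T h μ N K)).ψ := rfl
    have h4 : (fp T h μ N K).θ = Xθ (fp T h μ N K).ψ := rfl
    rw [h3, h4, hψ]
  cases hs : step T h μ N K (fp T h μ N K) with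
  | mk a w ψ θ =>
    cases hs' : fp T h μ N K with
    | mk a' w' ψ' θ' =>
      rw [hs, hs'] at hψ hw ha hθ
      simp only at hψ hw ha hθ
      rw [hψ, hw, ha, hθ]

end Pool.Agent.EulerInflation
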