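import Pool.Agent.Work.MP_8b4a1b_an.Bd.B04
import Pool.Agent.Work.MP_8b4a1b_an.Bd.B01

/-!
Norm inflation: choice of the parameters.
-/

open MeasureTheory Set
open scoped ENNReal NNReal ContDiff FourierTransform Real

namespace Pool.Agent.EulerInflation

open Est

theorem hsNorm_lt {s ε : ℝ} (hε : 0 < ε) {v : EuclideanSpace ℝ (Fin 2) → EuclideanSpace ℝ (Fin 2)}
    {X : ℝ} (hX : 0 ≤ X) (h0 : sobSq s (fun x => ((v x 0 : ℝ) : ℂ)) ≤ ENNReal.ofReal X)
    (h1 : sobSq s (fun x => ((v x 1 : ℝ) : ℂ)) ≤ ENNReal.ofReal X) (h2 : 2 * X < ε ^ 2) :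
    hsNorm s v < ENNReal.ofReal ε := by
  unfold hsNorm
  have e : ENNReal.ofReal ε = (ENNReal.ofReal (ε ^ 2)) ^ (1 / 2 : ℝ) := by
    rw [ENNReal.ofReal_rpow_of_nonneg (by positivity) (by norm_num)]
    congr 1
    rw [← Real.sqrt_eq_rpow, Real.sqrt_sq hε.le]
  rw [e]
  apply ENNReal.rpow_lt_rpow _ (by norm_num)
  calc _ ≤ ENNReal.ofReal X + ENNReal.ofReal X := add_le_add h0 h1
    _ = ENNReal.ofReal (2 * X) := by rw [← ENNReal.ofReal_add hX hX]; congr 1; ring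
    _ < ENNReal.ofReal (ε ^ 2) := (ENNReal.ofReal_lt_ofReal_iff (by positivity)).2 h2

theorem lt_hsNorm {s ε : ℝ} (hε : 0 < ε) {v : EuclideanSpace ℝ (Fin 2) → EuclideanSpace ℝ (Fin 2)}
    {X : ℝ} (h1 : ENNReal.ofReal X ≤ sobSq s (fun x => ((v x 1 : ℝ) : ℂ)))
    (h2 : 1 / ε ^ 2 < X) : ENNReal.ofReal (1 / ε) < hsNorm s v := by
  unfold hsNorm
  have e : ENNReal.ofReal (1 / ε) = (ENNReal.ofReal (1 / ε ^ 2)) ^ (1 / 2 : ℝ) := by
    rw [ENNReal.ofReal_rpow_of_nonneg (by positivity) (by norm_num)]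
    congr 1
    have : 1 / ε ^ 2 = (1 / ε) ^ 2 := by ring
    rw [this, ← Real.sqrt_eq_rpow, Real.sqrt_sq (by positivity)]
  rw [e]
  apply ENNReal.rpow_lt_rpow _ (by norm_num)
  calc ENNReal.ofReal (1 / ε ^ 2) < ENNReal.ofReal X :=
        (ENNReal.ofReal_lt_ofReal_iff (lt_trans (by positivity) h2)).2 h2
    _ ≤ _ := h1
    _ ≤ _ := le_add_self

set_option maxHeartbeats 4000000 in
theorem norm_inflation {s : ℝ} (hs : 0 < s) (hs1 : s < 1) {ε : ℝ} (hε : 0 < ε) :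
    ∃ u₀ : EuclideanSpace ℝ (Fin 2) → EuclideanSpace ℝ (Fin 2),
      ContDiff ℝ ∞ u₀ ∧ HasCompactSupport u₀ ∧
      (∀ x, pd 0 (fun y => u₀ y 0) x + pd 1 (fun y => u₀ y 1) x = 0) ∧
      hsNorm s u₀ < ENNReal.ofReal ε ∧
      ∃ t : ℝ, 0 < t ∧ t < ε ∧
        ∀ (u : ℝ → EuclideanSpace ℝ (Fin 2) → EuclideanSpace ℝ (Fin 2))
          (p : ℝ → EuclideanSpace ℝ (Fin 2) → ℝ), IsEulerSolution u p → u 0 = u₀ →
          ENNReal.ofReal (1 / ε) < hsNorm s (u t) := by
  obtain ⟨B, hB1, hB⟩ := Loc.exists_bump_bound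
  obtain ⟨C₀, hC₀, hloc⟩ := localise
  have hD := Dc_pos B
  have hbB := bBc_pos B
  -- the amplitude
  set Λ2 : ℝ := ε ^ 2 / (8 * (bBc B + 51)) with hΛ2
  have hΛ0 : 0 < Λ2 := by rw [hΛ2]; positivity
  clear_value Λ2
  -- the size of the perturbation
  set M : ℝ := Real.sqrt (8 * Dc B / (Λ2 * ε ^ 2)) with hM
  have hM0 : 0 < M := Real.sqrt_pos.2 (by positivity)
  have hM2 : M ^ 2 = 8 * Dc B / (Λ2 * ε ^ 2) := Real.sq_sqrt (by positivity)
  clear_value M
  -- the parameter `η`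
  set η : ℝ := min 1 ((1 / M ^ 2) ^ (1 / (1 - s))) with hη
  have h1s : 0 < 1 - s := by linarith
  have hη0 : 0 < η := lt_min one_pos (by positivity)
  have hη1 : η ≤ 1 := min_le_left _ _
  have hηM : M ^ 2 * η ^ (1 - s) ≤ 1 := by
    have h1 : η ^ (1 - s) ≤ ((1 / M ^ 2) ^ (1 / (1 - s))) ^ (1 - s) :=
      Real.rpow_le_rpow hη0.le (min_le_right _ _) h1s.le
    rw [← Real.rpow_mul (by positivity), one_div_mul_cancel h1s.ne', Real.rpow_one] at h1
    calc M ^ 2 * η ^ (1 - s) ≤ M ^ 2 * (1 / M ^ 2) := mul_le_mul_of_nonneg_left h1 (by positivity)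
      _ = 1 := by field_simp
  clear_value η
  obtain ⟨T, hT, hker⟩ := exists_time hη0
  have hT0 : 0 < T := by linarith
  obtain ⟨C, hC, κ₀, hκ₀, hper⟩ := per_approx hT
  set κ : ℝ := min κ₀ (min 1 (min (1 / 8) (η / 4) / C)) with hκ
  have hκ0 : 0 < κ := by
    rw [hκ]
    refine lt_min hκ₀ (lt_min one_pos ?_)
    apply div_pos _ hC
    exact lt_min (by norm_num) (by linarith)
  have hκκ : κ ≤ κ₀ := min_le_left _ _
  have hκ1 : κ ≤ 1 := (min_le_right _ _).trans (min_le_left _ _)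
  have hCκ : C * κ ≤ min (1 / 8) (η / 4) := by
    have : κ ≤ min (1 / 8) (η / 4) / C := (min_le_right _ _).trans (min_le_right _ _)
    rw [le_div_iff₀ hC] at this
    linarith
  have hε8 : C * κ ≤ 1 / 8 := hCκ.trans (min_le_left _ _)
  have hεη : C * κ ≤ η / 4 := hCκ.trans (min_le_right _ _)
  clear_value κ
  -- the time scale
  set τ : ℝ := min 1 (ε / (2 * T)) with hτ
  have hτ0 : 0 < τ := lt_min one_pos (by positivity)
  have hτ1 : τ ≤ 1 := min_le_left _ _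
  have hτT : τ * T < ε := by
    have h1 : τ * T ≤ ε / (2 * T) * T := mul_le_mul_of_nonneg_right (min_le_right _ _) hT0.le
    have h2 : ε / (2 * T) * T = ε / 2 := by field_simp
    linarith
  clear_value τ
  -- the frequency
  set C' : ℝ := (17 + 16 * C₀) * T + T / τ * (8 * C ^ 2) + 1 with hC'
  have hC'0 : 0 < C' := by rw [hC']; positivity
  clear_value C'
  obtain ⟨m, K, hm, hK1, hμκ, hKm, hexp⟩ :=
    exists_large hs hs1 hM0 hκ0 hC'0 (show 0 < 1 / (8 * Dc B) by positivity)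
  set μ : ℝ := M * (m : ℝ) ^ (-s) with hμ
  have hm0 : (0 : ℝ) < m := by exact_mod_cast hm
  have hm1 : (1 : ℝ) ≤ m := by exact_mod_cast hm
  have hμ0 : 0 < μ := by rw [hμ]; positivity
  have hμ1 : μ ≤ 1 := hμκ.trans hκ1
  have hμm : μ * m = M * (m : ℝ) ^ (1 - s) := by
    rw [hμ, mul_assoc]
    congr 1
    nth_rewrite 2 [← Real.rpow_one (m : ℝ)]
    rw [← Real.rpow_add hm0]
    congr 1
    ring
  have hμs : μ ^ 2 * (m : ℝ) ^ (2 * s) = M ^ 2 := by
    rw [hμ, mul_pow, mul_assoc, ← Real.rpow_natCast ((m : ℝ) ^ (-s)), ← Real.rpow_mul hm0.le,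
      ← Real.rpow_add hm0]
    have : -s * ((2 : ℕ) : ℝ) + 2 * s = 0 := by push_cast; ring
    rw [this, Real.rpow_zero, mul_one]
  clear_value μ
  obtain ⟨ψB, ψP, P, PA⟩ := hper κ hκ0 hκκ m K μ hm hKm hμ0 hμκ
  -- localisation
  set δ : ℝ := C * (1 / 4) ^ K with hδ
  have hδ0 : 0 ≤ δ := by rw [hδ]; positivity
  obtain ⟨CL, hCL⟩ := hloc T (fun t y => ψB t y + ψP t y) P (2 + 2 * (μ * m)) 4 δ hT0.le hδ0
    (PA.sB.add PA.sP) PA.sQ
    (fun t x i => by rw [PA.perB, PA.perP]) PA.perQ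
    (fun t ht x => by
      constructor
      · have h1 := PA.bB0 t ht x
        have h2 := PA.bP0 t ht x
        exact (abs_add_le _ _).trans (by linarith)
      · intro i
        rw [Est.pd_add (space_smooth PA.sB t) (space_smooth PA.sP t)]
        have h1 := PA.bB1 t ht x i
        have h2 := PA.bP1 t ht x i
        exact (abs_add_le _ _).trans (by linarith))
    (fun t ht x i j => by
      have e : pd j (fun y => ψB t y + ψP t y) = fun y => pd j (ψB t) y + pd j (ψP t) y :=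
        funext fun y => Est.pd_add (space_smooth PA.sB t) (space_smooth PA.sP t) j y
      show |pd i (pd j (fun y => ψB t y + ψP t y)) x| ≤ _
      rw [e, Est.pd_add (pd_smooth (space_smooth PA.sB t) j) (pd_smooth (space_smooth PA.sP t) j)]
      have h1 := PA.bB2 t ht x i j
      have h2 := PA.bP2 t ht x i j
      exact (abs_add_le _ _).trans (by linarith))
    PA.res1 PA.res2
  -- the exponential factor
  set X : ℝ := Real.exp ((4 * ((2 + 2 * (μ * m)) + C₀ * 4) + 1) * T) with hX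
  have hX0 : 0 < X := Real.exp_pos _
  have hXle : X ≤ Real.exp (C' * (1 + M * (m : ℝ) ^ (1 - s))) := by
    rw [hX]
    apply Real.exp_le_exp.2
    rw [← hμm]
    have hz : 0 ≤ μ * m := by positivity
    have h1 : (17 + 16 * C₀) * T ≤ C' := by
      rw [hC']
      have : 0 ≤ T / τ * (8 * C ^ 2) := by positivity
      linarith
    calc (4 * ((2 + 2 * (μ * m)) + C₀ * 4) + 1) * T =
          (9 + 16 * C₀) * T + (8 * T) * (μ * m) := by ring
      _ ≤ (17 + 16 * C₀) * T + ((17 + 16 * C₀) * T) * (μ * m) := by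
          apply add_le_add
          · clear * - hT0
            linarith
          · apply mul_le_mul_of_nonneg_right _ hz
            have := mul_pos hC₀ hT0
            clear * - hT0 this
            linarith
      _ = ((17 + 16 * C₀) * T) * (1 + μ * m) := by ring
      _ ≤ C' * (1 + μ * m) := mul_le_mul_of_nonneg_right h1 (by linarith)
  have hres8 : T / τ * (8 * δ ^ 2) * X ≤ 1 / (8 * Dc B) * μ ^ 2 := by
    have h1 : δ ^ 2 = C ^ 2 * (1 / 16) ^ K := by
      rw [hδ, mul_pow, ← pow_mul, mul_comm K 2, pow_mul]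
      norm_num
    rw [h1]
    refine le_trans ?_ hexp
    calc T / τ * (8 * (C ^ 2 * (1 / 16) ^ K)) * X =
          (T / τ * (8 * C ^ 2)) * (1 / 16) ^ K * X := by ring
      _ ≤ C' * (1 / 16) ^ K * Real.exp (C' * (1 + M * (m : ℝ) ^ (1 - s))) := by
          apply mul_le_mul _ hXle hX0.le (by positivity)
          apply mul_le_mul_of_nonneg_right _ (by positivity)
          rw [hC']
          have : 0 ≤ (17 + 16 * C₀) * T := by positivity
          linarith
  -- the size of the box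
  set Λ : ℝ := Real.sqrt Λ2 with hΛ
  have hΛp : 0 < Λ := Real.sqrt_pos.2 hΛ0
  have hΛsq : Λ ^ 2 = Λ2 := Real.sq_sqrt hΛ0.le
  clear_value Λ
  set L : ℝ := 1 + Λ * τ + (4 + 24 * (4 * (1 + B ^ 2) ^ 2) / μ) +
    24 * (B ^ 2 * 2) ^ 2 / (μ ^ 2 * η) +
    12 * (2 * (μ * m) + B ^ 2 * (2 * (2 * μ) + 2)) ^ 2 / (μ * m) ^ 2 +
    T / τ * |CL| * X * (8 * Dc B) / μ ^ 2 with hL
  have p1 : 0 < Λ * τ := by positivity
  have p2 : 0 < 4 + 24 * (4 * (1 + B ^ 2) ^ 2) / μ := by positivity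
  have p3 : 0 ≤ 24 * (B ^ 2 * 2) ^ 2 / (μ ^ 2 * η) := by positivity
  have p4 : 0 ≤ 12 * (2 * (μ * m) + B ^ 2 * (2 * (2 * μ) + 2)) ^ 2 / (μ * m) ^ 2 := by positivity
  have p5 : 0 ≤ T / τ * |CL| * X * (8 * Dc B) / μ ^ 2 := by positivity
  have hL1 : 1 ≤ L := by rw [hL]; linarith
  have hL0 : 0 < L := by linarith
  have hLa : Λ * τ ≤ L := by rw [hL]; linarith
  have hLb : 4 + 24 * (4 * (1 + B ^ 2) ^ 2) / μ ≤ L := by rw [hL]; linarith
  have hLc : 24 * (B ^ 2 * 2) ^ 2 ≤ μ ^ 2 * η * L := by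
    have h1 : 24 * (B ^ 2 * 2) ^ 2 / (μ ^ 2 * η) ≤ L := by rw [hL]; linarith
    rw [div_le_iff₀ (by positivity)] at h1
    linarith
  have hLd : 12 * (2 * (μ * m) + B ^ 2 * (2 * (2 * μ) + 2)) ^ 2 ≤ (μ * m) ^ 2 * L := by
    have h1 : 12 * (2 * (μ * m) + B ^ 2 * (2 * (2 * μ) + 2)) ^ 2 / (μ * m) ^ 2 ≤ L := by
      rw [hL]; linarith
    rw [div_le_iff₀ (by positivity)] at h1
    linarith
  have hLe : T / τ * |CL| * X * (8 * Dc B) ≤ μ ^ 2 * L := by
    have h1 : T / τ * |CL| * X * (8 * Dc B) / μ ^ 2 ≤ L := by rw [hL]; linarith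
    rw [div_le_iff₀ (by positivity)] at h1
    linarith
  clear_value L
  obtain ⟨hv, hq, hvq, hdiv, hgrad, hres⟩ := hCL L hL1
  have hsmall : T / τ * (8 * L ^ 2 * δ ^ 2 + CL * L) * X ≤ μ ^ 2 * L ^ 2 / (4 * Dc B) := by
    have h1 : T / τ * (8 * L ^ 2 * δ ^ 2 + CL * L) * X ≤
        (T / τ * (8 * δ ^ 2) * X) * L ^ 2 + (T / τ * |CL| * X) * L := by
      have h2 : CL * L ≤ |CL| * L := mul_le_mul_of_nonneg_right (le_abs_self _) hL0.le
      have h3 : 0 ≤ T / τ := by positivity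
      calc T / τ * (8 * L ^ 2 * δ ^ 2 + CL * L) * X ≤
          T / τ * (8 * L ^ 2 * δ ^ 2 + |CL| * L) * X := by
            apply mul_le_mul_of_nonneg_right _ hX0.le
            apply mul_le_mul_of_nonneg_left _ h3
            linarith
        _ = _ := by ring
    have h4 : (T / τ * |CL| * X) * L ≤ μ ^ 2 * L ^ 2 / (8 * Dc B) := by
      rw [le_div_iff₀ (by positivity)]
      calc (T / τ * |CL| * X) * L * (8 * Dc B) = (T / τ * |CL| * X * (8 * Dc B)) * L := by ring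
        _ ≤ (μ ^ 2 * L) * L := mul_le_mul_of_nonneg_right hLe hL0.le
        _ = _ := by ring
    have h5 : (T / τ * (8 * δ ^ 2) * X) * L ^ 2 ≤ (1 / (8 * Dc B) * μ ^ 2) * L ^ 2 :=
      mul_le_mul_of_nonneg_right hres8 (by positivity)
    have h6 : (1 / (8 * Dc B) * μ ^ 2) * L ^ 2 + μ ^ 2 * L ^ 2 / (8 * Dc B) =
        μ ^ 2 * L ^ 2 / (4 * Dc B) := by
      field_simp
      ring
    linarith
  -- the space scale
  have h2s : 0 < 2 - s := by linarith
  set lam : ℝ := (Λ * τ / L) ^ (1 / (2 - s)) with hlam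
  have hlam0 : 0 < lam := by rw [hlam]; positivity
  have hlam1 : lam ≤ 1 := by
    rw [hlam]
    apply Real.rpow_le_one (by positivity) _ (by positivity)
    rw [div_le_one hL0]
    exact hLa
  have hlamΛ : lam ^ (4 - 2 * s) * L ^ 2 / τ ^ 2 = Λ2 := by
    have h1 : lam ^ (2 - s) = Λ * τ / L := by
      rw [hlam, ← Real.rpow_mul (by positivity), one_div_mul_cancel h2s.ne', Real.rpow_one]
    have h2 : lam ^ (4 - 2 * s) = (lam ^ (2 - s)) ^ 2 := by
      rw [← Real.rpow_natCast, ← Real.rpow_mul hlam0.le]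
      congr 1
      push_cast
      ring
    rw [h2, h1, ← hΛsq]
    field_simp
  clear_value lam
  -- the data
  have hdata := smooth_data (T := T) (lam := lam) (τ := τ) hlam0 hv (isCompact_box L)
    (fun t x hx => (hvq t x hx).1) hdiv
  refine ⟨fun x => -((lam / τ) • vL L (fun t y => ψB t y + ψP t y) T (lam⁻¹ • x)),
    hdata.1, hdata.2.1, hdata.2.2, ?_, τ * T, by positivity, hτT, ?_⟩
  · have hprod : μ ^ 2 * (m : ℝ) ^ (2 * s) * η ^ (1 - s) ≤ 1 := by rw [hμs]; exact hηM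
    have hup := fun (σ : ℝ) (hσ : σ ^ 2 = 1) (j : Fin 2) =>
      upper_comp PA hs hs1 hT hB1 hB hL1 hlam0 hlam1 hτ0 hσ hμ0 hm hη0 hη1 (by positivity) hεη
        (hker L hL1) hLc hLd hprod j
    rw [hlamΛ] at hup
    have hval : 2 * (2 * (Λ2 * (bBc B + 51))) < ε ^ 2 := by
      have : Λ2 * (bBc B + 51) = ε ^ 2 / 8 := by
        rw [hΛ2]
        field_simp
      rw [this]
      have : 0 < ε ^ 2 := by positivity
      linarith
    refine hsNorm_lt hε (X := 2 * (Λ2 * (bBc B + 51))) (by positivity) ?_ ?_ hval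
    · have e : (fun x : EuclideanSpace ℝ (Fin 2) =>
          (((-((lam / τ) • vL L (fun t y => ψB t y + ψP t y) T (lam⁻¹ • x))) 0 : ℝ) : ℂ)) =
          fun x => ((1 * (lam / τ) * FL L (fun y => ψB T y + ψP T y) 1 (lam⁻¹ • x) : ℝ) : ℂ) := by
        funext x
        congr 1
        rw [PiLp.neg_apply, PiLp.smul_apply, vL_zero, smul_eq_mul]
        ring
      rw [e]
      exact hup 1 (by norm_num) 1
    · have e : (fun x : EuclideanSpace ℝ (Fin 2) =>
          (((-((lam / τ) • vL L (fun t y => ψB t y + ψP t y) T (lam⁻¹ • x))) 1 : ℝ) : ℂ)) =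
          fun x => ((-1 * (lam / τ) * FL L (fun y => ψB T y + ψP T y) 0 (lam⁻¹ • x) : ℝ) : ℂ) := by
        funext x
        congr 1
        rw [PiLp.neg_apply, PiLp.smul_apply, vL_one, smul_eq_mul]
        ring
      rw [e]
      exact hup (-1) (by norm_num) 0
  · intro u p h h0
    have hlow := lower_comp PA hs hs1 hT hB1 hB hL1 hlam0 hτ0 hτ1 hμ0 hμ1 hm hε8 hC₀ hv hq hvq
      hdiv hgrad hres hsmall hLb h (fun x => by rw [h0])
    rw [hlamΛ, hμs] at hlow
    refine lt_hsNorm hε hlow ?_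
    rw [hM2]
    have : Λ2 * (8 * Dc B / (Λ2 * ε ^ 2)) / (4 * Dc B) = 2 / ε ^ 2 := by
      field_simp
      ring
    rw [this]
    exact (div_lt_div_iff_of_pos_right (by positivity)).2 (by norm_num)

end Pool.Agent.EulerInflation
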