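import Pool.Agent.Work.MP_8b4a1b_an.Bd.B03

/-!
Pointwise bounds on the plane.
-/

open Polynomial MeasureTheory Set
open scoped ContDiff Real

namespace Pool.Agent.EulerInflation

/-! evaluation of the basic elements -/

theorem ex_cos (Z y : ℝ) : ex Z y (0, 0, 1) + ex Z y (0, 0, -1) = ((2 * Real.cos y : ℝ) : ℂ) := by
  unfold ex
  push_cast
  rw [Complex.cos]
  have e1 : Complex.I * (0 * (Z : ℂ) + 1 * (y : ℂ)) = (y : ℂ) * Complex.I := by ring
  have e2 : Complex.I * (0 * (Z : ℂ) + -1 * (y : ℂ)) = -(y : ℂ) * Complex.I := by ring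
  rw [e1, e2]
  ring

theorem ev_Th0 (t Z y : ℝ) : ev t Z y Th0 = ((t * Real.cos y : ℝ) : ℂ) := by
  have h := ex_cos Z y
  unfold Th0
  rw [map_add, ev_single, ev_single]
  simp only [eval_mul, eval_C, eval_X]
  have : ((t * Real.cos y : ℝ) : ℂ) = (1 / 2 : ℂ) * t * ((2 * Real.cos y : ℝ) : ℂ) := by
    push_cast; ring
  rw [this, ← h]
  ring

theorem ev_SS (t Z y : ℝ) : ev t Z y SS = ((1 + (t * Real.cos y) ^ 2 : ℝ) : ℂ) := by
  unfold SS
  rw [map_add, map_one, map_mul, ev_Th0]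
  push_cast
  ring

theorem ev_Izw0 (t Z y : ℝ) : ev t Z y (Iz w0) = ((Real.sin Z : ℝ) : ℂ) := by
  unfold w0
  rw [map_add, Iz, mop_single, mop_single, map_add, ev_single, ev_single]
  unfold ex
  simp only [eval_smul, eval_C, smul_eq_mul]
  push_cast
  rw [Complex.sin]
  have e1 : Complex.I * (1 * (Z : ℂ) + 0 * (y : ℂ)) = (Z : ℂ) * Complex.I := by ring
  have e2 : Complex.I * (-1 * (Z : ℂ) + 0 * (y : ℂ)) = -(Z : ℂ) * Complex.I := by ring
  rw [e1, e2]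
  have e3 : (Complex.I * 1)⁻¹ = -Complex.I := by simp
  have e4 : (Complex.I * -1)⁻¹ = Complex.I := by simp
  rw [e3, e4]
  ring

theorem tn_zero_Th0 (t : ℂ) : tn 0 t Th0 ≤ ‖t‖ := by
  have := tn_Th0 0 t
  simpa using this

/-- real value of the approximate inverse -/
noncomputable def sv (T : ℝ) (N : ℕ) (t y : ℝ) : ℝ :=
  (cT T)⁻¹ * ∑ l ∈ Finset.range N, (1 - (cT T)⁻¹ * (1 + (t * Real.cos y) ^ 2)) ^ l

theorem ev_sg (T : ℝ) (N : ℕ) (t Z y : ℝ) : ev t Z y (sg T N) = ((sv T N t y : ℝ) : ℂ) := by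
  unfold sg sv
  rw [ev_smul, map_sum]
  push_cast
  congr 1
  apply Finset.sum_congr rfl
  intro l _
  rw [map_pow, map_sub, map_one, ev_smul, ev_SS]
  push_cast
  ring

theorem S_le {T t y : ℝ} (hT : 1 ≤ T) (h0 : 0 ≤ t) (h1 : t ≤ T) :
    1 + (t * Real.cos y) ^ 2 ≤ cT T := by
  unfold cT
  have h2 : Real.cos y ^ 2 ≤ 1 := by
    nlinarith [Real.cos_sq_add_sin_sq y, sq_nonneg (Real.sin y)]
  have h3 : t ^ 2 ≤ T ^ 2 := pow_le_pow_left₀ h0 h1 2
  rw [mul_pow]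
  nlinarith [sq_nonneg (Real.cos y)]

theorem sv_nonneg {T t y : ℝ} (N : ℕ) (hT : 1 ≤ T) (h0 : 0 ≤ t) (h1 : t ≤ T) :
    0 ≤ sv T N t y := by
  have hc := cT_pos hT
  unfold sv
  apply mul_nonneg (by positivity)
  apply Finset.sum_nonneg
  intro l _
  apply pow_nonneg
  have := S_le (y := y) hT h0 h1
  rw [sub_nonneg, inv_mul_le_iff₀ (by linarith)]
  linarith

theorem sv_mul {T t y : ℝ} (N : ℕ) (hT : 1 ≤ T) (h0 : 0 ≤ t) (h1 : t ≤ T) :
    (1 + (t * Real.cos y) ^ 2) * sv T N t y ≤ 1 := by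
  have hc := cT_pos hT
  set S := 1 + (t * Real.cos y) ^ 2 with hS
  have h := mul_neg_geom_sum (1 - (cT T)⁻¹ * S) N
  rw [sub_sub_cancel] at h
  unfold sv
  rw [← hS]
  have e1 : S * ((cT T)⁻¹ * ∑ l ∈ Finset.range N, (1 - (cT T)⁻¹ * S) ^ l) =
      1 - (1 - (cT T)⁻¹ * S) ^ N := by
    rw [← h]; ring
  rw [e1]
  have h2 : 0 ≤ (1 - (cT T)⁻¹ * S) ^ N := by
    apply pow_nonneg
    have := S_le (y := y) hT h0 h1
    rw [sub_nonneg, inv_mul_le_iff₀ (by linarith)]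
    linarith
  linarith

theorem sv_le {T t y : ℝ} (N : ℕ) (hT : 1 ≤ T) (h0 : 0 ≤ t) (h1 : t ≤ T) :
    sv T N t y ≤ 1 / (1 + (t * Real.cos y) ^ 2) := by
  rw [le_div_iff₀ (by positivity), mul_comm]
  exact sv_mul N hT h0 h1

/-! total norms of derived elements -/

theorem tn_X_mul {τ : ℝ} (hτ : 0 ≤ τ) (t : ℂ) (x : ℝ) (hx : 0 ≤ x) (f : BB) :
    tn τ t (((x : ℂ) • eb) * f) ≤ x * tn τ t f := by
  rw [smul_mul_assoc, tn_smul, Complex.norm_real, Real.norm_of_nonneg hx]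
  exact mul_le_mul_of_nonneg_left (tn_eb_mul hτ t f) hx

theorem tn_Dy_half {T : ℝ} (hT : 1 ≤ T) (t : ℂ) (f : BB) :
    tn 0 t (Dy f) ≤ 2 / τT T * tn (τT T / 2) t f := by
  have hτ := τT_pos hT
  have e2 := tn_Dy_le (τ := 0) (δ := τT T / 2) (by positivity) t f
  rw [zero_add, inv_div] at e2
  exact e2

theorem tn_Dy_quarter {T : ℝ} (hT : 1 ≤ T) (t : ℂ) (f : BB) :
    tn 0 t (Dy (Dy f)) ≤ 4 / τT T * (4 / τT T * tn (τT T / 2) t f) := by
  have hτ := τT_pos hT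
  have e1 := tn_Dy_le (τ := 0) (δ := τT T / 4) (by positivity) t (Dy f)
  have e2 := tn_Dy_le (τ := τT T / 4) (δ := τT T / 4) (by positivity) t f
  rw [zero_add, inv_div] at e1
  rw [inv_div] at e2
  refine e1.trans (mul_le_mul_of_nonneg_left (e2.trans ?_) (by positivity))
  rw [show τT T / 4 + τT T / 4 = τT T / 2 by ring]

/-- constants -/
noncomputable def q1 (T : ℝ) : ℝ := 320 * (2 / τT T)
/-- constants -/
noncomputable def q2 (T : ℝ) : ℝ := 2 / τT T * (3 * (T + 2))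
/-- constants -/
noncomputable def q3 (T : ℝ) : ℝ := 4 / τT T * (4 / τT T * 320)
/-- constants -/
noncomputable def q4 (T : ℝ) : ℝ := q3 T + 320 * q2 T + 6 * (T + 2) * q1 T
/-- constants -/
noncomputable def e1c (T : ℝ) : ℝ :=
  2 * (32 * (c6 T + c7 T + c8 T)) + 2 * (32 * (c3 T + c4 T + c5 T))

theorem q_pos {T : ℝ} (hT : 1 ≤ T) : 0 < q1 T ∧ 0 < q2 T ∧ 0 < q3 T ∧ 0 < q4 T ∧ 0 < e1c T := by
  have hτ := τT_pos hT
  have h1 : 0 < q1 T := by unfold q1; positivity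
  have h2 : 0 < q2 T := by unfold q2; positivity
  have h3 : 0 < q3 T := by unfold q3; positivity
  refine ⟨h1, h2, h3, ?_, ?_⟩
  · unfold q4; positivity
  · have := c3_pos hT; have := c4_pos hT; have := c5_pos hT
    have := c6_pos hT; have := c7_pos hT; have := c8_pos hT
    unfold e1c; positivity

theorem tr_OZ {z : BB} (K : ℕ) (hz : ∀ a : Idx, a.1 ≠ 0 → z.coeff a = 0) : tr K z = z := by
  apply BB.ext'
  intro a
  simp only [tr, mop_coeff]
  by_cases ha : a.1 = 0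
  · simp [ha]
  · simp [hz a ha]

theorem OZc_mul {f g : BB} (hf : ∀ a : Idx, a.1 ≠ 0 → f.coeff a = 0)
    (hg : ∀ a : Idx, a.1 ≠ 0 → g.coeff a = 0) : ∀ a : Idx, a.1 ≠ 0 → (f * g).coeff a = 0 := by
  classical
  intro a ha
  rw [AddMonoidAlgebra.mul_def]
  simp only [Finsupp.sum]
  rw [AddMonoidAlgebra.coeff_sum, Finsupp.finsetSum_apply]
  apply Finset.sum_eq_zero
  intro b _
  rw [AddMonoidAlgebra.coeff_sum, Finsupp.finsetSum_apply]
  apply Finset.sum_eq_zero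
  intro c _
  rw [AddMonoidAlgebra.coeff_single, Finsupp.single_apply]
  split_ifs with h
  · by_cases hb : b.1 = 0
    · by_cases hc : c.1 = 0
      · exfalso
        apply ha
        rw [← h, Prod.fst_add, hb, hc]
      · rw [hg c hc, mul_zero]
    · rw [hf b hb, zero_mul]
  · rfl

theorem OZc_single (j k : ℤ) (p : ℂ[X]) :
    ∀ a : Idx, a.1 ≠ 0 → (AddMonoidAlgebra.single (0, j, k) p : BB).coeff a = 0 := by
  intro a ha
  rw [AddMonoidAlgebra.coeff_single, Finsupp.single_apply]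
  split_ifs with h
  · exfalso; apply ha; rw [← h]
  · rfl

theorem OZc_add {f g : BB} (hf : ∀ a : Idx, a.1 ≠ 0 → f.coeff a = 0)
    (hg : ∀ a : Idx, a.1 ≠ 0 → g.coeff a = 0) : ∀ a : Idx, a.1 ≠ 0 → (f + g).coeff a = 0 := by
  intro a ha
  rw [AddMonoidAlgebra.coeff_add, Finsupp.add_apply, hf a ha, hg a ha, add_zero]

theorem OZc_smul {f : BB} (hf : ∀ a : Idx, a.1 ≠ 0 → f.coeff a = 0) (x : ℂ) :
    ∀ a : Idx, a.1 ≠ 0 → (x • f).coeff a = 0 := by
  intro a ha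
  rw [AddMonoidAlgebra.coeff_smul, Finsupp.smul_apply, hf a ha, smul_zero]

theorem OZc_one : ∀ a : Idx, a.1 ≠ 0 → (1 : BB).coeff a = 0 := by
  rw [AddMonoidAlgebra.one_def]
  exact OZc_single 0 0 1

theorem OZc_sg (T : ℝ) (N : ℕ) : ∀ a : Idx, a.1 ≠ 0 → (sg T N).coeff a = 0 := by
  have hTh : ∀ a : Idx, a.1 ≠ 0 → Th0.coeff a = 0 := OZc_add (OZc_single _ _ _) (OZc_single _ _ _)
  have hS : ∀ a : Idx, a.1 ≠ 0 → SS.coeff a = 0 := OZc_add OZc_one (OZc_mul hTh hTh)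
  have h1 : ∀ a : Idx, a.1 ≠ 0 → (1 - ((cT T : ℂ)⁻¹) • SS).coeff a = 0 := by
    have := OZc_add OZc_one (OZc_smul (OZc_smul hS ((cT T : ℂ)⁻¹)) (-1))
    simpa [sub_eq_add_neg] using this
  have h2 : ∀ l : ℕ, ∀ a : Idx, a.1 ≠ 0 → ((1 - ((cT T : ℂ)⁻¹) • SS) ^ l).coeff a = 0 := by
    intro l
    induction l with
    | zero => rw [pow_zero]; exact OZc_one
    | succ l ih => rw [pow_succ]; exact OZc_mul ih h1
  unfold sg
  apply OZc_smul
  intro a ha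
  rw [AddMonoidAlgebra.coeff_sum, Finsupp.finsetSum_apply]
  apply Finset.sum_eq_zero
  intro l _
  exact h2 l a ha

theorem tr_sg_w0 (T : ℝ) (N K : ℕ) : tr K (sg T N * w0) = sg T N * w0 :=
  tr_OZ K (OZc_mul (OZc_sg T N) (OZc_add (OZc_single _ _ _) (OZc_single _ _ _)))

end Pool.Agent.EulerInflation
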