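import Pool.Agent.Work.MP_8b4a1b_an.Basic0

/-!
The iteration and the invariant ball.
-/

open Polynomial

namespace Pool.Agent.EulerInflation

/-- first part of the mean flow forcing -/
noncomputable def G1 (a : BB) : BB := eb * (eb * It (Mn (Iz a * (eb * Dy (Iz (Iz a))))))
/-- second part of the mean flow forcing -/
noncomputable def G2 (a θ : BB) : BB := eb * (eb * It (Mn (Iz a * ((Th0 + θ) * Iz a))))
/-- untruncated mean flow -/
noncomputable def Xψ (h μ : ℝ) (a θ : BB) : BB :=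
  ((μ ^ 2 : ℝ) : ℂ) • (G2 a θ - (h : ℂ) • G1 a)
/-- tilt -/
noncomputable def Xθ (ψ : BB) : BB := -It (Dy (Dy ψ))
noncomputable def H1 (a : BB) : BB := eb * It (Iz a * Dy (Dy (Dy cosy)))
noncomputable def H2 (a ψ : BB) : BB := eb * It (Iz a * Dy (Dy (Dy ψ)))
noncomputable def JJ (a w : BB) : BB := Iz a * Dy w - Dy (Iz (Iz a)) * Dz w
noncomputable def H3 (a w : BB) : BB := eb * It (JJ a w - Mn (JJ a w))
/-- untruncated vorticity -/
noncomputable def Xw (h μ : ℝ) (a w ψ : BB) : BB :=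
  w0 - (h : ℂ) • H1 a - (h : ℂ) • H2 a ψ - (μ : ℂ) • H3 a w
noncomputable def Y1 (a θ : BB) : BB := θ * (θ + (Th0 + Th0)) * a
noncomputable def Y2 (a θ : BB) : BB :=
  eb * ((Th0 + θ) * Dy (Iz a) + (Th0 + θ) * Dy (Iz a) + Dy (Th0 + θ) * Iz a)
noncomputable def Y3 (a : BB) : BB := eb * (eb * Dy (Dy (Iz (Iz a))))
noncomputable def YY (h : ℝ) (a w θ : BB) : BB :=
  w - Y1 a θ + (h : ℂ) • Y2 a θ - ((h : ℂ) * (h : ℂ)) • Y3 a

/-- constants -/
noncomputable def c1 : ℝ := 16 * 160 * (16 * 3 * 160)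
noncomputable def c2 (T : ℝ) : ℝ := 16 * 160 * (2 ^ 2 / ρT T * (16 * 160))
noncomputable def A1 (T : ℝ) : ℝ :=
  2 ^ 4 / ρT T * (2 ^ 4 / ρT T * c1) + 2 ^ 3 / ρT T * (2 ^ 3 / ρT T * c2 T)
noncomputable def A2 (T : ℝ) : ℝ := 16 * (16 * A1 T)
noncomputable def c3 (T : ℝ) : ℝ := 2 ^ 4 / ρT T * (16 * 160 * 2)
noncomputable def c4 (T : ℝ) : ℝ := 2 ^ 2 / ρT T * (16 * 160 * (16 * (16 * (16 * A1 T))))
noncomputable def c5 (T : ℝ) : ℝ :=
  2 ^ 3 / ρT T * (16 * 160 * (16 * 4) + 16 * (16 * 160) * (16 * 4))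
noncomputable def c6 (T : ℝ) : ℝ := (T + 2) ^ 2 * (16 * (16 * A2 T * 5) * 160)
noncomputable def c7 (T : ℝ) : ℝ :=
  2 ^ 2 / ρT T * (16 * 3 * (16 * 160) + 16 * 3 * (16 * 160) + 16 * (16 * 3) * 160)
noncomputable def c8 (T : ℝ) : ℝ := 2 ^ 1 / ρT T * (2 ^ 1 / ρT T * (16 * (16 * 160)))
/-- the final constant -/
noncomputable def bigC (T : ℝ) : ℝ :=
  1 + A1 T + A2 T + c3 T + c4 T + c5 T + c6 T + c7 T + c8 T + 16 ^ 3 * A1 T

structure Ball (T κ : ℝ) (a w ψ θ : BB) : Prop where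
  ha : Bd T 0 0 3 160 a
  hw : Bd T 0 0 3 4 w
  hψ : Bd T 0 4 4 (κ * A1 T) ψ
  hθ : Bd T 1 2 3 (κ * A2 T) θ

theorem c1_pos : 0 < c1 := by unfold c1; norm_num

section consts
variable {T : ℝ} (hT : 1 ≤ T)
include hT
theorem c2_pos : 0 < c2 T := by have := ρT_pos hT; unfold c2; positivity
theorem A1_pos : 0 < A1 T := by
  have := ρT_pos hT; have := c2_pos hT; have := c1_pos; unfold A1; positivity
theorem A2_pos : 0 < A2 T := by have := A1_pos hT; unfold A2; positivity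
theorem c3_pos : 0 < c3 T := by have := ρT_pos hT; unfold c3; positivity
theorem c4_pos : 0 < c4 T := by have := ρT_pos hT; have := A1_pos hT; unfold c4; positivity
theorem c5_pos : 0 < c5 T := by have := ρT_pos hT; unfold c5; positivity
theorem c6_pos : 0 < c6 T := by have := A2_pos hT; unfold c6; positivity
theorem c7_pos : 0 < c7 T := by have := ρT_pos hT; unfold c7; positivity
theorem c8_pos : 0 < c8 T := by have := ρT_pos hT; unfold c8; positivity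
theorem bigC_ge_one : 1 ≤ bigC T := by
  have := A1_pos hT; have := A2_pos hT; have := c3_pos hT; have := c4_pos hT
  have := c5_pos hT; have := c6_pos hT; have := c7_pos hT; have := c8_pos hT
  unfold bigC; linarith
end consts

theorem It_smul (x : ℂ) (f : BB) : It (x • f) = x • It f := map_smul _ _ _

section bounds
variable {T κ : ℝ} {a w ψ θ : BB}

theorem Bd.G1 (hT : 1 ≤ T) (ha : Bd T 0 0 3 160 a) :
    Bd T (-1) 5 3 (2 ^ 3 / ρT T * (2 ^ 3 / ρT T * c2 T)) (G1 a) := by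
  have e1 : Bd T 0 (0 - 1) 2 (16 * 160) (Dy (Iz (Iz a))) := ha.iz.iz.dy hT (by norm_num)
  have e2 := e1.eb hT
  have e3 := ha.iz.mul hT e2 (by norm_num) (by norm_num) (by norm_num) (by norm_num)
  have e4 : Bd T (0 : ℕ) 1 2 (c2 T) (Iz a * (Pool.Agent.EulerInflation.eb * Dy (Iz (Iz a)))) :=
    e3.mono hT (by norm_num) (by norm_num) le_rfl (le_of_eq (by unfold c2; ring))
  have e5 := e4.mn.it hT
  have e6 := (e5.eb hT).eb hT
  exact e6.mono hT (by norm_num) (by norm_num) le_rfl le_rfl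

theorem Bd.thsum (hT : 1 ≤ T) (hθ : Bd T 1 2 3 (κ * A2 T) θ) (hκ : κ * A2 T ≤ 1) :
    Bd T 1 0 3 3 (Th0 + θ) := by
  have e1 := (Bd_Th0 hT 3).add (hθ.mono hT (α' := 1) (β' := 0) le_rfl (by norm_num) le_rfl hκ)
  exact e1.mono hT le_rfl le_rfl le_rfl (by norm_num)

theorem Bd.G2 (hT : 1 ≤ T) (ha : Bd T 0 0 3 160 a) (hθ : Bd T 1 2 3 (κ * A2 T) θ)
    (hκ : κ * A2 T ≤ 1) :
    Bd T 0 4 4 (2 ^ 4 / ρT T * (2 ^ 4 / ρT T * c1)) (G2 a θ) := by
  have e1 := (Bd.thsum hT hθ hκ).mul hT ha.iz (by norm_num) (by norm_num) (by norm_num)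
    (by norm_num)
  have e2 := ha.iz.mul hT e1 (by norm_num) (by norm_num) (by norm_num) (by norm_num)
  have e4 : Bd T (1 : ℕ) 0 3 c1 (Iz a * ((Th0 + θ) * Iz a)) :=
    e2.mono hT (by norm_num) (by norm_num) le_rfl (le_of_eq (by unfold c1; ring))
  have e5 := e4.mn.it hT
  have e6 := (e5.eb hT).eb hT
  exact e6.mono hT (by norm_num) (by norm_num) le_rfl le_rfl

theorem Bd.H1 (hT : 1 ≤ T) (ha : Bd T 0 0 3 160 a) : Bd T 0 2 4 (c3 T) (H1 a) := by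
  have e1 := ha.iz.mul hT (Bd_Dy3_cosy hT 3) (by norm_num) (by norm_num) (by norm_num)
    (by norm_num)
  have e2 := (Bd.it hT (α := 0) (e1.mono hT (α' := ((0 : ℕ) : ℤ)) (by norm_num) le_rfl le_rfl
    le_rfl)).eb hT
  exact e2.mono hT (by norm_num) (by norm_num) le_rfl le_rfl

theorem Bd.H2 (hT : 1 ≤ T) {κ : ℝ} (ha : Bd T 0 0 3 160 a) (hψ : Bd T 0 4 4 (κ * A1 T) ψ) :
    Bd T 0 3 2 (κ * c4 T) (H2 a ψ) := by
  have e0 : Bd T 0 (4 - 1 - 1 - 1) 1 (16 * (16 * (16 * (κ * A1 T)))) (Dy (Dy (Dy ψ))) :=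
    ((hψ.dy hT (by norm_num)).dy hT (by norm_num)).dy hT (by norm_num)
  have e1 := ha.iz.mul hT e0 (by norm_num) (by norm_num) (by norm_num) (by norm_num)
  have e2 := (Bd.it hT (α := 0) (e1.mono hT (α' := ((0 : ℕ) : ℤ)) (by norm_num) le_rfl le_rfl
    le_rfl)).eb hT
  exact e2.mono hT (by norm_num) (by norm_num) le_rfl (le_of_eq (by unfold c4; ring))

theorem Bd.H3 (hT : 1 ≤ T) (ha : Bd T 0 0 3 160 a) (hw : Bd T 0 0 3 4 w) :
    Bd T 0 0 3 (c5 T) (H3 a w) := by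
  have e1 : Bd T 0 (0 - 1) 2 (16 * 4) (Dy w) := hw.dy hT (by norm_num)
  have e2 : Bd T 0 (0 - 1) 2 (16 * 4) (Dz w) := hw.dz hT (by norm_num)
  have e3 : Bd T 0 (0 - 1) 2 (16 * 160) (Dy (Iz (Iz a))) := ha.iz.iz.dy hT (by norm_num)
  have e4 := ha.iz.mul hT e1 (by norm_num) (by norm_num) (by norm_num) (by norm_num)
  have e5 := e3.mul hT e2 (by norm_num) (by norm_num) (by norm_num) (by norm_num)
  have e6 : Bd T (0 : ℕ) (-2) 2 (16 * 160 * (16 * 4) + 16 * (16 * 160) * (16 * 4)) (JJ a w) :=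
    (e4.mono hT (α' := ((0 : ℕ) : ℤ)) (β' := -2) (by norm_num) (by norm_num) le_rfl le_rfl).sub
    (e5.mono hT (by norm_num) (by norm_num) le_rfl le_rfl)
  have e7 := (e6.subMn.it hT).eb hT
  exact e7.mono hT (by norm_num) (by norm_num) le_rfl (le_of_eq (by unfold c5; ring))

theorem Bd.Y1 (hT : 1 ≤ T) (ha : Bd T 0 0 3 160 a) (hθ : Bd T 1 2 3 (κ * A2 T) θ)
    (hκ : κ * A2 T ≤ 1) : Bd T 0 2 3 (κ * c6 T) (Y1 a θ) := by
  have e0 : Bd T 1 0 3 5 (θ + (Th0 + Th0)) := by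
    have e1 := (hθ.mono hT (α' := 1) (β' := 0) le_rfl (by norm_num) le_rfl hκ).add
      ((Bd_Th0 hT 3).add (Bd_Th0 hT 3))
    exact e1.mono hT le_rfl le_rfl le_rfl (by norm_num)
  have e1 := hθ.mul hT e0 (by norm_num) (by norm_num) (by norm_num) (by norm_num)
  have e2 := e1.mul hT ha (by norm_num) (by norm_num) (by norm_num) (by norm_num)
  have e3 := Bd.alpha hT (α := 2) (e2.mono hT (α' := ((2 : ℕ) : ℤ)) (by norm_num) le_rfl le_rfl
    le_rfl)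
  exact e3.mono hT le_rfl (by norm_num) le_rfl (le_of_eq (by unfold c6; ring))

theorem Bd.Y2 (hT : 1 ≤ T) (ha : Bd T 0 0 3 160 a) (hθ : Bd T 1 2 3 (κ * A2 T) θ)
    (hκ : κ * A2 T ≤ 1) : Bd T 0 1 2 (c7 T) (Y2 a θ) := by
  have e1 := Bd.thsum hT hθ hκ
  have e2 : Bd T 0 (0 - 1) 2 (16 * 160) (Dy (Iz a)) := ha.iz.dy hT (by norm_num)
  have e3 : Bd T 1 (0 - 1) 2 (16 * 3) (Dy (Th0 + θ)) := e1.dy hT (by norm_num)
  have e4 := e1.mul hT e2 (by norm_num) (by norm_num) (by norm_num) (by norm_num)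
  have e5 := e3.mul' hT ha.iz (by norm_num) (by norm_num) (by norm_num) (by norm_num)
  have e6 := ((e4.add e4).add (e5.mono hT (by norm_num) (by norm_num) le_rfl le_rfl)).eb hT
  exact e6.mono hT (by norm_num) (by norm_num) le_rfl (le_of_eq (by unfold c7; ring))

theorem Bd.Y3 (hT : 1 ≤ T) (ha : Bd T 0 0 3 160 a) : Bd T (-2) 2 1 (c8 T) (Y3 a) := by
  have e1 : Bd T 0 (0 - 1 - 1) 1 (16 * (16 * 160)) (Dy (Dy (Iz (Iz a)))) :=
    (ha.iz.iz.dy hT (by norm_num)).dy hT (by norm_num)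
  exact ((e1.eb hT).eb hT).mono hT (by norm_num) (by norm_num) le_rfl (le_of_eq (by unfold c8; ring))

end bounds

/-- parameters -/
structure Small (T κ h μ : ℝ) (K : ℕ) : Prop where
  hT : 1 ≤ T
  hκ0 : 0 < κ
  hκ : κ * bigC T ≤ 1 / 100
  h0 : 0 < h
  hh : h ≤ κ
  hK : h * (K + 1) ≤ κ
  μ0 : 0 < μ
  hμ : μ ≤ κ

section small
variable {T κ h μ : ℝ} {K : ℕ} (S : Small T κ h μ K)
include S

theorem Small.le_of {x : ℝ} (hx : x ≤ bigC T) : κ * x ≤ 1 / 100 :=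
  (mul_le_mul_of_nonneg_left hx S.hκ0.le).trans S.hκ

theorem Small.pos : 0 < A1 T ∧ 0 < A2 T ∧ 0 < c3 T ∧ 0 < c4 T ∧ 0 < c5 T ∧ 0 < c6 T ∧ 0 < c7 T ∧
    0 < c8 T := ⟨A1_pos S.hT, A2_pos S.hT, c3_pos S.hT, c4_pos S.hT, c5_pos S.hT, c6_pos S.hT,
      c7_pos S.hT, c8_pos S.hT⟩

theorem Small.kA2 : κ * A2 T ≤ 1 / 100 := by
  obtain ⟨h1, h2, h3, h4, h5, h6, h7, h8⟩ := S.pos
  exact S.le_of (by unfold bigC; linarith)

theorem Small.kA1 : κ * A1 T ≤ 1 / 100 := by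
  obtain ⟨h1, h2, h3, h4, h5, h6, h7, h8⟩ := S.pos
  exact S.le_of (by unfold bigC; linarith)

theorem Small.kw : κ * (c3 T + c4 T + c5 T) ≤ 1 / 100 := by
  obtain ⟨h1, h2, h3, h4, h5, h6, h7, h8⟩ := S.pos
  exact S.le_of (by unfold bigC; linarith)

theorem Small.ka : κ * (c6 T + c7 T + c8 T) ≤ 1 / 100 := by
  obtain ⟨h1, h2, h3, h4, h5, h6, h7, h8⟩ := S.pos
  exact S.le_of (by unfold bigC; linarith)

theorem Small.k1 : κ ≤ 1 / 100 := by
  have := S.le_of (bigC_ge_one S.hT)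
  linarith

theorem Small.norm_h : ‖(h : ℂ)‖ = h := by
  rw [Complex.norm_real, Real.norm_of_nonneg S.h0.le]

theorem Small.norm_μ : ‖(μ : ℂ)‖ = μ := by
  rw [Complex.norm_real, Real.norm_of_nonneg S.μ0.le]

omit S in
theorem norm_μ2 : ‖((μ ^ 2 : ℝ) : ℂ)‖ = μ ^ 2 := by
  rw [Complex.norm_real, Real.norm_of_nonneg (by positivity)]

/-- bound of the new mean flow -/
theorem Small.ψ_bd {a θ : BB} (ha : Bd T 0 0 3 160 a) (hθ : Bd T 1 2 3 (κ * A2 T) θ) :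
    Bd T 0 4 4 (κ * A1 T) (tr K (Xψ h μ a θ)) := by
  have hT := S.hT
  have hρ := ρT_pos hT
  have hc2 := c2_pos hT
  have hc1 := c1_pos
  have e1 := Bd.G1 hT ha
  have e2 := Bd.G2 hT ha hθ (S.kA2.trans (by norm_num))
  have e3 := e1.trh hT (K := K) S.h0.le S.hK
  have e4 := (e2.trunc K).sub (e3.mono hT (α' := 0) (β' := 4) (p' := 4) (by norm_num)
    (by norm_num) le_rfl le_rfl)
  have e5 := e4.smul ((μ ^ 2 : ℝ) : ℂ)
  have e6 : tr K (Xψ h μ a θ) = ((μ ^ 2 : ℝ) : ℂ) • (tr K (G2 a θ) - tr K ((h : ℂ) • G1 a)) := by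
    unfold Xψ
    rw [map_smul, map_sub]
  rw [e6]
  refine e5.mono hT le_rfl le_rfl le_rfl ?_
  rw [norm_μ2]
  have hμ2 : μ ^ 2 ≤ κ := by
    have := S.k1; have := S.hμ; have := S.μ0
    nlinarith
  have hκ1 : κ ≤ 1 := by linarith [S.k1]
  unfold A1
  apply mul_le_mul hμ2 _ (by have := S.hκ0; positivity) S.hκ0.le
  have h3 : 0 ≤ 2 ^ 3 / ρT T * (2 ^ 3 / ρT T * c2 T) := by positivity
  have := mul_le_mul_of_nonneg_right hκ1 h3
  linarith

theorem Small.θ_bd {ψ : BB} (hψ : Bd T 0 4 4 (κ * A1 T) ψ) : Bd T 1 2 3 (κ * A2 T) (Xθ ψ) := by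
  have hT := S.hT
  have e1 : Bd T 0 (4 - 1 - 1) 2 (16 * (16 * (κ * A1 T))) (Dy (Dy ψ)) :=
    (hψ.dy hT (by norm_num)).dy hT (by norm_num)
  have e2 := Bd.it hT (α := 0) (e1.mono hT (α' := ((0 : ℕ) : ℤ)) (by norm_num) le_rfl le_rfl
    le_rfl)
  unfold Xθ
  exact e2.neg.mono hT (by norm_num) (by norm_num) le_rfl (le_of_eq (by unfold A2; ring))

theorem Small.tr_h {f : BB} {α β : ℤ} {p : ℕ} {C : ℝ} (hf : Bd T α β p C f) :
    Bd T α β (p + 1) (κ * C) (tr K ((h : ℂ) • f)) := hf.trh S.hT S.h0.le S.hK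

/-- bound of the difference of the new vorticity and `cos Z` -/
theorem Small.w_sub_bd {a w ψ : BB} (ha : Bd T 0 0 3 160 a) (hw : Bd T 0 0 3 4 w)
    (hψ : Bd T 0 4 4 (κ * A1 T) ψ) :
    Bd T 0 0 3 (κ * (c3 T + c4 T + c5 T)) (tr K (Xw h μ a w ψ) - tr K w0) := by
  have hT := S.hT
  obtain ⟨p1, p2, p3, p4, p5, p6, p7, p8⟩ := S.pos
  have e1 := ((Bd.H1 hT ha).smul (h : ℂ)).trunc K
  have e2 := S.tr_h (Bd.H2 hT ha hψ)
  have e3 := ((Bd.H3 hT ha hw).smul (μ : ℂ)).trunc K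
  have e4 : tr K (Xw h μ a w ψ) - tr K w0 =
      -tr K ((h : ℂ) • H1 a) - tr K ((h : ℂ) • H2 a ψ) - tr K ((μ : ℂ) • H3 a w) := by
    unfold Xw
    rw [map_sub, map_sub, map_sub]
    abel
  rw [e4]
  have e5 := ((e1.neg.mono hT (α' := 0) (β' := 0) (p' := 3) le_rfl (by norm_num) (by norm_num)
    le_rfl).sub (e2.mono hT (α' := 0) (β' := 0) (p' := 3) le_rfl (by norm_num) (by norm_num)
    le_rfl)).sub e3
  refine e5.mono hT le_rfl le_rfl le_rfl ?_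
  rw [S.norm_h, S.norm_μ]
  have h1 : h * c3 T ≤ κ * c3 T := mul_le_mul_of_nonneg_right S.hh p3.le
  have h2 : μ * c5 T ≤ κ * c5 T := mul_le_mul_of_nonneg_right S.hμ p5.le
  have h3 : κ * (κ * c4 T) ≤ κ * c4 T := by
    have := S.k1
    have h4 : 0 ≤ κ * c4 T := mul_nonneg S.hκ0.le p4.le
    nlinarith
  nlinarith

theorem Small.w_bd {a w ψ : BB} (ha : Bd T 0 0 3 160 a) (hw : Bd T 0 0 3 4 w)
    (hψ : Bd T 0 4 4 (κ * A1 T) ψ) : Bd T 0 0 3 4 (tr K (Xw h μ a w ψ)) := by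
  have hT := S.hT
  have e1 := (S.w_sub_bd ha hw hψ).add ((Bd_w0 hT 3).trunc K)
  rw [sub_add_cancel] at e1
  exact e1.mono hT le_rfl le_rfl le_rfl (by linarith [S.kw])

/-- bound of the difference of the new `a` and its leading part -/
theorem Small.a_sub_bd {a w θ : BB} (N : ℕ) (ha : Bd T 0 0 3 160 a)
    (hθ : Bd T 1 2 3 (κ * A2 T) θ) :
    Bd T 0 0 3 (32 * (κ * (c6 T + c7 T + c8 T)))
      (tr K (sg T N * YY h a w θ) - tr K (sg T N * w)) := by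
  have hT := S.hT
  obtain ⟨p1, p2, p3, p4, p5, p6, p7, p8⟩ := S.pos
  have hsg := Bd_sg hT N 3
  have e1 := (hsg.mul hT (Bd.Y1 hT ha hθ (S.kA2.trans (by norm_num))) (by norm_num) (by norm_num)
    (by norm_num) (by norm_num)).trunc K
  have e2 := S.tr_h (hsg.mul hT (Bd.Y2 hT ha hθ (S.kA2.trans (by norm_num))) (by norm_num)
    (by norm_num) (by norm_num) (by norm_num))
  have e3 := S.tr_h (S.tr_h (hsg.mul hT (Bd.Y3 hT ha) (by norm_num)
    (by norm_num) (by norm_num) (by norm_num)))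
  have e4 : tr K (sg T N * YY h a w θ) - tr K (sg T N * w) =
      -tr K (sg T N * Y1 a θ) + tr K ((h : ℂ) • (sg T N * Y2 a θ)) -
      tr K ((h : ℂ) • tr K ((h : ℂ) • (sg T N * Y3 a))) := by
    have e5 : tr K ((h : ℂ) • tr K ((h : ℂ) • (sg T N * Y3 a))) =
        tr K (((h : ℂ) * (h : ℂ)) • (sg T N * Y3 a)) := by
      apply BB.ext'
      intro b
      simp only [tr, mop_coeff, AddMonoidAlgebra.coeff_smul, Finsupp.smul_apply]
      by_cases hb : b.1 ≤ K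
      · simp only [if_pos hb, smul_smul, one_mul]
      · simp only [if_neg hb, zero_smul, smul_zero]
    rw [e5]
    unfold YY
    rw [mul_sub, mul_add, mul_sub, map_sub, map_add, map_sub, mul_smul_comm, mul_smul_comm]
    abel
  rw [e4]
  have e6 := ((e1.neg.mono hT (α' := 0) (β' := 0) (p' := 3) le_rfl (by norm_num) le_rfl
    le_rfl).add (e2.mono hT (α' := 0) (β' := 0) (p' := 3) le_rfl (by norm_num) (by norm_num)
    le_rfl)).sub (e3.mono hT (α' := 0) (β' := 0) (p' := 3) (by norm_num) (by norm_num)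
      (by norm_num) le_rfl)
  refine e6.mono hT le_rfl le_rfl le_rfl ?_
  have h3 : κ * (κ * c8 T) ≤ κ * c8 T := by
    have := S.k1
    have h4 : 0 ≤ κ * c8 T := mul_nonneg S.hκ0.le p8.le
    nlinarith
  nlinarith

theorem Small.a_bd {a w θ : BB} (N : ℕ) (ha : Bd T 0 0 3 160 a) (hw : Bd T 0 0 3 4 w)
    (hθ : Bd T 1 2 3 (κ * A2 T) θ) : Bd T 0 0 3 160 (tr K (sg T N * YY h a w θ)) := by
  have hT := S.hT
  have e0 := ((Bd_sg hT N 3).mul hT hw (by norm_num) (by norm_num)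
    (by norm_num) (by norm_num)).trunc K
  have e1 := (S.a_sub_bd (w := w) N ha hθ).add (e0.mono hT (α' := 0) (β' := 0) (by norm_num)
    (by norm_num) le_rfl le_rfl)
  rw [sub_add_cancel] at e1
  exact e1.mono hT le_rfl le_rfl le_rfl (by linarith [S.ka])

end small

end Pool.Agent.EulerInflation
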