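import Mathlib
import Pool.Agent.Work.MP_8b4a1b_an.Energy
import Pool.Agent.Work.MP_8b4a1b_an.Bounded

/-!
Weak-strong `L^2` stability for the 2D Euler equations on the plane.
-/

open MeasureTheory Set Filter Topology
open scoped ENNReal NNReal ContDiff FourierTransform Real

namespace Pool.Agent.EulerInflation

namespace Stab

/-- Square integrability from an `eLpNorm` bound. -/
lemma sq_bound {W : Type*} [NormedAddCommGroup W] {F : (EuclideanSpace ℝ (Fin 2)) → W}
    (hF : AEStronglyMeasurable F volume) {C : ℝ≥0} (hC : eLpNorm F 2 volume ≤ C) :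
    Integrable (fun x => ‖F x‖ ^ 2) ∧ ∫ x, ‖F x‖ ^ 2 ≤ (C : ℝ) ^ 2 := by
  have hm : MemLp F 2 volume := ⟨hF, hC.trans_lt ENNReal.coe_lt_top⟩
  have hi : Integrable (fun x => ‖F x‖ ^ 2) := by
    exact MemLp.integrable_norm_pow (p := 2) (by exact_mod_cast hm) two_ne_zero
  refine ⟨hi, ?_⟩
  have h1 : ENNReal.ofReal (∫ x, ‖F x‖ ^ 2) = ∫⁻ x, ‖F x‖ₑ ^ 2 := by
    rw [ofReal_integral_eq_lintegral_ofReal hi (ae_of_all _ fun x => sq_nonneg _)]
    apply lintegral_congr
    intro x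
    rw [ENNReal.ofReal_pow (norm_nonneg _), ofReal_norm]
  have h2 := eLpNorm_nnreal_pow_eq_lintegral (f := F) (μ := volume) (p := 2) two_ne_zero
  have h3 : ∫⁻ x, ‖F x‖ₑ ^ 2 = eLpNorm F 2 volume ^ 2 := by
    have h4 : ((2 : ℝ≥0) : ℝ) = ((2 : ℕ) : ℝ) := by norm_num
    simp only [h4, ENNReal.rpow_natCast] at h2
    exact h2.symm
  have h5 : ENNReal.ofReal (∫ x, ‖F x‖ ^ 2) ≤ ENNReal.ofReal ((C : ℝ) ^ 2) := by
    rw [h1, h3, ENNReal.ofReal_pow C.coe_nonneg, ENNReal.ofReal_coe_nnreal]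
    exact pow_le_pow_left' hC 2
  exact (ENNReal.ofReal_le_ofReal_iff (by positivity)).mp h5

/-- A continuous function dominated by a square integrable function. -/
lemma SqInt.of_le {W : Type*} [NormedAddCommGroup W] {F : (EuclideanSpace ℝ (Fin 2)) → W} {f : (EuclideanSpace ℝ (Fin 2)) → ℝ}
    (hf : Continuous f) (hF : Integrable (fun x => ‖F x‖ ^ 2)) (hle : ∀ x, |f x| ≤ ‖F x‖) :
    SqInt f := by
  refine ⟨hf, ?_⟩
  have hm : AEStronglyMeasurable (fun x => f x ^ 2) volume := (hf.pow 2).aestronglyMeasurable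
  apply hF.mono' hm
  filter_upwards with x
  rw [Real.norm_eq_abs, abs_of_nonneg (sq_nonneg _)]
  have := pow_le_pow_left₀ (abs_nonneg _) (hle x) 2
  rwa [sq_abs] at this

lemma abs_coord_le (x : (EuclideanSpace ℝ (Fin 2))) (i : Fin 2) : |x i| ≤ ‖x‖ := by
  have := PiLp.norm_apply_le x i
  simpa using this

/-- Functions of `(t, x)` continuous and supported in `K`: uniform bound of the integral of the
square. -/
lemma compact_bound {ψ : ℝ → (EuclideanSpace ℝ (Fin 2)) → ℝ} (hc : Continuous (fun z : ℝ × (EuclideanSpace ℝ (Fin 2)) => ψ z.1 z.2)) {K : Set (EuclideanSpace ℝ (Fin 2))}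
    (hK : IsCompact K) (h0 : ∀ t, ∀ x ∉ K, ψ t x = 0) (T : ℝ) :
    (∀ t, SqInt (ψ t)) ∧ ∃ B, ∀ t ∈ Icc 0 T, ∫ x, ψ t x ^ 2 ≤ B := by
  have hct : ∀ t, Continuous (ψ t) := fun t => hc.comp (Continuous.prodMk_right t)
  have hs : ∀ t, HasCompactSupport (ψ t) := fun t => by
    apply HasCompactSupport.of_support_subset_isCompact hK
    intro x hx
    by_contra hxK
    exact hx (h0 t x hxK)
  have hS : ∀ t, SqInt (ψ t) := fun t => SqInt.of_compact (hct t) (hs t)
  refine ⟨hS, ?_⟩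
  obtain ⟨M, hM⟩ := (isCompact_Icc.prod hK).exists_bound_of_continuousOn
    (f := fun z : ℝ × (EuclideanSpace ℝ (Fin 2)) => ψ z.1 z.2 ^ 2) (s := Icc 0 T ×ˢ K) ((hc.pow 2).continuousOn)
  refine ⟨M * (volume K).toReal, fun t ht => ?_⟩
  have h1 : ∫ x, ψ t x ^ 2 = ∫ x in K, ψ t x ^ 2 := by
    symm
    apply setIntegral_eq_integral_of_forall_compl_eq_zero
    intro x hx
    rw [h0 t x hx]
    norm_num
  rw [h1]
  have h2 := norm_setIntegral_le_of_norm_le_const (μ := volume) (s := K) (f := fun x => ψ t x ^ 2)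
    (C := M) hK.measure_lt_top (fun x hx => hM (t, x) ⟨ht, hx⟩)
  exact (le_abs_self _).trans h2

section joint

variable {u : ℝ → EuclideanSpace ℝ (Fin 2) → EuclideanSpace ℝ (Fin 2)}
    {p : ℝ → EuclideanSpace ℝ (Fin 2) → ℝ}

/-- Time derivative of the solution. -/
noncomputable def dt (u : ℝ → (EuclideanSpace ℝ (Fin 2)) → (EuclideanSpace ℝ (Fin 2))) (t : ℝ) (x : (EuclideanSpace ℝ (Fin 2))) : (EuclideanSpace ℝ (Fin 2)) := derivWithin (fun s => u s x) (Ici 0) t

lemma u_hasDeriv_aux (h : IsEulerSolution u p) (t : ℝ) (ht : 0 ≤ t) (x : (EuclideanSpace ℝ (Fin 2))) :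
    HasDerivWithinAt (fun s => u s x) (fderivWithin ℝ (fun z : ℝ × (EuclideanSpace ℝ (Fin 2)) => u z.1 z.2)
      (Ici 0 ×ˢ univ) (t, x) ((1 : ℝ), (0 : (EuclideanSpace ℝ (Fin 2))))) (Ici 0) t := by
  have hd : DifferentiableOn ℝ (fun z : ℝ × (EuclideanSpace ℝ (Fin 2)) => u z.1 z.2) (Ici 0 ×ˢ univ) :=
    h.smooth_u.differentiableOn (by simp)
  have h1 := (hd (t, x) ⟨ht, mem_univ _⟩).hasFDerivWithinAt
  have h2 : HasDerivWithinAt (fun s : ℝ => (s, x)) ((1 : ℝ), (0 : (EuclideanSpace ℝ (Fin 2)))) (Ici 0) t :=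
    ((hasDerivAt_id t).prodMk (hasDerivAt_const t x)).hasDerivWithinAt
  have h3 : MapsTo (fun s : ℝ => (s, x)) (Ici 0) (Ici (0 : ℝ) ×ˢ (univ : Set (EuclideanSpace ℝ (Fin 2)))) :=
    fun s hs => ⟨hs, mem_univ _⟩
  exact h1.comp_hasDerivWithinAt t h2 h3

lemma u_hasDeriv (h : IsEulerSolution u p) (t : ℝ) (ht : 0 ≤ t) (x : (EuclideanSpace ℝ (Fin 2))) :
    HasDerivWithinAt (fun s => u s x) (dt u t x) (Ici 0) t :=
  (u_hasDeriv_aux h t ht x).differentiableWithinAt.hasDerivWithinAt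

lemma dt_eq (h : IsEulerSolution u p) (t : ℝ) (ht : 0 ≤ t) (x : (EuclideanSpace ℝ (Fin 2))) :
    dt u t x = fderivWithin ℝ (fun z : ℝ × (EuclideanSpace ℝ (Fin 2)) => u z.1 z.2)
      (Ici 0 ×ˢ univ) (t, x) ((1 : ℝ), (0 : (EuclideanSpace ℝ (Fin 2)))) :=
  (u_hasDeriv_aux h t ht x).derivWithin (uniqueDiffOn_Ici 0 t ht)

lemma dt_cont (h : IsEulerSolution u p) :
    ContinuousOn (fun z : ℝ × (EuclideanSpace ℝ (Fin 2)) => dt u z.1 z.2) (Ici 0 ×ˢ univ) := by
  have hS : UniqueDiffOn ℝ (Ici (0 : ℝ) ×ˢ (univ : Set (EuclideanSpace ℝ (Fin 2)))) :=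
    (uniqueDiffOn_Ici 0).prod uniqueDiffOn_univ
  have h1 := h.smooth_u.continuousOn_fderivWithin hS (by simp)
  have h2 : ContinuousOn (fun z : ℝ × (EuclideanSpace ℝ (Fin 2)) => fderivWithin ℝ (fun z : ℝ × (EuclideanSpace ℝ (Fin 2)) => u z.1 z.2)
      (Ici 0 ×ˢ univ) z ((1 : ℝ), (0 : (EuclideanSpace ℝ (Fin 2))))) (Ici 0 ×ˢ univ) :=
    h1.clm_apply continuousOn_const
  refine h2.congr ?_
  rintro ⟨t, x⟩ ⟨ht, _⟩
  exact dt_eq h t ht x

lemma dt_coord (h : IsEulerSolution u p) (t : ℝ) (ht : 0 ≤ t) (x : (EuclideanSpace ℝ (Fin 2))) (i : Fin 2) :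
    derivWithin (fun s => u s x i) (Ici 0) t = dt u t x i := by
  have h1 := u_hasDeriv h t ht x
  have h2 : HasDerivWithinAt (fun s => u s x i) (dt u t x i) (Ici 0) t := by
    have := (EuclideanSpace.proj (𝕜 := ℝ) i).hasFDerivAt.comp_hasDerivWithinAt t h1
    exact this
  exact h2.derivWithin (uniqueDiffOn_Ici 0 t ht)

lemma u_smooth (h : IsEulerSolution u p) (t : ℝ) (ht : 0 ≤ t) : ContDiff ℝ ∞ (u t) := by
  have h3 : ContDiffOn ℝ ∞ (fun x => u t x) univ := by
    have h4 : ContDiffOn ℝ ∞ (fun x : EuclideanSpace ℝ (Fin 2) => (t, x)) univ :=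
      (contDiff_const.prodMk contDiff_id).contDiffOn
    exact h.smooth_u.comp h4 (fun x _ => ⟨ht, mem_univ _⟩)
  exact contDiffOn_univ.1 h3

lemma p_smooth (h : IsEulerSolution u p) (t : ℝ) (ht : 0 ≤ t) : ContDiff ℝ ∞ (p t) := by
  have h3 : ContDiffOn ℝ ∞ (fun x => p t x) univ := by
    have h4 : ContDiffOn ℝ ∞ (fun x : EuclideanSpace ℝ (Fin 2) => (t, x)) univ :=
      (contDiff_const.prodMk contDiff_id).contDiffOn
    exact h.smooth_p.comp h4 (fun x _ => ⟨ht, mem_univ _⟩)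
  exact contDiffOn_univ.1 h3

lemma coord_smooth {f : (EuclideanSpace ℝ (Fin 2)) → (EuclideanSpace ℝ (Fin 2))} (hf : ContDiff ℝ ∞ f) (i : Fin 2) :
    ContDiff ℝ ∞ (fun x => f x i) :=
  (EuclideanSpace.proj (𝕜 := ℝ) i).contDiff.comp hf

lemma pd_coord_le {f : (EuclideanSpace ℝ (Fin 2)) → (EuclideanSpace ℝ (Fin 2))} (hf : ContDiff ℝ ∞ f) (i j : Fin 2) (x : (EuclideanSpace ℝ (Fin 2))) :
    |pd j (fun y => f y i) x| ≤ ‖iteratedFDeriv ℝ 1 f x‖ := by
  have h1 : HasFDerivAt f (fderiv ℝ f x) x := (hf.differentiable (by simp) x).hasFDerivAt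
  have h2 : HasFDerivAt (fun y => f y i) ((EuclideanSpace.proj (𝕜 := ℝ) i).comp (fderiv ℝ f x)) x :=
    (EuclideanSpace.proj (𝕜 := ℝ) i).hasFDerivAt.comp x h1
  unfold pd
  rw [h2.fderiv, norm_iteratedFDeriv_one]
  have h3 : (((EuclideanSpace.proj (𝕜 := ℝ) i).comp (fderiv ℝ f x)))
      (EuclideanSpace.single j (1 : ℝ)) = (fderiv ℝ f x (EuclideanSpace.single j (1 : ℝ))) i := rfl
  rw [h3]
  refine (abs_coord_le _ _).trans ?_
  have := (fderiv ℝ f x).le_opNorm (EuclideanSpace.single j (1 : ℝ))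
  rwa [PiLp.norm_single, norm_one, mul_one] at this

lemma u_sqInt (h : IsEulerSolution u p) (T : ℝ) :
    (∀ t ∈ Icc 0 T, ∀ i, SqInt (fun x => u t x i)) ∧
      ∃ B, ∀ t ∈ Icc 0 T, ∀ i, ∫ x, (u t x i) ^ 2 ≤ B := by
  obtain ⟨C, hC⟩ := h.sobolev 0 T
  have key : ∀ t ∈ Icc 0 T, Integrable (fun x => ‖u t x‖ ^ 2) ∧ ∫ x, ‖u t x‖ ^ 2 ≤ (C : ℝ) ^ 2 := by
    intro t ht
    have hs := u_smooth h t ht.1
    have h1 : eLpNorm (u t) 2 volume ≤ C := by
      rw [← eLpNorm_congr_norm_ae (f := iteratedFDeriv ℝ 0 (u t)) (g := u t)]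
      · exact hC t ht
      · filter_upwards with x
        exact norm_iteratedFDeriv_zero
    exact sq_bound hs.continuous.aestronglyMeasurable h1
  have hS : ∀ t ∈ Icc 0 T, ∀ i, SqInt (fun x => u t x i) := fun t ht i =>
    SqInt.of_le (coord_smooth (u_smooth h t ht.1) i).continuous (key t ht).1
      (fun x => abs_coord_le _ _)
  refine ⟨hS, (C : ℝ) ^ 2, fun t ht i => ?_⟩
  refine (integral_mono (hS t ht i).int (key t ht).1 fun x => ?_).trans (key t ht).2
  have := pow_le_pow_left₀ (abs_nonneg _) (abs_coord_le (u t x) i) 2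
  rwa [sq_abs] at this

lemma dt_sqInt (h : IsEulerSolution u p) (T : ℝ) :
    (∀ t ∈ Icc 0 T, ∀ i, SqInt (fun x => dt u t x i)) ∧
      ∃ B, ∀ t ∈ Icc 0 T, ∀ i, ∫ x, (dt u t x i) ^ 2 ≤ B := by
  obtain ⟨C, hC⟩ := h.sobolev_t 0 T
  have hcont : ∀ t, 0 ≤ t → Continuous (dt u t) := by
    intro t ht
    have h1 : ContinuousOn (fun x : (EuclideanSpace ℝ (Fin 2)) => dt u t x) univ :=
      (dt_cont h).comp (f := fun x : (EuclideanSpace ℝ (Fin 2)) => (t, x)) (Continuous.prodMk_right t).continuousOn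
        (fun x _ => ⟨ht, mem_univ _⟩)
    exact continuousOn_univ.1 h1
  have key : ∀ t ∈ Icc 0 T, Integrable (fun x => ‖dt u t x‖ ^ 2) ∧
      ∫ x, ‖dt u t x‖ ^ 2 ≤ (C : ℝ) ^ 2 := by
    intro t ht
    have h1 : eLpNorm (dt u t) 2 volume ≤ C := by
      rw [← eLpNorm_congr_norm_ae (f := iteratedFDeriv ℝ 0 (dt u t)) (g := dt u t)]
      · exact hC t ht
      · filter_upwards with x
        exact norm_iteratedFDeriv_zero
    exact sq_bound (hcont t ht.1).aestronglyMeasurable h1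
  have hS : ∀ t ∈ Icc 0 T, ∀ i, SqInt (fun x => dt u t x i) := fun t ht i =>
    SqInt.of_le ((EuclideanSpace.proj (𝕜 := ℝ) i).continuous.comp (hcont t ht.1)) (key t ht).1
      (fun x => abs_coord_le _ _)
  refine ⟨hS, (C : ℝ) ^ 2, fun t ht i => ?_⟩
  refine (integral_mono (hS t ht i).int (key t ht).1 fun x => ?_).trans (key t ht).2
  have := pow_le_pow_left₀ (abs_nonneg _) (abs_coord_le (dt u t x) i) 2
  rwa [sq_abs] at this

lemma du_sqInt (h : IsEulerSolution u p) (T : ℝ) :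
    ∀ t ∈ Icc 0 T, ∀ i j, SqInt (pd j (fun x => u t x i)) := by
  obtain ⟨C, hC⟩ := h.sobolev 1 T
  intro t ht i j
  have hs := u_smooth h t ht.1
  have h1 : Continuous (iteratedFDeriv ℝ 1 (u t)) := hs.continuous_iteratedFDeriv (by
    exact_mod_cast le_top)
  have h2 := sq_bound h1.aestronglyMeasurable (hC t ht)
  exact SqInt.of_le (continuous_pd ((coord_smooth hs i).of_le (by exact_mod_cast le_top)) j) h2.1
    (fun x => pd_coord_le hs i j x)

end joint

/-- Integral form of Gronwall's inequality. -/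
lemma gronwall_int {φ f : ℝ → ℝ} {T a δ : ℝ} (ha : 1 ≤ a) (hδ : 0 ≤ δ)
    (hφ : IntegrableOn φ (Icc 0 T))
    (hf : ∀ t ∈ Icc 0 T, f t = ∫ s in (0 : ℝ)..t, φ s) (hf0 : ∀ t ∈ Icc 0 T, 0 ≤ f t)
    (hle : ∀ s ∈ Icc 0 T, φ s ≤ a * f s + δ) :
    ∀ t ∈ Icc 0 T, f t ≤ T * δ * Real.exp (a * T) := by
  set φ' : ℝ → ℝ := indicator (Icc 0 T) φ with hφ'
  have hi : Integrable φ' := hφ.integrable_indicator measurableSet_Icc
  set Φ : ℝ → ℝ := fun t => ∫ s in (0 : ℝ)..t, φ' s with hΦ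
  have hΦc : Continuous Φ := intervalIntegral.continuous_primitive
    (fun _ _ => hi.intervalIntegrable) 0
  have hΦf : ∀ t ∈ Icc 0 T, Φ t = f t := by
    intro t ht
    rw [hf t ht]
    apply intervalIntegral.integral_congr
    intro s hs
    rw [uIcc_of_le ht.1] at hs
    exact indicator_of_mem (show s ∈ Icc 0 T from ⟨hs.1, hs.2.trans ht.2⟩) φ
  have hic : Continuous (fun s => a * Φ s + δ) := (hΦc.const_mul a).add continuous_const
  set F : ℝ → ℝ := fun t => ∫ s in (0 : ℝ)..t, (a * Φ s + δ) with hF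
  have hFd : ∀ t, HasDerivAt F (a * Φ t + δ) t := fun t =>
    (hic.integral_hasStrictDerivAt 0 t).hasDerivAt
  have hF0 : F 0 = 0 := by simp [hF]
  have hle' : ∀ t ∈ Icc 0 T, Φ t ≤ F t := by
    intro t ht
    apply intervalIntegral.integral_mono_on ht.1 hi.intervalIntegrable
      (hic.intervalIntegrable _ _)
    intro s hs
    have hsT : s ∈ Icc 0 T := ⟨hs.1, hs.2.trans ht.2⟩
    rw [hφ', indicator_of_mem hsT, hΦf s hsT]
    exact hle s hsT
  have hg := norm_le_gronwallBound_of_norm_deriv_right_le (f := F) (f' := fun t => a * Φ t + δ)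
    (δ := 0) (K := a) (ε := δ) (a := 0) (b := T)
    (fun t _ => (hFd t).continuousAt.continuousWithinAt)
    (fun t _ => (hFd t).hasDerivWithinAt) (by rw [hF0, norm_zero]) (by
      intro t ht
      have ht' : t ∈ Icc 0 T := ⟨ht.1, ht.2.le⟩
      have h0 : 0 ≤ Φ t := by rw [hΦf t ht']; exact hf0 t ht'
      rw [Real.norm_eq_abs, Real.norm_eq_abs, abs_of_nonneg (by positivity)]
      have h1 := (hle' t ht').trans (le_abs_self _)
      have h2 := mul_le_mul_of_nonneg_left h1 (show 0 ≤ a by linarith)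
      linarith)
  intro t ht
  have h1 := hg t ht
  rw [sub_zero, gronwallBound_of_K_ne_0 (by linarith)] at h1
  have h2 : f t ≤ ‖F t‖ := by
    rw [← hΦf t ht]
    exact (hle' t ht).trans (le_abs_self _)
  have h3 : Real.exp (a * t) - 1 ≤ a * t * Real.exp (a * t) := by
    have h4 := Real.add_one_le_exp (-(a * t))
    have h5 : Real.exp (a * t) * Real.exp (-(a * t)) = 1 := by
      rw [← Real.exp_add]; simp
    have h6 := Real.exp_pos (a * t)
    nlinarith
  have h7 : δ / a * (Real.exp (a * t) - 1) ≤ δ / a * (a * t * Real.exp (a * t)) :=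
    mul_le_mul_of_nonneg_left h3 (by positivity)
  have h8 : δ / a * (a * t * Real.exp (a * t)) = t * δ * Real.exp (a * t) := by
    have : a ≠ 0 := by linarith
    field_simp
  have h9 : t * δ * Real.exp (a * t) ≤ T * δ * Real.exp (a * T) := by
    apply mul_le_mul
    · exact mul_le_mul_of_nonneg_right ht.2 hδ
    · apply Real.exp_le_exp.mpr
      exact mul_le_mul_of_nonneg_left ht.2 (by linarith)
    · positivity
    · exact mul_nonneg (ht.1.trans ht.2) hδ
  simp only [zero_mul, zero_add] at h1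
  linarith

/-- Fubini for the energy. -/
lemma fubini_energy {g : ℝ → (EuclideanSpace ℝ (Fin 2)) → ℝ} {T M : ℝ}
    (hg : ContinuousOn (fun z : ℝ × (EuclideanSpace ℝ (Fin 2)) => g z.1 z.2) (Ici 0 ×ˢ univ))
    (hgi : ∀ t ∈ Icc 0 T, Integrable (g t)) (hM : ∀ t ∈ Icc 0 T, ∫ x, |g t x| ≤ M) :
    IntegrableOn (fun s => ∫ x, g s x) (Icc 0 T) ∧
    ∀ t ∈ Icc 0 T, ∫ x, (∫ s in (0 : ℝ)..t, g s x) = ∫ s in (0 : ℝ)..t, ∫ x, g s x := by
  have hmeas : ∀ t, AEStronglyMeasurable (Function.uncurry g)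
      ((volume.restrict (Icc 0 t)).prod (volume : Measure (EuclideanSpace ℝ (Fin 2)))) := by
    intro t
    have e1 : (volume.restrict (Icc 0 t)).prod (volume : Measure (EuclideanSpace ℝ (Fin 2))) =
        ((volume : Measure ℝ).prod (volume : Measure (EuclideanSpace ℝ (Fin 2)))).restrict (Icc 0 t ×ˢ univ) := by
      rw [← Measure.prod_restrict, Measure.restrict_univ]
    rw [e1]
    apply ContinuousOn.aestronglyMeasurable _ (measurableSet_Icc.prod MeasurableSet.univ)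
    exact hg.mono (prod_mono Icc_subset_Ici_self subset_rfl)
  have hint : ∀ t ≤ T, Integrable (Function.uncurry g)
      ((volume.restrict (Icc 0 t)).prod (volume : Measure (EuclideanSpace ℝ (Fin 2)))) := by
    intro t ht
    rw [integrable_prod_iff (hmeas t)]
    constructor
    · filter_upwards [ae_restrict_mem measurableSet_Icc] with s hs
      exact hgi s ⟨hs.1, hs.2.trans ht⟩
    · apply Integrable.of_bound (C := M)
      · exact (hmeas t).norm.integral_prod_right'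
      · filter_upwards [ae_restrict_mem measurableSet_Icc] with s hs
        rw [Real.norm_eq_abs, abs_of_nonneg (integral_nonneg fun x => norm_nonneg _)]
        exact hM s ⟨hs.1, hs.2.trans ht⟩
  refine ⟨(hint T le_rfl).integral_prod_left, fun t ht => ?_⟩
  have h1 := integral_integral_swap (hint t ht.2)
  rw [intervalIntegral.integral_of_le ht.1, ← integral_Icc_eq_integral_Ioc, h1]
  apply integral_congr_ae
  filter_upwards with x
  rw [intervalIntegral.integral_of_le ht.1, ← integral_Icc_eq_integral_Ioc]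

lemma sub_bound {f g : (EuclideanSpace ℝ (Fin 2)) → ℝ} (hf : SqInt f) (hg : SqInt g) {A B : ℝ}
    (hA : ∫ x, f x ^ 2 ≤ A) (hB : ∫ x, g x ^ 2 ≤ B) :
    ∫ x, (f x - g x) ^ 2 ≤ 2 * A + 2 * B := by
  have i1 : Integrable (fun x => 2 * f x ^ 2) := hf.int.const_mul 2
  have i2 : Integrable (fun x => 2 * g x ^ 2) := hg.int.const_mul 2
  have i3 : Integrable (fun x => 2 * f x ^ 2 + 2 * g x ^ 2) := i1.add i2
  have h1 : ∫ x, (f x - g x) ^ 2 ≤ ∫ x, (2 * f x ^ 2 + 2 * g x ^ 2) := by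
    apply integral_mono (hf.sub hg).int i3
    intro x
    simp only
    nlinarith [sq_nonneg (f x + g x)]
  rw [integral_add i1 i2, integral_const_mul, integral_const_mul] at h1
  linarith

lemma pd_compact {f : (EuclideanSpace ℝ (Fin 2)) → ℝ} (hs : HasCompactSupport f) (i : Fin 2) :
    HasCompactSupport (pd i f) :=
  (hs.fderiv (𝕜 := ℝ)).comp_left
    (g := fun L : (EuclideanSpace ℝ (Fin 2)) →L[ℝ] ℝ => L (EuclideanSpace.single i (1 : ℝ))) (by simp)

end Stab

open Stab in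
theorem stability {u : ℝ → EuclideanSpace ℝ (Fin 2) → EuclideanSpace ℝ (Fin 2)}
    {p : ℝ → EuclideanSpace ℝ (Fin 2) → ℝ} (h : IsEulerSolution u p)
    {v : ℝ → EuclideanSpace ℝ (Fin 2) → EuclideanSpace ℝ (Fin 2)}
    {q : ℝ → EuclideanSpace ℝ (Fin 2) → ℝ} {T G δ : ℝ} (hT : 0 ≤ T) (hG : 0 ≤ G)
    (hv : ContDiff ℝ ∞ (fun z : ℝ × EuclideanSpace ℝ (Fin 2) => v z.1 z.2))
    (hq : ContDiff ℝ ∞ (fun z : ℝ × EuclideanSpace ℝ (Fin 2) => q z.1 z.2))
    {K : Set (EuclideanSpace ℝ (Fin 2))} (hK : IsCompact K)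
    (hvK : ∀ t, ∀ x ∉ K, v t x = 0) (hqK : ∀ t, ∀ x ∉ K, q t x = 0)
    (hdiv : ∀ t x, pd 0 (fun y => v t y 0) x + pd 1 (fun y => v t y 1) x = 0)
    (hgrad : ∀ t ∈ Icc 0 T, ∀ x, ∀ i j, |pd i (fun y => v t y j) x| ≤ G)
    {r : ℝ → EuclideanSpace ℝ (Fin 2) → EuclideanSpace ℝ (Fin 2)}
    (hr : ∀ t x i, r t x i = deriv (fun s => v s x i) t +
      (v t x 0 * pd 0 (fun y => v t y i) x + v t x 1 * pd 1 (fun y => v t y i) x) +
      pd i (q t) x)
    (hres : ∀ t ∈ Icc 0 T, ∫ x, ‖r t x‖ ^ 2 ≤ δ)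
    (h0 : ∀ x, u 0 x = v 0 x) :
    ∀ t ∈ Icc 0 T, ∫ x, ‖u t x - v t x‖ ^ 2 ≤ T * δ * Real.exp ((4 * G + 1) * T) := by
  obtain ⟨Cu, hCu⟩ := h.bounded T
  have hδ : 0 ≤ δ := (integral_nonneg fun x => sq_nonneg _).trans (hres 0 ⟨le_rfl, hT⟩)
  -- smoothness of `v t`, `q t`
  have hvs : ∀ t, ContDiff ℝ ∞ (v t) := fun t => hv.comp (contDiff_const.prodMk contDiff_id)
  have hqs : ∀ t, ContDiff ℝ ∞ (q t) := fun t => hq.comp (contDiff_const.prodMk contDiff_id)
  have hvi : ∀ i : Fin 2, ContDiff ℝ ∞ (fun z : ℝ × EuclideanSpace ℝ (Fin 2) => v z.1 z.2 i) :=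
    fun i => (EuclideanSpace.proj (𝕜 := ℝ) i).contDiff.comp hv
  have hvis : ∀ (i : Fin 2) t, ContDiff ℝ ∞ (fun x => v t x i) := fun i t =>
    coord_smooth (hvs t) i
  have hvisupp : ∀ (i : Fin 2) t, HasCompactSupport (fun x => v t x i) := by
    intro i t
    apply HasCompactSupport.of_support_subset_isCompact hK
    intro x hx
    by_contra hxK
    apply hx
    show v t x i = 0
    rw [hvK t x hxK]
    rfl
  have hqsupp : ∀ t, HasCompactSupport (q t) := by
    intro t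
    apply HasCompactSupport.of_support_subset_isCompact hK
    intro x hx
    by_contra hxK
    exact hx (hqK t x hxK)
  -- time derivative of `v`
  have hvt : ∀ (i : Fin 2) (t : ℝ) (x : EuclideanSpace ℝ (Fin 2)),
      HasDerivAt (fun s => v s x i) (fderiv ℝ (fun z : ℝ × EuclideanSpace ℝ (Fin 2) =>
        v z.1 z.2 i) (t, x) ((1 : ℝ), (0 : EuclideanSpace ℝ (Fin 2)))) t := by
    intro i t x
    have h1 := ((hvi i).differentiable (by simp) (t, x)).hasFDerivAt
    have h2 : HasDerivAt (fun s : ℝ => (s, x)) ((1 : ℝ), (0 : EuclideanSpace ℝ (Fin 2))) t :=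
      (hasDerivAt_id t).prodMk (hasDerivAt_const t x)
    exact h1.comp_hasDerivAt t h2
  have hvtc : ∀ i : Fin 2, Continuous (fun z : ℝ × EuclideanSpace ℝ (Fin 2) =>
      deriv (fun s => v s z.2 i) z.1) := by
    intro i
    have h1 : (fun z : ℝ × EuclideanSpace ℝ (Fin 2) => deriv (fun s => v s z.2 i) z.1) =
        fun z => fderiv ℝ (fun z : ℝ × EuclideanSpace ℝ (Fin 2) =>
          v z.1 z.2 i) z ((1 : ℝ), (0 : EuclideanSpace ℝ (Fin 2))) := by
      funext z
      exact (hvt i z.1 z.2).deriv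
    rw [h1]
    exact ((hvi i).continuous_fderiv (by simp)).clm_apply continuous_const
  have hvt0 : ∀ (i : Fin 2) t, ∀ x ∉ K, deriv (fun s => v s x i) t = 0 := by
    intro i t x hx
    have : (fun s => v s x i) = fun _ => (0 : ℝ) := by
      funext s
      rw [hvK s x hx]
      rfl
    rw [this, deriv_const]
  -- square integrability
  obtain ⟨huS, Bu, hBu⟩ := u_sqInt h T
  obtain ⟨hutS, But, hBut⟩ := dt_sqInt h T
  have hduS := du_sqInt h T
  have hvB := fun i : Fin 2 => compact_bound (ψ := fun t x => v t x i) (hvi i).continuous hK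
    (fun t x hx => by simp only; rw [hvK t x hx]; rfl) T
  have hvtB := fun i : Fin 2 => compact_bound (ψ := fun t x => deriv (fun s => v s x i) t)
    (hvtc i) hK (hvt0 i) T
  choose hvS Bv hBv using hvB
  choose hvtS Bvt hBvt using hvtB
  have one_le : (1 : ℕ∞ω) ≤ ((⊤ : ℕ∞) : ℕ∞ω) := by exact_mod_cast le_top
  have hdvS : ∀ t (i j : Fin 2), SqInt (pd j (fun y => v t y i)) := fun t i j =>
    SqInt.of_compact (continuous_pd ((hvis i t).of_le one_le) j) (pd_compact (hvisupp i t) j)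
  have hrS : ∀ t (i : Fin 2), SqInt (fun x => r t x i) := by
    intro t i
    have h1 : ∀ j : Fin 2, SqInt (fun x => v t x j * pd j (fun y => v t y i) x) := fun j =>
      SqInt.of_compact ((hvis j t).continuous.mul (continuous_pd ((hvis i t).of_le one_le) j))
        (hvisupp j t).mul_right
    have h2 : SqInt (pd i (q t)) :=
      SqInt.of_compact (continuous_pd ((hqs t).of_le one_le) i) (pd_compact (hqsupp t) i)
    have h3 := ((hvtS i t).add ((h1 0).add (h1 1))).add h2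
    have h4 : (fun x => r t x i) = fun x => deriv (fun s => v s x i) t +
      (v t x 0 * pd 0 (fun y => v t y i) x + v t x 1 * pd 1 (fun y => v t y i) x) +
      pd i (q t) x := by
      funext x
      exact hr t x i
    rw [h4]
    exact h3
  -- the difference
  set e : Fin 2 → ℝ → EuclideanSpace ℝ (Fin 2) → ℝ := fun i t x => u t x i - v t x i with he
  set w : Fin 2 → ℝ → EuclideanSpace ℝ (Fin 2) → ℝ :=
    fun i t x => dt u t x i - deriv (fun s => v s x i) t with hw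
  have heS : ∀ t ∈ Icc 0 T, ∀ i, SqInt (e i t) := fun t ht i => (huS t ht i).sub (hvS i t)
  have hwS : ∀ t ∈ Icc 0 T, ∀ i, SqInt (w i t) := fun t ht i => (hutS t ht i).sub (hvtS i t)
  have heB : ∀ t ∈ Icc 0 T, ∀ i, ∫ x, e i t x ^ 2 ≤ 2 * Bu + 2 * Bv i := fun t ht i =>
    sub_bound (huS t ht i) (hvS i t) (hBu t ht i) (hBv i t ht)
  have hwB : ∀ t ∈ Icc 0 T, ∀ i, ∫ x, w i t x ^ 2 ≤ 2 * But + 2 * Bvt i := fun t ht i =>
    sub_bound (hutS t ht i) (hvtS i t) (hBut t ht i) (hBvt i t ht)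
  have heC : ∀ i, ContinuousOn (fun z : ℝ × EuclideanSpace ℝ (Fin 2) => e i z.1 z.2)
      (Ici 0 ×ˢ univ) := by
    intro i
    have h1 : ContinuousOn (fun z : ℝ × EuclideanSpace ℝ (Fin 2) => u z.1 z.2 i)
        (Ici 0 ×ˢ univ) :=
      (EuclideanSpace.proj (𝕜 := ℝ) i).continuous.comp_continuousOn h.smooth_u.continuousOn
    exact h1.sub (hvi i).continuous.continuousOn
  have hwC : ∀ i, ContinuousOn (fun z : ℝ × EuclideanSpace ℝ (Fin 2) => w i z.1 z.2)
      (Ici 0 ×ˢ univ) := by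
    intro i
    have h1 : ContinuousOn (fun z : ℝ × EuclideanSpace ℝ (Fin 2) => dt u z.1 z.2 i)
        (Ici 0 ×ˢ univ) :=
      (EuclideanSpace.proj (𝕜 := ℝ) i).continuous.comp_continuousOn (dt_cont h)
    exact h1.sub (hvtc i).continuousOn
  set g : ℝ → EuclideanSpace ℝ (Fin 2) → ℝ :=
    fun t x => 2 * (e 0 t x * w 0 t x + e 1 t x * w 1 t x) with hg
  have hgC : ContinuousOn (fun z : ℝ × EuclideanSpace ℝ (Fin 2) => g z.1 z.2)
      (Ici 0 ×ˢ univ) :=
    continuousOn_const.mul (((heC 0).mul (hwC 0)).add ((heC 1).mul (hwC 1)))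
  have hgi : ∀ t ∈ Icc 0 T, Integrable (g t) := fun t ht =>
    (((heS t ht 0).mul_int (hwS t ht 0)).add ((heS t ht 1).mul_int (hwS t ht 1))).const_mul 2
  have hgM : ∀ t ∈ Icc 0 T, ∫ x, |g t x| ≤
      (2 * Bu + 2 * Bv 0) + (2 * But + 2 * Bvt 0) + ((2 * Bu + 2 * Bv 1) +
        (2 * But + 2 * Bvt 1)) := by
    intro t ht
    have i1 : Integrable (fun x => e 0 t x ^ 2 + w 0 t x ^ 2) :=
      (heS t ht 0).int.add (hwS t ht 0).int
    have i2 : Integrable (fun x => e 1 t x ^ 2 + w 1 t x ^ 2) :=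
      (heS t ht 1).int.add (hwS t ht 1).int
    have i3 : Integrable (fun x => (e 0 t x ^ 2 + w 0 t x ^ 2) + (e 1 t x ^ 2 + w 1 t x ^ 2)) :=
      i1.add i2
    have h1 : ∫ x, |g t x| ≤ ∫ x, ((e 0 t x ^ 2 + w 0 t x ^ 2) + (e 1 t x ^ 2 + w 1 t x ^ 2)) := by
      apply integral_mono (hgi t ht).abs i3
      intro x
      simp only [hg]
      rw [abs_le]
      constructor <;> nlinarith [sq_nonneg (e 0 t x + w 0 t x), sq_nonneg (e 1 t x + w 1 t x),
        sq_nonneg (e 0 t x - w 0 t x), sq_nonneg (e 1 t x - w 1 t x)]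
    rw [integral_add i1 i2, integral_add (heS t ht 0).int (hwS t ht 0).int,
      integral_add (heS t ht 1).int (hwS t ht 1).int] at h1
    linarith [heB t ht 0, heB t ht 1, hwB t ht 0, hwB t ht 1]
  obtain ⟨hφi, hfub⟩ := fubini_energy hgC hgi hgM
  -- pointwise identity
  have hpt : ∀ t ∈ Icc 0 T, ∀ x, ‖u t x - v t x‖ ^ 2 = ∫ s in (0 : ℝ)..t, g s x := by
    intro t ht x
    have h1 : ∀ s, ‖u s x - v s x‖ ^ 2 = e 0 s x ^ 2 + e 1 s x ^ 2 := by
      intro s
      rw [EuclideanSpace.real_norm_sq_eq, Fin.sum_univ_two]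
      rfl
    have hsc : ContinuousOn (fun s : ℝ => (s, x)) (Icc 0 t) :=
      (Continuous.prodMk_left x).continuousOn
    have hsm : MapsTo (fun s : ℝ => (s, x)) (Icc 0 t)
        (Ici (0 : ℝ) ×ˢ (univ : Set (EuclideanSpace ℝ (Fin 2)))) :=
      fun s hs => ⟨hs.1, mem_univ _⟩
    have h2 : ContinuousOn (fun s => e 0 s x ^ 2 + e 1 s x ^ 2) (Icc 0 t) :=
      (((heC 0).comp hsc hsm).pow 2).add (((heC 1).comp hsc hsm).pow 2)
    have h3 : ContinuousOn (fun s => g s x) (Icc 0 t) := hgC.comp hsc hsm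
    have hed : ∀ i, ∀ s, 0 < s → HasDerivAt (fun s => e i s x) (w i s x) s := by
      intro i s hs
      have k1 := (u_hasDeriv h s hs.le x).hasDerivAt (Ici_mem_nhds hs)
      have k2 : HasDerivAt (fun s => u s x i) (dt u s x i) s :=
        (EuclideanSpace.proj (𝕜 := ℝ) i).hasFDerivAt.comp_hasDerivAt s k1
      exact k2.sub (hvt i s x).differentiableAt.hasDerivAt
    have h4 := intervalIntegral.integral_eq_sub_of_hasDerivAt_of_le
      (f := fun s => e 0 s x ^ 2 + e 1 s x ^ 2) (f' := fun s => g s x) ht.1 h2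
      (by
        intro s hs
        have k0 := (hed 0 s hs.1).pow 2
        have k1 := (hed 1 s hs.1).pow 2
        refine (k0.add k1).congr_deriv ?_
        simp only [hg]
        push_cast
        ring)
      (h3.intervalIntegrable_of_Icc ht.1)
    rw [h4, h1 t]
    have h5 : ∀ i, e i 0 x = 0 := by
      intro i
      simp only [he]
      rw [h0 x]
      ring
    simp only [h5]
    ring
  -- the fixed time inequality
  have hfix : ∀ t ∈ Icc 0 T, ∫ x, g t x ≤ (4 * G + 1) * (∫ x, ‖u t x - v t x‖ ^ 2) + δ := by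
    intro t ht
    have hus := u_smooth h t ht.1
    have hps := p_smooth h t ht.1
    have h1 := energy_fixed (U := fun i x => u t x i) (V := fun i x => v t x i)
      (W := fun i => w i t) (r := fun i x => r t x i) (P := fun x => p t x - q t x) (C := Cu)
      (G := G) (fun i => (coord_smooth hus i).of_le one_le) (fun i => (hvis i t).of_le one_le)
      ((hps.sub (hqs t)).of_le one_le) (h.div_free t ht.1) (hdiv t)
      (fun i x => (abs_coord_le _ _).trans (hCu t ht x)) hG (fun i j x => hgrad t ht x i j)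
      (heS t ht) (by
        intro i j
        have k1 := (hduS t ht i j).sub (hdvS t i j)
        have k2 : pd j (fun y => u t y i - v t y i) =
            fun x => pd j (fun x => u t x i) x - pd j (fun y => v t y i) x := by
          funext x
          exact pd_sub ((coord_smooth hus i).of_le one_le) ((hvis i t).of_le one_le) j x
        rw [k2]
        exact k1)
      (hwS t ht) (hrS t) (by
        intro i x
        have k1 := h.momentum t ht.1 x i
        rw [dt_coord h t ht.1 x i] at k1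
        have k2 := hr t x i
        have k3 : ∀ j, pd j (fun y => u t y i - v t y i) x =
            pd j (fun x => u t x i) x - pd j (fun y => v t y i) x := fun j =>
          pd_sub ((coord_smooth hus i).of_le one_le) ((hvis i t).of_le one_le) j x
        have k4 : pd i (fun x => p t x - q t x) x = pd i (p t) x - pd i (q t) x :=
          pd_sub (hps.of_le one_le) ((hqs t).of_le one_le) i x
        rw [k3, k3, k4, k2]
        simp only [hw]
        linear_combination k1)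
    have h2 : ∫ x, (r t x 0 ^ 2 + r t x 1 ^ 2) ≤ δ := by
      refine le_trans (le_of_eq ?_) (hres t ht)
      apply integral_congr_ae
      filter_upwards with x
      rw [EuclideanSpace.real_norm_sq_eq, Fin.sum_univ_two]
    have h3 : ∫ x, ‖u t x - v t x‖ ^ 2 =
        ∫ x, ((u t x 0 - v t x 0) ^ 2 + (u t x 1 - v t x 1) ^ 2) := by
      apply integral_congr_ae
      filter_upwards with x
      rw [EuclideanSpace.real_norm_sq_eq, Fin.sum_univ_two]
      rfl
    rw [h3]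
    linarith
  -- Gronwall
  have hfin := gronwall_int (φ := fun t => ∫ x, g t x) (f := fun t => ∫ x, ‖u t x - v t x‖ ^ 2)
    (T := T) (a := 4 * G + 1) (δ := δ) (by linarith) hδ hφi
    (by
      intro t ht
      rw [← hfub t ht]
      apply integral_congr_ae
      filter_upwards with x
      exact hpt t ht x)
    (fun t _ => integral_nonneg fun x => sq_nonneg _) hfix
  exact hfin

end Pool.Agent.EulerInflation
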